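import Pool.Agent.K7x.XE.Stm

/-!
# Project H7X, piece CLO: the functions are suitable
-/

set_option autoImplicit false
set_option linter.unusedVariables false

namespace Pool.Agent.K7x.XE

open Finset H568R2 Pool.Agent.H676 Pool.Agent.H620R2.Gauge Pool.Agent.NPC Pool.Agent.H591R3.PHG
  Pool.Agent.H622R2 Pool.Agent.H622R2.Exp Filter

open Pool.Agent.H9x.RT (lev lv ml Fo Hm)

open Pool.Agent.H9x.RU (Dt Kr Smp fo la Rt SZ LQ lf)

open Pool.Agent.K7x.EQ (us us_eq Iu m2e Yes No enc va LA IsEQP dl ssum enc_cls)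

open Pool.Agent.K7x.ER (orc Fam cJ Jx blk_lv blk_dtr)

variable (S : ℕ → Polynomial ℕ) (g : ℕ → SAlg × Polynomial ℕ)

/-- the data are a family -/
theorem fam_toD (T : ℕ) (c : Cd) (B : Cont (Ib S)) (fr : List Bool → Bool) :
    Fam S (lev S c) T (fun z : Ib S c → Bool => toD S (Function.update B c z) fr) := by
  refine ⟨fun c' h1 z z' => ?_, fun v _ z z' => rfl, fun c' h1 h2 => ?_,
    fun v => Or.inl ⟨fr v, fun z => rfl⟩⟩
  · have hne : c' ≠ c := by rintro rfl; exact absurd h1 (lt_irrefl _)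
    funext t
    show enc (us (lev S c')) (Function.update B c z c') =
      enc (us (lev S c')) (Function.update B c z' c')
    rw [Function.update_of_ne hne, Function.update_of_ne hne]
  · by_cases hne : c' = c
    · right
      intro v
      subst hne
      rcases enc_cls (us (lev S c')) v with ⟨i₀, hi₀⟩ | ⟨v₀, h0⟩
      · right
        refine ⟨i₀, fun z t => ?_⟩
        show enc (us (lev S c')) (Function.update B c' z c') v = _
        rw [Function.update_self, ← hi₀ z]
      · left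
        refine ⟨v₀, fun z t => ?_⟩
        show enc (us (lev S c')) (Function.update B c' z c') v = _
        rw [Function.update_self, ← h0 z]
    · left
      refine ⟨fun z z' => ?_, Or.inr fun z => rfl⟩
      funext t
      show enc (us (lev S c')) (Function.update B c z c') =
        enc (us (lev S c')) (Function.update B c z' c')
      rw [Function.update_of_ne hne, Function.update_of_ne hne]

theorem t_CLO : S_CLO S g := by
  classical
  intro k u n T Pm Λ m₀ P M as hP hn hu hsz hm hΛ hp hcut hΛT h33 c hc B fr f hf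
  have hLQe : (LQ u k : ℝ) = ((((2 ^ (2 * u) * 2 ^ (u + 11) : ℕ) : ℝ)) ^ 2 + 1) *
      (24 * ((2 ^ (2 * u) : ℕ) : ℝ)) ^ (2 * k) := by
    unfold LQ
    push_cast
    ring
  have hk : as.length = k + 1 := hsz.1
  have hlen : ∀ (j : Fin (2 ^ (u + 11))),
      (pairBits (List.replicate P true)
        (Pool.Agent.H591R3.PHG.enc as (8 * n) (bitsOf (u + 11) j))).length ≤
        2 * P + 1 + m₀ := by
    intro j
    rw [length_pairBits, List.length_replicate, hm j]
  have hΛP : 2 * P + 1 + m₀ + k * (2 * P + 1) ≤ Λ := by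
    have h1 : (k + 1) * (2 * P + 1) ≤ (k + 1) * (2 * Pm + 1) :=
      Nat.mul_le_mul_left _ (by omega)
    have h2 : (k + 1) * (2 * P + 1) = k * (2 * P + 1) + (2 * P + 1) := by ring
    omega
  have hTt : T ≤ 2 ^ (2 * u) := by omega
  have hkk : k ≤ 2 ^ k := Nat.lt_two_pow_self.le
  have hFam := fam_toD S T c B fr
  refine ⟨k * 2 ^ (2 * P + 1 + m₀ + k * (2 * P + 1) + 2) * (1 / 2) ^ (2 ^ (2 * u) + 1),
    ?_, fun c₀ ρ => ?_, fun J _ _ φ hφ => ?_⟩
  · have e2 : (1 / 2 : ℝ) ^ (2 ^ (2 * u) + 1) = 1 / 2 ^ (2 ^ (2 * u) + 1) := by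
      rw [div_pow, one_pow]
    rw [e2, mul_one_div, div_le_div_iff₀ (by positivity) (by positivity), one_mul]
    have e3 : k * 2 ^ (2 * P + 1 + m₀ + k * (2 * P + 1) + 2) *
        2 ^ (4 * us (lev S c)) ≤ 2 ^ (2 ^ (2 * u) + 1) := by
      calc k * 2 ^ (2 * P + 1 + m₀ + k * (2 * P + 1) + 2) * 2 ^ (4 * us (lev S c)) ≤
          2 ^ k * 2 ^ (T + 2) * 2 ^ (4 * us (lev S c)) :=
            Nat.mul_le_mul_right _ (Nat.mul_le_mul hkk
              (Nat.pow_le_pow_right (by norm_num) (by omega)))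
        _ = 2 ^ (k + (T + 2) + 4 * us (lev S c)) := by
            rw [← pow_add, ← pow_add]
        _ ≤ 2 ^ (2 ^ (2 * u) + 1) := by
            refine Nat.pow_le_pow_right (by norm_num) ?_
            rw [us_eq]
            omega
    exact_mod_cast e3
  · have hb := blk_lv (X := Fin (2 ^ (u + 11))) (g := g) (k := k) (P := P) (Λ := Λ)
      (ℓ := 2 * P + 1 + m₀) (t := 2 ^ (2 * u)) (w := 8 * n) (M := M) hFam
      (fun z z' => rfl) hk (fun j : Fin (2 ^ (u + 11)) => bitsOf (u + 11) j) hlen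
      hΛP hcut Nat.one_le_two_pow (fun y hy => (hp y hy).trans hTt) ?_ (f := f)
      (fun z => hf z) c₀ ρ
    · refine hb.trans (le_of_eq ?_)
      rw [hLQe, Fintype.card_fin]
    · calc k * 2 ^ (2 * P + 1 + m₀ + k * (2 * P + 1) + 2) *
          (2 ^ (8 * us (lev S c) * 2 + 1)) ^ 2
          ≤ 2 ^ k * 2 ^ (T + 2) * (2 ^ (8 * us (lev S c) * 2 + 1)) ^ 2 :=
            Nat.mul_le_mul_right _ (Nat.mul_le_mul hkk
              (Nat.pow_le_pow_right (by norm_num) (by omega)))
        _ = 2 ^ (k + (T + 2) + (8 * us (lev S c) * 2 + 1) * 2) := by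
            rw [← pow_mul, ← pow_add, ← pow_add]
        _ ≤ 2 ^ (2 ^ (2 * u) + 1) := by
            refine Nat.pow_le_pow_right (by norm_num) ?_
            rw [us_eq]
            omega
  · have hb := blk_dtr (X := Fin (2 ^ (u + 11))) (g := g) (k := k) (P := P) (Λ := Λ)
      (ℓ := 2 * P + 1 + m₀) (t := 2 ^ (2 * u)) (w := 8 * n) (M := M) hFam
      (fun z z' => rfl) hk (fun j : Fin (2 ^ (u + 11)) => bitsOf (u + 11) j) hlen
      hΛP hcut Nat.one_le_two_pow (fun y hy => (hp y hy).trans hTt) (f := f)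
      (fun z => hf z) (φ := φ) hφ
    rw [Fintype.card_fin] at hb
    convert hb using 1

end Pool.Agent.K7x.XE
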