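import Pool.Agent.K7x.XE.Stm
import Pool.Agent.K7x.EQ.Conc

/-!
# Project H7X, piece CNC (helper33): concentrated forrelation, close to uniform

Copy of `exists_conc` (`K7x/EQ/Conc.lean`) with the two distances to the uniform distribution.
-/

set_option autoImplicit false
set_option linter.unusedSectionVars false
set_option linter.unusedVariables false

namespace Pool.Agent.K7x.XE

open Finset H568R2 Pool.Agent.H676 Pool.Agent.H9x.RT Pool.Agent.K7x.EQ

open Classical in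
theorem t_CNC : S_CNC := by
  intro l hl ε η hε0 hε1 hη hη1 hq
  have hl1 : (1 : ℝ) ≤ l := by exact_mod_cast hl
  have hH := orth_Hm l
  have hcard : (Fintype.card (Fin l → Bool) : ℝ) = 2 ^ l := by simp
  have h2l : (0 : ℝ) < 2 ^ l := by positivity
  have hε2 : ε ≤ 1 := hε1.trans (by
    rw [div_le_one (by positivity)]
    linarith)
  have hη2 : η ^ 2 ≤ 1 := pow_le_one₀ hη.le hη1
  have hq' : (0 : ℝ) < 2 ^ l * η ^ 2 := by positivity
  obtain ⟨T, δ, h0, h1, hs, hT, hτ⟩ := walk_exists hH hε0 (τ := 1 / 2 ^ l) (by positivity)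
  have hgood := wD_conc hH hε0 hε2 hη hs hT
  have hexp : 4 * (Fintype.card (Fin l → Bool) : ℝ) * Real.exp (-(1 / (8 * ε))) +
      1 / η ^ 2 * (3 / Fintype.card (Fin l → Bool)) ≤ 7 / (2 ^ l * η ^ 2) := by
    rw [hcard]
    have e1 : (l : ℝ) * 2 ≤ 1 / (8 * ε) := by
      rw [le_div_iff₀ (by positivity)]
      rw [le_div_iff₀ (by positivity)] at hε1
      linarith
    have e0 : Real.exp (-(1 / (8 * ε))) ≤ Real.exp (-((l : ℝ) * 2)) := Real.exp_le_exp.2 (by linarith)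
    have e2 : 1 / η ^ 2 * (3 / (2 : ℝ) ^ l) = 3 / (2 ^ l * η ^ 2) := by
      field_simp
    have e3 : (2 : ℝ) ^ l * 2 ^ l ≤ Real.exp 2 ^ l := by
      rw [← mul_pow]
      refine pow_le_pow_left₀ (by norm_num) ?_ l
      have h5 := Real.add_one_le_exp (1 : ℝ)
      have h6 : Real.exp 2 = Real.exp 1 * Real.exp 1 := by
        rw [← Real.exp_add]; norm_num
      rw [h6]
      nlinarith
    have e4 : 4 * (2 : ℝ) ^ l * Real.exp (-((l : ℝ) * 2)) ≤ 4 / 2 ^ l := by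
      rw [Real.exp_neg, Real.exp_nat_mul, ← div_eq_mul_inv, div_le_div_iff₀ (by positivity)
        (by positivity)]
      nlinarith
    have e5 : 4 / (2 : ℝ) ^ l ≤ 4 / (2 ^ l * η ^ 2) :=
      div_le_div_of_nonneg_left (by norm_num) hq' (mul_le_of_le_one_right h2l.le hη2)
    have e6 : 7 / ((2 : ℝ) ^ l * η ^ 2) = 4 / (2 ^ l * η ^ 2) + 3 / (2 ^ l * η ^ 2) := by ring
    have e7 : 4 * (2 : ℝ) ^ l * Real.exp (-(1 / (8 * ε))) ≤
        4 * (2 : ℝ) ^ l * Real.exp (-((l : ℝ) * 2)) :=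
      mul_le_mul_of_nonneg_left e0 (by positivity)
    rw [e2, e6]
    linarith
  obtain ⟨P, hP0, hP1, hPG, hP⟩ := cond_exists (wD (Wf (Hm l)) δ T) (wD_nonneg hs T)
    (sum_wD_one T) (fun a => |Fo (Hm l) a - ε| ≤ η)
    (p := 7 / (2 ^ l * η ^ 2)) (by
      refine le_trans (le_of_eq ?_) (hgood.trans hexp)
      refine sum_congr rfl fun a _ => ?_
      split_ifs <;> simp) hq
  set U : ((Fin l → Bool) ⊕ (Fin l → Bool) → Bool) → ℝ := fun _ =>
    1 / 2 ^ Fintype.card ((Fin l → Bool) ⊕ (Fin l → Bool)) with hU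
  have hUs : ∀ F : ((Fin l → Bool) ⊕ (Fin l → Bool) → Bool) → ℝ, ∑ a, U a * F a = ml F 0 := by
    intro F
    rw [ml_zero, sum_div]
    exact sum_congr rfl fun a _ => by rw [hU]; ring
  have hq2 : 1 / (2 ^ l * η ^ 2) < 1 := lt_of_le_of_lt
    (div_le_div_of_nonneg_right (by norm_num) hq'.le) hq
  obtain ⟨Q, hQ0, hQ1, hQG, hQ⟩ := cond_exists U (fun a => by rw [hU]; positivity)
    (by
      have := hUs (fun _ => 1)
      rw [ml_const] at this
      simpa using this) (fun a => |Fo (Hm l) a| ≤ η)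
    (p := 1 / (2 ^ l * η ^ 2)) (by
      have h5 := unif_good hH hη
      rw [← hUs, hcard] at h5
      refine le_trans (le_of_eq ?_) h5
      refine sum_congr rfl fun a _ => ?_
      split_ifs <;> simp) hq2
  refine ⟨P, Q, hP0, hP1, hPG, hQ0, hQ1, hQG, fun h L hL1 hL => ?_⟩
  have hb0 : ∀ a, 0 ≤ br h a := fun a => by unfold br; split_ifs <;> norm_num
  have hb1 : ∀ a, br h a ≤ 1 := fun a => by unfold br; split_ifs <;> norm_num
  have h5 := abs_le.1 (hP (br h) hb0 hb1)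
  have h6 := abs_le.1 (hQ (br h) hb0 hb1)
  have h7 := abs_le.1 (wD_close hH h0 h1 hs hT hτ h (by linarith : (0 : ℝ) ≤ L) hL)
  rw [hUs] at h6
  have e1 : ∑ a, wD (Wf (Hm l)) δ T a * br h a = ∑ a, br h a * wD (Wf (Hm l)) δ T a :=
    sum_congr rfl fun a _ => mul_comm _ _
  rw [e1] at h5
  have hs2 : 0 < Real.sqrt 2 ^ l := pow_pos sqrt2_pos l
  have h9 : ε * (1 / Real.sqrt 2 ^ l * (4 * L)) ≤ L / Real.sqrt 2 ^ l := by
    have h10 : ε ≤ 1 / 4 := hε1.trans (one_div_le_one_div_of_le (by norm_num) (by linarith))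
    have h11 : ε * (1 / Real.sqrt 2 ^ l * (4 * L)) = (4 * ε) * (L / Real.sqrt 2 ^ l) := by ring
    rw [h11]
    exact mul_le_of_le_one_left (by positivity) (by linarith)
  have h12 : 1 / (2 : ℝ) ^ l ≤ 1 / (2 ^ l * η ^ 2) :=
    div_le_div_of_nonneg_left (by norm_num) hq' (mul_le_of_le_one_right h2l.le hη2)
  have e6 : 9 / ((2 : ℝ) ^ l * η ^ 2) = 7 / (2 ^ l * η ^ 2) + 1 / (2 ^ l * η ^ 2) +
    1 / (2 ^ l * η ^ 2) := by ring
  have e7 : 0 < 1 / ((2 : ℝ) ^ l * η ^ 2) := by positivity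
  have e8 : 0 < 7 / ((2 : ℝ) ^ l * η ^ 2) := by positivity
  have e9 : 0 ≤ L / Real.sqrt 2 ^ l := by positivity
  rw [e6, abs_le, abs_le]
  refine ⟨⟨?_, ?_⟩, ?_, ?_⟩ <;> linarith [h5.1, h5.2, h6.1, h6.2, h7.1, h7.2]

end Pool.Agent.K7x.XE
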