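import Pool.Agent.K7x.XE.Stm

/-!
# Piece CNT: the number of all questions
-/

set_option autoImplicit false

namespace Pool.Agent.K7x.XE

open Finset

open Pool.Agent.H9x.RT (lev UU mem_UU card_lev)

lemma cnt_geom (s : ℕ) : ∑ t ∈ range (s + 1), 2 ^ (3 * t + 1) ≤ 2 ^ (3 * s + 2) := by
  induction s with
  | zero => simp
  | succ s ih =>
    rw [sum_range_succ]
    have e1 : 2 ^ (3 * (s + 1) + 1) = 4 * 2 ^ (3 * s + 2) := by
      rw [show 3 * (s + 1) + 1 = (3 * s + 2) + 2 by ring, pow_add]; ring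
    have e2 : 2 ^ (3 * (s + 1) + 2) = 8 * 2 ^ (3 * s + 2) := by
      rw [show 3 * (s + 1) + 2 = (3 * s + 2) + 3 by ring, pow_add]; ring
    rw [e1, e2]
    omega

theorem t_CNT (S : ℕ → Polynomial ℕ) : S_CNT S := by
  classical
  intro hS s
  unfold Db
  have hmap : ∀ c ∈ UU S 0 s, lev S c ∈ range (s + 1) := fun c hc => by
    rw [mem_range]
    have := ((mem_UU hS).1 hc).2
    omega
  rw [← sum_fiberwise_of_maps_to hmap]
  refine le_trans (sum_le_sum (g := fun t => 2 ^ (3 * t + 1)) fun t _ => ?_) (cnt_geom s)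
  have h1 : ∑ c ∈ (UU S 0 s).filter (fun c => lev S c = t), 2 ^ Nat.sqrt (lev S c) =
      ∑ c ∈ (UU S 0 s).filter (fun c => lev S c = t), 2 ^ Nat.sqrt t :=
    sum_congr rfl fun c hc => by rw [(mem_filter.1 hc).2]
  rw [h1, sum_const, smul_eq_mul]
  have h3 := card_lev hS 0 s t
  have h4 : ((UU S 0 s).filter fun c => lev S c = t).card ≤ 2 ^ (2 * t + 1) := by
    convert h3
  calc ((UU S 0 s).filter fun c => lev S c = t).card * 2 ^ Nat.sqrt t
      ≤ 2 ^ (2 * t + 1) * 2 ^ t :=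
        Nat.mul_le_mul h4 (Nat.pow_le_pow_right (by norm_num) (Nat.sqrt_le_self t))
    _ = 2 ^ (3 * t + 1) := by rw [← pow_add]; congr 1; ring

end Pool.Agent.K7x.XE
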