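import Pool.Agent.K7x.XE.Stm

/-!
# Project H7X, piece COR (helper52): abstract correctness of the filling
-/

set_option autoImplicit false

namespace Pool.Agent.K7x.XE

open Finset

theorem t_COR : S_COR := by
  intro ι _ I _ _ m K q hq C B F B' F' hnd hR
  induction hR with
  | nil B F =>
    refine ⟨fun c _ => rfl, fun c i _ => rfl, fun c => Subset.refl _, fun c hc => ?_, fun c => ?_⟩
    · exact absurd hc (List.not_mem_nil)
    · simp
  | cons c C B F z B' F' hz hR ih =>
    have hcC : c ∉ C := (List.nodup_cons.1 hnd).1
    obtain ⟨h1, h2, h3, h4, h5⟩ := ih (List.nodup_cons.1 hnd).2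
    have hB1 : ∀ c', ∀ i ∈ nF m B F c c', Function.update B c z c' i = B c' i := by
      intro c' i hi
      by_cases hcc : c' = c
      · subst hcc
        rw [Function.update_self]
        exact K.sup _ _ _ _ _ hz i hi
      · rw [Function.update_of_ne hcc]
    have hBB : ∀ c', ∀ i ∈ nF m B F c c', B' c' i = B c' i := fun c' i hi =>
      (h2 c' i hi).trans (hB1 c' i hi)
    have hloc := m.loc c B B' (fun c' i hi => hBB c' i (mem_union_right _ hi))
    have hcard : ∀ c', (nF m B F c c').card ≤ (F c').card + q c := fun c' =>
      (card_union_le _ _).trans (Nat.add_le_add_left (hq c B c') _)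
    refine ⟨fun c' hc' => ?_, fun c' i hi => hBB c' i (mem_union_left _ hi), fun c' => ?_,
      fun c' hc' => ?_, fun c' => ?_⟩
    · rw [List.mem_cons, not_or] at hc'
      rw [h1 c' hc'.2, Function.update_of_ne hc'.1]
    · exact subset_union_left.trans (h3 c')
    · rcases List.mem_cons.1 hc' with h | h
      · subst h
        refine ⟨fun c'' => ?_, [], C, nF m B F c' c', B c', rfl, ?_, ?_⟩
        · rw [hloc.2]
          exact subset_union_right.trans (h3 c'')
        · simpa using hcard c'
        · rw [hloc.1]
          have : B' c' = z := by rw [h1 c' hcC, Function.update_self]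
          rw [this]
          exact hz
      · obtain ⟨hR', C₁, C₂, G, v, hC, hG, hK⟩ := h4 c' h
        refine ⟨hR', c :: C₁, C₂, G, v, by rw [hC]; rfl, ?_, hK⟩
        rw [List.map_cons, List.sum_cons]
        have := hcard c'
        omega
    · rw [List.map_cons, List.sum_cons]
      have := hcard c'
      have := h5 c'
      omega

end Pool.Agent.K7x.XE
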