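import Pool.Agent.K7x.XE.Stm

/-!
# Piece DST: the distributions with forced bits
-/

set_option autoImplicit false
set_option linter.unusedSectionVars false
set_option linter.unusedVariables false

namespace Pool.Agent.K7x.XE

open Finset H568R2 Pool.Agent.H676 Pool.Agent.H620R2.Gauge Pool.Agent.NPC Pool.Agent.H591R3.PHG
  Pool.Agent.H622R2 Pool.Agent.H622R2.Exp Filter

open Pool.Agent.H9x.RT (lev lv ml Fo Hm ml_zero)

open Pool.Agent.K7x.EQ (us us_eq Iu m2e va dl ssum Am Am_zero Am_int exists_tau small_k Fo_int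
  comb sum_fun_sum ml_unif sum_unif m1_eq m2_eq fo m1 m2)

namespace DST

section Push

variable {I : Type} [Fintype I] [DecidableEq I] (σ : Restr I)

/-- push forward of a distribution by fixing bits -/
noncomputable def psh (P : (I → Bool) → ℝ) (a' : I → Bool) : ℝ :=
  ∑ a, if ov σ a = a' then P a else 0

theorem psh_nn {P : (I → Bool) → ℝ} (hP : ∀ a, 0 ≤ P a) (a' : I → Bool) : 0 ≤ psh σ P a' := by
  refine sum_nonneg fun a _ => ?_
  split_ifs
  · exact hP a
  · exact le_rfl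

theorem psh_sum (P g : (I → Bool) → ℝ) : ∑ a', psh σ P a' * g a' = ∑ a, P a * g (ov σ a) := by
  unfold psh
  simp only [sum_mul]
  rw [sum_comm]
  refine sum_congr rfl fun a _ => ?_
  simp only [ite_mul, zero_mul]
  rw [sum_ite_eq]
  simp

theorem psh_one {P : (I → Bool) → ℝ} (h : ∑ a, P a = 1) : ∑ a', psh σ P a' = 1 := by
  have h1 := psh_sum σ P fun _ => 1
  simp only [mul_one] at h1
  rw [h1, h]

theorem psh_supp {P : (I → Bool) → ℝ} {a' : I → Bool} (h : psh σ P a' ≠ 0) :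
    ∃ a, P a ≠ 0 ∧ ov σ a = a' := by
  unfold psh at h
  obtain ⟨a, _, ha⟩ := exists_ne_zero_of_sum_ne_zero h
  by_cases h1 : ov σ a = a'
  · rw [if_pos h1] at ha
    exact ⟨a, ha, h1⟩
  · rw [if_neg h1] at ha
    exact absurd rfl ha

/-- the uniform distribution -/
noncomputable def unf (I : Type) [Fintype I] (_ : I → Bool) : ℝ := 1 / 2 ^ Fintype.card I

theorem unf_nn (a : I → Bool) : 0 ≤ unf I a := by
  unfold unf
  positivity

theorem unf_one : ∑ a, unf I a = 1 := sum_unif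

theorem ml_rs (f : (I → Bool) → Bool) : ml (br (rs f σ)) 0 = ∑ a', psh σ (unf I) a' * br f a' := by
  rw [ml_unif, psh_sum]
  rfl

theorem ov_agree (a : I → Bool) (i : I) (c : Bool) (h : σ i = some c) : ov σ a i = c := by
  unfold ov
  rw [h]
  rfl

end Push

/-- **The unrestricted data of one truth value.** -/
theorem data (hC : S_CNC) {u : ℕ} (hu : 1 ≤ u) (b : Bool) :
    ∃ (w W2 : ℤ) (P0 : ((Fin (8 * u * 2) → Bool) ⊕ (Fin (8 * u * 2) → Bool) → Bool) → ℝ),
      (∀ a, 0 ≤ P0 a) ∧ ∑ a, P0 a = 1 ∧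
      (∀ a, P0 a ≠ 0 → |2 ^ (24 * u) * Fo (Hm (8 * u * 2)) a - 2 * w| ≤ 2 + 2 ^ (20 * u)) ∧
      (∃ r : ℤ, W2 = 2 * r) ∧
      |(W2 : ℝ)| ≤ 2 * 2 ^ (4 * (6 * u * (1024 * u + 1) + 1)) / 2 ^ (4 * u) ∧
      Am (512 * u) ((w : ℝ) / 2 ^ (24 * u)) + W2 / 2 ^ (m2e u) = (if b then 1 else 0) ∧
      ∀ (f : ((Fin (8 * u * 2) → Bool) ⊕ (Fin (8 * u * 2) → Bool) → Bool) → Bool) (L : ℝ), 1 ≤ L →
        (∀ ρ, lv 2 (br (rs f ρ)) 0 ≤ L) →
        |∑ a, P0 a * br f a - ml (br f) 0| ≤ (L + 9) / 2 ^ (8 * u) := by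
  have huR : (1 : ℝ) ≤ u := by exact_mod_cast hu
  have hk1 : 1 ≤ 512 * u := by omega
  have hke : Even (512 * u) := ⟨256 * u, by ring⟩
  obtain ⟨τi, hτ0, hτ1, hτ2, hA1, hA2⟩ := exists_tau (m := 24 * u) hk1 hke
  set σ : ℝ := Real.sin (Real.pi / (2 * (2 * ((512 * u : ℕ) : ℝ) + 1))) with hσ
  set τ : ℝ := (τi : ℝ) / 2 ^ (24 * u) with hτ
  have hpi := Real.pi_pos
  have hσ0 : 0 < σ := by
    refine Real.sin_pos_of_pos_of_lt_pi (by positivity) ?_
    rw [div_lt_iff₀ (by positivity)]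
    have : (0 : ℝ) ≤ ((512 * u : ℕ) : ℝ) := by positivity
    nlinarith
  have hσ1 : 2 * σ ≤ 1 / (16 * ((8 * u * 2 : ℕ) : ℝ)) := by
    have h1 : σ ≤ Real.pi / (2 * (2 * ((512 * u : ℕ) : ℝ) + 1)) := Real.sin_le (by positivity)
    have h2 : Real.pi ≤ 3.15 := Real.pi_lt_d2.le
    have h3 : 2 * (Real.pi / (2 * (2 * ((512 * u : ℕ) : ℝ) + 1))) ≤
        1 / (16 * ((8 * u * 2 : ℕ) : ℝ)) := by
      push_cast
      rw [mul_div_assoc', div_le_div_iff₀ (by positivity) (by positivity)]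
      nlinarith
    linarith
  set η : ℝ := 1 / 2 ^ (4 * u) with hη
  have hη0 : 0 < η := by positivity
  have hη1 : η ≤ 1 := by
    rw [hη, div_le_one (by positivity)]
    exact one_le_pow₀ (by norm_num)
  have hη2 : (2 : ℝ) ^ (8 * u * 2) * η ^ 2 = 2 ^ (8 * u) := by
    rw [hη, div_pow, one_pow, ← pow_mul, mul_one_div, div_eq_iff (by positivity), ← pow_add]
    congr 1
    ring
  have h8u : (256 : ℝ) ≤ 2 ^ (8 * u) := by
    have : (2 : ℝ) ^ 8 ≤ 2 ^ (8 * u) := pow_le_pow_right₀ (by norm_num) (by omega)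
    linarith
  obtain ⟨P0, Q0, hP0, hP01, hP0s, hQ0, hQ01, hQ0s, hPQ⟩ := hC (l := 8 * u * 2) (by omega)
    (ε := 2 * σ) (η := η) (by positivity) hσ1 hη0 hη1 (by
      rw [hη2, div_lt_one (by positivity)]
      linarith)
  have hnum : ∀ L : ℝ, L / Real.sqrt 2 ^ (8 * u * 2) + 9 / (2 ^ (8 * u * 2) * η ^ 2) =
      (L + 9) / 2 ^ (8 * u) := by
    intro L
    have h2 : (Real.sqrt 2) ^ (8 * u * 2) = 2 ^ (8 * u) := by
      rw [mul_comm (8 * u) 2, pow_mul, Real.sq_sqrt (by norm_num)]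
    rw [h2, hη2]
    ring
  have h20 : (2 : ℝ) ^ (24 * u) * η = 2 ^ (20 * u) := by
    rw [hη, mul_one_div, div_eq_iff (by positivity), ← pow_add]
    congr 1
    ring
  have h24 : (0 : ℝ) < 2 ^ (24 * u) := by positivity
  cases b with
  | false =>
    refine ⟨0, 0, Q0, hQ0, hQ01, fun a ha => ?_, ⟨0, rfl⟩, ?_, ?_, fun f L hL hf => ?_⟩
    · have h1 := hQ0s a ha
      have h2 : (2 : ℝ) ^ (24 * u) * Fo (Hm (8 * u * 2)) a - 2 * ((0 : ℤ) : ℝ) =
          2 ^ (24 * u) * Fo (Hm (8 * u * 2)) a := by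
        push_cast
        ring
      rw [h2, abs_mul, abs_of_pos h24]
      have h3 := mul_le_mul_of_nonneg_left h1 h24.le
      rw [h20] at h3
      linarith
    · simp only [Int.cast_zero, abs_zero]
      positivity
    · simp [Am_zero]
    · have h1 := (hPQ f L hL hf).2
      rwa [hnum] at h1
  | true =>
    obtain ⟨ai, hai⟩ := Am_int (m := 24 * u) τi (512 * u)
    have he1 : 24 * u * (2 * (512 * u) + 1) = 24 * u * (1024 * u + 1) := by ring
    rw [he1] at hai
    set E : ℕ := 24 * u * (1024 * u + 1) with hE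
    have hm2e : m2e u = E + 4 := rfl
    have h4E : 4 * (6 * u * (1024 * u + 1) + 1) = E + 4 := by rw [hE]; ring
    have hs2 : ((2 ^ (E + 4) - 16 * ai : ℤ) : ℝ) = 2 ^ (E + 4) * (1 - Am (512 * u) τ) := by
      rw [hai, pow_add]
      push_cast
      have : (0 : ℝ) < 2 ^ E := by positivity
      field_simp
      ring
    refine ⟨τi, 2 ^ (E + 4) - 16 * ai, P0, hP0, hP01, fun a ha => ?_,
      ⟨2 ^ (E + 3) - 8 * ai, by rw [pow_succ 2 (E + 3)]; ring⟩, ?_, ?_, fun f L hL hf => ?_⟩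
    · have h1 := hP0s a ha
      have h2 : (2 : ℝ) ^ (24 * u) * Fo (Hm (8 * u * 2)) a - 2 * (τi : ℝ) =
          2 ^ (24 * u) * (Fo (Hm (8 * u * 2)) a - 2 * τ) := by
        rw [hτ]
        field_simp
      have h3 : |Fo (Hm (8 * u * 2)) a - 2 * τ| ≤ 2 * (1 / 2 ^ (24 * u)) + η := by
        rw [abs_le] at h1 ⊢
        constructor <;> linarith [h1.1, h1.2]
      rw [h2, abs_mul, abs_of_pos h24]
      calc (2 : ℝ) ^ (24 * u) * |Fo (Hm (8 * u * 2)) a - 2 * τ| ≤
          2 ^ (24 * u) * (2 * (1 / 2 ^ (24 * u)) + η) := mul_le_mul_of_nonneg_left h3 h24.le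
        _ = 2 + 2 ^ (20 * u) := by
          rw [mul_add, h20]
          field_simp
    · rw [hs2, h4E, abs_mul, abs_of_pos (by positivity : (0 : ℝ) < 2 ^ (E + 4)),
        abs_of_nonneg (by linarith)]
      have h1 : 1 - Am (512 * u) τ ≤ 2 / 2 ^ (4 * u) := by
        refine hA2.trans ?_
        have h2 : (2 * ((512 * u : ℕ) : ℝ) + 1) ^ 2 ≤ 2 ^ (24 * u) := by
          have := small_k hu
          push_cast
          have e : 2 * (512 * (u : ℝ)) + 1 = 1024 * u + 1 := by ring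
          rw [e]
          exact this
        rw [div_le_div_iff₀ (by positivity) (by positivity)]
        have h3 : (2 : ℝ) ^ (4 * u) ≤ 2 ^ (24 * u) := pow_le_pow_right₀ (by norm_num) (by omega)
        calc 2 * (2 * ((512 * u : ℕ) : ℝ) + 1) ^ 2 * 2 ^ (4 * u) ≤
            2 * 2 ^ (24 * u) * 2 ^ (24 * u) := by
              refine mul_le_mul ?_ h3 (by positivity) (by positivity)
              linarith
          _ = 2 * (2 ^ (24 * u)) ^ 2 := by ring
      calc (2 : ℝ) ^ (E + 4) * (1 - Am (512 * u) τ) ≤ 2 ^ (E + 4) * (2 / 2 ^ (4 * u)) :=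
            mul_le_mul_of_nonneg_left h1 (by positivity)
        _ = 2 * 2 ^ (E + 4) / 2 ^ (4 * u) := by ring
    · rw [hm2e, hs2, ← hτ]
      simp only [if_true]
      field_simp
      ring
    · have h1 := (hPQ f L hL hf).1
      rwa [hnum] at h1

theorem tri {A B C : Type} [Fintype A] [DecidableEq A] [Fintype B] [DecidableEq B] [Fintype C]
    [DecidableEq C] (σ1 : Restr A) (σ2 : Restr B) (σ3 : Restr C) (PA : (A → Bool) → ℝ)
    (PB : (B → Bool) → ℝ) (PC : (C → Bool) → ℝ)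
    (H : (A → Bool) → (B → Bool) → (C → Bool) → ℝ) :
    ∑ a, ∑ b, ∑ c, psh σ1 PA a * (psh σ2 PB b * psh σ3 PC c) * H a b c =
      ∑ a, ∑ b, ∑ c, PA a * (PB b * PC c) * H (ov σ1 a) (ov σ2 b) (ov σ3 c) := by
  have e1 : ∀ a b, ∑ c, psh σ1 PA a * (psh σ2 PB b * psh σ3 PC c) * H a b c =
      psh σ1 PA a * (psh σ2 PB b * ∑ c, PC c * H a b (ov σ3 c)) := by
    intro a b
    rw [← psh_sum σ3 PC (fun c => H a b c), mul_sum, mul_sum]
    exact sum_congr rfl fun c _ => by ring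
  have e2 : ∀ a, ∑ b, psh σ1 PA a * (psh σ2 PB b * ∑ c, PC c * H a b (ov σ3 c)) =
      psh σ1 PA a * ∑ b, PB b * ∑ c, PC c * H a (ov σ2 b) (ov σ3 c) := by
    intro a
    rw [← psh_sum σ2 PB (fun b => ∑ c, PC c * H a b (ov σ3 c)), mul_sum]
  rw [sum_congr rfl fun a _ => sum_congr rfl fun b _ => e1 a b, sum_congr rfl fun a _ => e2 a,
    psh_sum σ1 PA (fun a => ∑ b, PB b * ∑ c, PC c * H a (ov σ2 b) (ov σ3 c))]
  refine sum_congr rfl fun a _ => ?_
  rw [mul_sum]
  refine sum_congr rfl fun b _ => ?_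
  rw [mul_sum, mul_sum]
  exact sum_congr rfl fun c _ => by ring

theorem card_part {A B : Type} [Fintype A] [Fintype B] (σ : Restr B) (g : A → B)
    (hg : Function.Injective g) :
    (univ.filter fun i => σ (g i) ≠ none).card ≤ (univ.filter fun i => σ i ≠ none).card := by
  refine card_le_card_of_injOn g ?_ hg.injOn
  intro i hi
  have h1 := (mem_filter.1 (mem_coe.1 hi)).2
  exact mem_coe.2 (mem_filter.2 ⟨mem_univ _, h1⟩)

open Classical in
/-- **The distributions, general size.** -/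
theorem main (hC : S_CNC) (hLIP : S_LIP) (hM : S_MSK) {u t : ℕ} (hu : 5 ≤ u) {p L : ℝ}
    (hp0 : 0 < p) (hp1 : p ≤ 1) (hL : 1 ≤ L) (hLp : (1 + (t : ℝ)) ^ 2 ≤ 2 * L * p)
    (hbig : 32 * L ≤ 2 ^ (4 * u)) (bb : Bool) (σ : Restr (Iu u))
    (hσ : (univ.filter fun i => σ i ≠ none).card ≤ 2 ^ (3 * u)) :
    ∃ P : (Iu u → Bool) → ℝ, (∀ a, 0 ≤ P a) ∧ ∑ a, P a = 1 ∧
      (∀ a, P a ≠ 0 → va u a = (if bb then 1 else 0) ∧ ∀ i c, σ i = some c → a i = c) ∧
      ∀ (f : (Iu u → Bool) → Bool) (β : ℝ),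
        (∀ c, ∀ ρ, lv 2 (br (rs (fun a => f (Sum.elim a c)) ρ)) 0 ≤ L) →
        (∀ (J : Type) [Fintype J] [DecidableEq J] (φ : (J → Bool) → (Iu u → Bool)), Sb φ →
          Ex (wq p) (fun ρ : Restr J => if ¬ DTr t (rs (fun a => f (φ a)) ρ) then (1 : ℝ)
            else 0) ≤ β) →
        |∑ a, P a * br f a - ml (br (rs f σ)) 0| ≤
          2 * (40 * (2 * L) / 2 ^ (4 * u) + β) + (L + 9) / 2 ^ (8 * u) := by
  have hu1 : 1 ≤ u := by omega
  set X := Fin (8 * u * 2) → Bool with hX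
  set Y := (Fin (8 * u * 2) → Bool) × (Fin (8 * u) → Bool) with hY
  set Z := Fin (m2e u) → Bool with hZ
  obtain ⟨w, W2, P0, hP0, hP01, hP0s, hWpar, hW2, hAm, hP0c⟩ := data hC hu1 bb
  have hcY : Fintype.card Y = 2 ^ (4 * (6 * u)) := by
    simp only [Y, Fintype.card_prod, Fintype.card_fun, Fintype.card_bool, Fintype.card_fin]
    rw [← pow_add]
    congr 1
    ring
  have hcZ : Fintype.card Z = 2 ^ (4 * (6 * u * (1024 * u + 1) + 1)) := by
    simp only [Z, Fintype.card_fun, Fintype.card_bool, Fintype.card_fin]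
    congr 1
    unfold m2e
    ring
  set σ1 : Restr (X ⊕ X) := fun i => σ (.inl i) with hσ1
  set σ2 : Restr Y := fun i => σ (.inr (.inl i)) with hσ2
  set σ3 : Restr Z := fun i => σ (.inr (.inr i)) with hσ3
  have hc1 : (univ.filter fun i => σ1 i ≠ none).card ≤ 2 ^ (3 * u) :=
    (card_part σ (fun i => Sum.inl i) Sum.inl_injective).trans hσ
  have hc2 : (univ.filter fun i => σ2 i ≠ none).card ≤ 2 ^ (3 * u) :=
    (card_part σ (fun i => Sum.inr (Sum.inl i))
      (Sum.inr_injective.comp Sum.inl_injective)).trans hσ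
  have hc3 : (univ.filter fun i => σ3 i ≠ none).card ≤ 2 ^ (3 * u) :=
    (card_part σ (fun i => Sum.inr (Sum.inr i))
      (Sum.inr_injective.comp Sum.inr_injective)).trans hσ
  have hS := fun a => Fo_int (u := u) hu1 a
  choose Sf hSf using hS
  set bd : ℝ := (9 / 4) * 2 ^ (4 * (6 * u)) / 2 ^ (4 * u) with hbd
  have hbd' : bd = (9 / 4) * 2 ^ (20 * u) := by
    rw [hbd, div_eq_iff (by positivity), mul_assoc, ← pow_add]
    congr 2
    ring
  have hbd0 : 0 ≤ bd := by rw [hbd']; positivity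
  have h24 : (0 : ℝ) < 2 ^ (24 * u) := by positivity
  have h20' : (2 : ℝ) ≤ 2 ^ (20 * u) := by
    have : (2 : ℝ) ^ 1 ≤ 2 ^ (20 * u) := pow_le_pow_right₀ (by norm_num) (by omega)
    linarith
  have hΛ : 16 * (2 * L) ≤ 2 ^ (4 * u) := by linarith
  -- the first mask
  have maskf : ∀ a : X ⊕ X → Bool, ∃ PW : (Y → Bool) → ℝ, (∀ b, 0 ≤ PW b) ∧ ∑ b, PW b = 1 ∧
      (∀ b, |((2 * (w - Sf a) : ℤ) : ℝ)| ≤ bd → PW b ≠ 0 → ssum univ b = 2 * (w - Sf a) ∧
        ∀ i c, σ2 i = some c → b i = c) ∧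
      ∀ (h : (Y → Bool) → Bool) (β : ℝ),
        (∀ (J : Type) [Fintype J] [DecidableEq J] (φ : (J → Bool) → (Y → Bool)), Sb φ →
          Ex (wq p) (fun ρ : Restr J => if ¬ DTr t (rs (fun a => h (φ a)) ρ) then (1 : ℝ)
            else 0) ≤ β) →
        |∑ b, PW b * br h b - ml (br (rs h σ2)) 0| ≤ 40 * (2 * L) / 2 ^ (4 * u) + β := by
    intro a
    by_cases ha : |((2 * (w - Sf a) : ℤ) : ℝ)| ≤ bd
    · obtain ⟨PW, h1, h2, h3, h4⟩ := hM Y hcY (by omega : 4 * u ≤ 6 * u) hu hp0 hp1 hLp hΛ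
        (s := 2 * (w - Sf a)) ⟨_, rfl⟩ ha σ2 hc2
      exact ⟨PW, h1, h2, fun b _ hb => h3 b hb, h4⟩
    · obtain ⟨PW, h1, h2, h3, h4⟩ := hM Y hcY (by omega : 4 * u ≤ 6 * u) hu hp0 hp1 hLp hΛ
        (s := 0) ⟨0, rfl⟩ (by simp; positivity) σ2 hc2
      exact ⟨PW, h1, h2, fun b hb _ => absurd hb ha, h4⟩
  choose PW hPW hPW1 hPWs hPWc using maskf
  -- the second mask
  obtain ⟨P2, hP2, hP21, hP2s, hP2c⟩ := hM Z hcZ
    (by nlinarith : 4 * u ≤ 6 * u * (1024 * u + 1) + 1) hu hp0 hp1 hLp hΛ (s := W2) hWpar (by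
      refine hW2.trans ?_
      rw [div_le_div_iff_of_pos_right (by positivity)]
      exact mul_le_mul_of_nonneg_right (by norm_num) (by positivity)) σ3 hc3
  -- products
  set P0' : (X ⊕ X → Bool) → ℝ := psh σ1 P0 with hP0'
  have hP0'0 : ∀ a, 0 ≤ P0' a := psh_nn σ1 hP0
  have hP0'1 : ∑ a, P0' a = 1 := psh_one σ1 hP01
  set F1 : (Iu u → Bool) → (X ⊕ X → Bool) := fun z i => z (.inl i) with hF1
  set F2 : (Iu u → Bool) → (Y → Bool) := fun z i => z (.inr (.inl i)) with hF2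
  set F3 : (Iu u → Bool) → (Z → Bool) := fun z i => z (.inr (.inr i)) with hF3
  have hdec : ∀ (G : (Iu u → Bool) → ℝ),
      ∑ z, P0' (F1 z) * (PW (F1 z) (F2 z) * P2 (F3 z)) * G z =
      ∑ a, ∑ b, ∑ c, P0' a * (PW a b * P2 c) * G (Sum.elim a (Sum.elim b c)) := by
    intro G
    rw [sum_fun_sum]
    refine sum_congr rfl fun a _ => ?_
    rw [sum_fun_sum]
    rfl
  have hsum1 : ∑ z, P0' (F1 z) * (PW (F1 z) (F2 z) * P2 (F3 z)) = 1 := by
    have h4 := hdec fun _ => 1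
    simp only [mul_one] at h4
    rw [h4, ← hP0'1]
    refine sum_congr rfl fun a _ => ?_
    have : ∀ b, ∑ c, P0' a * (PW a b * P2 c) = P0' a * PW a b := by
      intro b
      have e : ∀ c, P0' a * (PW a b * P2 c) = P0' a * PW a b * P2 c := fun c => by ring
      rw [sum_congr rfl fun c _ => e c, ← mul_sum, hP21, mul_one]
    rw [sum_congr rfl fun b _ => this b, ← mul_sum, hPW1, mul_one]
  refine ⟨fun z => P0' (F1 z) * (PW (F1 z) (F2 z) * P2 (F3 z)),
    fun z => mul_nonneg (hP0'0 _) (mul_nonneg (hPW _ _) (hP2 _)), hsum1, fun z hz => ?_,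
    fun f β hlv hd => ?_⟩
  · have z1 : P0' (F1 z) ≠ 0 := left_ne_zero_of_mul hz
    have z2 : PW (F1 z) (F2 z) ≠ 0 := left_ne_zero_of_mul (right_ne_zero_of_mul hz)
    have z3 : P2 (F3 z) ≠ 0 := right_ne_zero_of_mul (right_ne_zero_of_mul hz)
    obtain ⟨a, ha, ha'⟩ := psh_supp σ1 z1
    have hbound : |((2 * (w - Sf (F1 z)) : ℤ) : ℝ)| ≤ bd := by
      have h1 := hP0s a ha
      have h2 := hLIP (8 * u * 2) (2 ^ (3 * u)) σ1 a hc1
      rw [ha'] at h2
      have h3 : Real.sqrt (((2 ^ (3 * u) : ℕ) : ℝ) / 2 ^ (8 * u * 2)) ≤ 1 / 2 ^ (6 * u) := by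
        refine Real.sqrt_le_iff.2 ⟨by positivity, ?_⟩
        push_cast
        rw [div_pow, one_pow, div_le_div_iff₀ (by positivity) (by positivity), one_mul,
          ← pow_mul, ← pow_add]
        exact pow_le_pow_right₀ (by norm_num) (by omega)
      have h4 : (2 : ℝ) ^ (24 * u) * |Fo (Hm (8 * u * 2)) (F1 z) - Fo (Hm (8 * u * 2)) a| ≤
          2 ^ (20 * u) / 8 := by
        have e1 : (2 : ℝ) ^ (24 * u) * (4 * (1 / 2 ^ (6 * u))) = 4 * 2 ^ (18 * u) := by
          have : (2 : ℝ) ^ (24 * u) = 2 ^ (18 * u) * 2 ^ (6 * u) := by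
            rw [← pow_add]; congr 1; ring
          rw [this]
          field_simp
        have e2 : (32 : ℝ) * 2 ^ (18 * u) ≤ 2 ^ (20 * u) := by
          have e3 : (2 : ℝ) ^ (20 * u) = 2 ^ (2 * u) * 2 ^ (18 * u) := by
            rw [← pow_add]; congr 1; ring
          rw [e3]
          have e4 : (2 : ℝ) ^ 5 ≤ 2 ^ (2 * u) := pow_le_pow_right₀ (by norm_num) (by omega)
          refine mul_le_mul_of_nonneg_right ?_ (by positivity)
          linarith
        calc (2 : ℝ) ^ (24 * u) * |Fo (Hm (8 * u * 2)) (F1 z) - Fo (Hm (8 * u * 2)) a| ≤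
            2 ^ (24 * u) * (4 * (1 / 2 ^ (6 * u))) :=
              mul_le_mul_of_nonneg_left (h2.trans (by linarith)) h24.le
          _ = 4 * 2 ^ (18 * u) := e1
          _ ≤ 2 ^ (20 * u) / 8 := by linarith
      have h5 : ((2 * (w - Sf (F1 z)) : ℤ) : ℝ) =
          -(2 ^ (24 * u) * Fo (Hm (8 * u * 2)) a - 2 * w) -
            2 ^ (24 * u) * (Fo (Hm (8 * u * 2)) (F1 z) - Fo (Hm (8 * u * 2)) a) := by
        have h6 := hSf (F1 z)
        push_cast
        linarith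
      have h6 : |2 ^ (24 * u) * (Fo (Hm (8 * u * 2)) (F1 z) - Fo (Hm (8 * u * 2)) a)| ≤
          2 ^ (20 * u) / 8 := by
        rw [abs_mul, abs_of_pos h24]
        exact h4
      rw [h5, hbd']
      refine (abs_sub _ _).trans ?_
      rw [abs_neg]
      linarith
    have h7 := hPWs _ _ hbound z2
    have h8 := hP2s _ z3
    constructor
    · have hval : (fo z + m1 z) / 2 = w / 2 ^ (24 * u) := by
        rw [m1_eq z h7.1]
        have h2 : fo z = 2 * Sf (F1 z) / 2 ^ (24 * u) := by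
          rw [eq_div_iff h24.ne', mul_comm]
          exact hSf (F1 z)
        rw [h2]
        push_cast
        field_simp
        ring
      unfold va
      rw [hval, m2_eq z h8.1]
      exact hAm
    · intro i c hi
      rcases i with i | i | i
      · have h9 : ov σ1 a i = c := ov_agree σ1 a i c hi
        rw [ha'] at h9
        exact h9
      · exact h7.2 i c hi
      · exact h8.2 i c hi
  · set H : (X ⊕ X → Bool) → (Y → Bool) → (Z → Bool) → ℝ := fun a b c =>
      br f (Sum.elim a (Sum.elim b c)) with hH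
    set δ : ℝ := 40 * (2 * L) / 2 ^ (4 * u) + β with hδ
    set UA : (X ⊕ X → Bool) → ℝ := psh σ1 (unf (X ⊕ X)) with hUA
    set UB : (Y → Bool) → ℝ := psh σ2 (unf Y) with hUB
    set UC : (Z → Bool) → ℝ := psh σ3 (unf Z) with hUC
    have hUB0 : ∀ b, 0 ≤ UB b := psh_nn σ2 unf_nn
    have hUC0 : ∀ c, 0 ≤ UC c := psh_nn σ3 unf_nn
    have hUB1 : ∑ b, UB b = 1 := psh_one σ2 unf_one
    have hUC1 : ∑ c, UC c = 1 := psh_one σ3 unf_one
    have c1 := comb (H := H) (P0 := P0') (PW := PW) (P2 := P2) (UB := UB) (UC := UC) (δ := δ)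
      hP0'0 hP0'1 hPW hPW1 hUC0 hUC1
      (fun a c => by
        have := hPWc a (fun b => f (Sum.elim a (Sum.elim b c))) β (fun J _ _ φ hφ =>
          hd J (fun z => Sum.elim a (Sum.elim (φ z) c)) (by
            intro i
            rcases i with i | i | i
            · exact Or.inl ⟨a i, fun z => rfl⟩
            · exact hφ i
            · exact Or.inl ⟨c i, fun z => rfl⟩))
        rw [ml_rs] at this
        exact this)
      (fun a b => by
        have := hP2c (fun c => f (Sum.elim a (Sum.elim b c))) β (fun J _ _ φ hφ =>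
          hd J (fun z => Sum.elim a (Sum.elim b (φ z))) (by
            intro i
            rcases i with i | i | i
            · exact Or.inl ⟨a i, fun z => rfl⟩
            · exact Or.inl ⟨b i, fun z => rfl⟩
            · exact hφ i))
        rw [ml_rs] at this
        exact this)
    have c3 : |∑ a, ∑ b, ∑ c, P0' a * (UB b * UC c) * H a b c -
        ∑ a, ∑ b, ∑ c, UA a * (UB b * UC c) * H a b c| ≤ (L + 9) / 2 ^ (8 * u) := by
      have e1 : ∀ R : (X ⊕ X → Bool) → ℝ, ∑ a, ∑ b, ∑ c, R a * (UB b * UC c) * H a b c =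
          ∑ b, ∑ c, UB b * UC c * ∑ a, R a * H a b c := by
        intro R
        rw [sum_comm]
        refine sum_congr rfl fun b _ => ?_
        rw [sum_comm]
        refine sum_congr rfl fun c _ => ?_
        rw [mul_sum]
        exact sum_congr rfl fun a _ => by ring
      have e5 : ∑ b, ∑ c, UB b * UC c * ∑ a, P0' a * H a b c -
          ∑ b, ∑ c, UB b * UC c * ∑ a, UA a * H a b c =
          ∑ b, ∑ c, UB b * UC c * (∑ a, P0' a * H a b c - ∑ a, UA a * H a b c) := by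
        rw [← sum_sub_distrib]
        refine sum_congr rfl fun b _ => ?_
        rw [← sum_sub_distrib]
        exact sum_congr rfl fun c _ => by ring
      rw [e1, e1, e5]
      have e2 : ∀ b c, |∑ a, P0' a * H a b c - ∑ a, UA a * H a b c| ≤ (L + 9) / 2 ^ (8 * u) := by
        intro b c
        have h1 := hP0c (rs (fun a => f (Sum.elim a (Sum.elim b c))) σ1) L hL (fun ρ => by
          rw [← rs_cmp]
          exact hlv (Sum.elim b c) (cmp σ1 ρ))
        rw [ml_unif] at h1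
        rw [hP0', hUA, psh_sum σ1 P0 fun a => H a b c, psh_sum σ1 (unf (X ⊕ X)) fun a => H a b c]
        exact h1
      refine (abs_sum_le_sum_abs _ _).trans ?_
      have e3 : ∀ b, |∑ c, UB b * UC c * (∑ a, P0' a * H a b c - ∑ a, UA a * H a b c)| ≤
          UB b * ((L + 9) / 2 ^ (8 * u)) := by
        intro b
        refine (abs_sum_le_sum_abs _ _).trans ?_
        have e4 : ∀ c, |UB b * UC c * (∑ a, P0' a * H a b c - ∑ a, UA a * H a b c)| ≤
            UB b * UC c * ((L + 9) / 2 ^ (8 * u)) := by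
          intro c
          rw [abs_mul, abs_of_nonneg (mul_nonneg (hUB0 b) (hUC0 c))]
          exact mul_le_mul_of_nonneg_left (e2 b c) (mul_nonneg (hUB0 b) (hUC0 c))
        refine (sum_le_sum fun c _ => e4 c).trans (le_of_eq ?_)
        rw [← sum_mul, ← mul_sum, hUC1, mul_one]
      refine (sum_le_sum fun b _ => e3 b).trans (le_of_eq ?_)
      rw [← sum_mul, hUB1, one_mul]
    have c4 : ∑ a, ∑ b, ∑ c, UA a * (UB b * UC c) * H a b c = ml (br (rs f σ)) 0 := by
      have hsplit : ∀ G : (Iu u → Bool) → ℝ, ∑ z, G z =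
          ∑ a : X ⊕ X → Bool, ∑ b : Y → Bool, ∑ c : Z → Bool, G (Sum.elim a (Sum.elim b c)) := by
        intro G
        rw [sum_fun_sum]
        refine sum_congr rfl fun a _ => ?_
        rw [sum_fun_sum]
      rw [hUA, hUB, hUC, tri, ml_unif, hsplit]
      refine sum_congr rfl fun a _ => sum_congr rfl fun b _ => sum_congr rfl fun c _ => ?_
      have h1 : (1 / 2 ^ Fintype.card (Iu u) : ℝ) = unf (X ⊕ X) a * (unf Y b * unf Z c) := by
        unfold unf
        have h2 : Fintype.card (Iu u) = Fintype.card (X ⊕ X) + (Fintype.card Y + Fintype.card Z) := by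
          show Fintype.card ((X ⊕ X) ⊕ (Y ⊕ Z)) = _
          rw [Fintype.card_sum, Fintype.card_sum (α := Y)]
        rw [h2, pow_add, pow_add]
        field_simp
      rw [h1]
      congr 1
      rw [hH]
      show br f _ = br f (ov σ _)
      congr 1
      funext i
      rcases i with i | i | i <;> rfl
    rw [hdec (br f)]
    rw [c4] at c3
    have c1' := abs_le.1 c1
    have c3' := abs_le.1 c3
    rw [abs_le]
    constructor <;> linarith [c1'.1, c1'.2, c3'.1, c3'.2]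

end DST

open DST in
theorem t_DST (h1 : S_CNC) (h2 : S_LIP) (h3 : S_MSK) : S_DST := by
  intro t p L hp0 hp1 hL hLp s hbig b σ hσ
  have hu : 5 ≤ us s := by rw [us_eq]; omega
  have hσ' : (univ.filter fun i => σ i ≠ none).card ≤ 2 ^ (3 * us s) := by
    refine hσ.trans ?_
    unfold Db
    exact Nat.pow_le_pow_right (by norm_num) (by rw [us_eq]; omega)
  obtain ⟨P, q1, q2, q3, q4⟩ := main h1 h2 h3 hu hp0 hp1 hL hLp hbig b σ hσ'
  refine ⟨P, q1, q2, q3, fun f β hβ hf => (q4 f β hf.1 hf.2).trans ?_⟩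
  set U : ℝ := 2 ^ (4 * us s) with hU
  have hU0 : 0 < U := by positivity
  have h8 : (L + 9) / 2 ^ (8 * us s) ≤ 10 * L / U := by
    have e1 : U ≤ 2 ^ (8 * us s) := pow_le_pow_right₀ (by norm_num) (by omega)
    calc (L + 9) / 2 ^ (8 * us s) ≤ (L + 9) / U :=
          div_le_div_of_nonneg_left (by linarith) hU0 e1
      _ ≤ 10 * L / U := div_le_div_of_nonneg_right (by linarith) hU0.le
  have h9 : 2 * (40 * (2 * L) / U + β) + (L + 9) / 2 ^ (8 * us s) ≤ 222 * L / U := by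
    have e1 : 222 * L / U = 2 * (40 * (2 * L) / U) + 52 * (L / U) + 10 * L / U := by ring
    have e2 : 1 / U ≤ L / U := div_le_div_of_nonneg_right hL hU0.le
    have e3 : 0 < 1 / U := by positivity
    rw [e1]
    linarith
  refine h9.trans ?_
  unfold dl
  rw [div_le_div_iff₀ hU0 (by positivity)]
  have e3 : U = 1048576 * (2 ^ s * 8 ^ s) := by
    rw [hU]
    have : (8 : ℝ) ^ s = 2 ^ (3 * s) := by rw [pow_mul]; norm_num
    rw [this, ← pow_add, show 4 * us s = 20 + (s + 3 * s) by rw [us_eq]; ring, pow_add]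
    norm_num
  rw [e3]
  have e4 : (1 : ℝ) ≤ 2 ^ s := one_le_pow₀ (by norm_num)
  have e5 : (0 : ℝ) < 8 ^ s := by positivity
  have e6 : (8 : ℝ) ^ s ≤ 2 ^ s * 8 ^ s := le_mul_of_one_le_left e5.le e4
  calc 222 * L * 8 ^ s ≤ 222 * L * (2 ^ s * 8 ^ s) :=
        mul_le_mul_of_nonneg_left e6 (by positivity)
    _ ≤ L * (1048576 * (2 ^ s * 8 ^ s)) := by
      have : (0 : ℝ) ≤ L * (2 ^ s * 8 ^ s) := by positivity
      linarith

end Pool.Agent.K7x.XE
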