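import Pool.Agent.K7x.XE.Stm

/-!
# Project H7X: piece FIL (deterministic filling)
-/

set_option autoImplicit false

namespace Pool.Agent.K7x.XE

open Finset H568R2 Pool.Agent.H676 Pool.Agent.H620R2.Gauge Pool.Agent.NPC Pool.Agent.H591R3.PHG
  Pool.Agent.H622R2 Pool.Agent.H622R2.Exp Filter

open Pool.Agent.H9x.RT (lev lv ml Fo Hm)

open Pool.Agent.H9x.RU (Dt Kr Smp fo la Rt SZ LQ lf)

open Pool.Agent.K7x.EQ (us us_eq Iu m2e Yes No enc va LA IsEQP dl ssum)

open Pool.Agent.K7x.ER (orc Fam cJ Jx)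

theorem t_FIL (S : ℕ → Polynomial ℕ) (g : ℕ → SAlg × Polynomial ℕ) (h : ℕ → Alg × Polynomial ℕ)
    (hKER : S_KER S) (hCOR : S_COR) (hRCH : S_RCH) (hCNT : S_CNT S) (hMAC : S_MAC S g h)
    (_hQST : S_QST) : S_FIL S g h := by
  classical
  intro hK fr n n' B hInv hnn
  rcases Nat.eq_or_lt_of_le hnn with rfl | hlt
  · exact ⟨B, ⟨fun _ _ => rfl, fun _ _ _ _ => rfl, fun _ _ => rfl⟩, hInv⟩
  have hS := hK.big
  obtain ⟨K, hK1, -⟩ := hKER (t := 0) (p := 1) (L := 1) one_pos le_rfl le_rfl (by norm_num)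
  let m : Mac (Ib S) := ⟨tE S g h fr, RE S g h fr, fun c B B' hB => (hMAC.1 fr c B B' hB).2⟩
  let q : Cd → ℕ := fun c => 2 ^ Nat.sqrt (lev S c)
  have hq : ∀ c B c', (m.R c B c').card ≤ q c := fun c B c' =>
    (hMAC.2.1 fr c B c').trans (hK.card c _)
  obtain ⟨C, hCn, hCm, hCp, -⟩ := Pool.Agent.H9x.RT.exists_list hS n (n' - 1)
  let low : Finset Cd := (Pool.Agent.H9x.RT.UU S 0 n).filter (fun c => lev S c < n)
  have hlow : ∀ c : Cd, c ∈ low ↔ lev S c < n := by
    intro c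
    rw [Finset.mem_filter, Pool.Agent.H9x.RT.mem_UU hS]
    exact ⟨fun h => h.2, fun h => ⟨⟨Nat.zero_le _, h.le⟩, h⟩⟩
  let F : Frc (Ib S) := fun c' => low.biUnion (fun c => RE S g h fr c B c')
  obtain ⟨⟨B', F', hR⟩, -⟩ := hRCH Cd (Ib S) m K C B F
  obtain ⟨h1, h2, -, h4, -⟩ := hCOR Cd (Ib S) m K q hq C B F B' F' hCn hR
  have hagr : ∀ c : Cd, lev S c < n → ∀ c', ∀ i ∈ RE S g h fr c B c', B' c' i = B c' i := by
    intro c hc c' i hi
    exact h2 c' i (Finset.mem_biUnion.mpr ⟨c, (hlow c).mpr hc, hi⟩)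
  have hnot : ∀ c : Cd, lev S c < n → c ∉ C := by
    intro c hc hmem
    have := ((hCm c).mp hmem).1
    omega
  refine ⟨B', ⟨fun c hc => h1 c (hnot c hc), fun c hc => (hMAC.1 fr c B B' (hagr c hc)).1,
    fun _ _ => rfl⟩, ?_⟩
  intro c hc
  by_cases hcn : lev S c < n
  · rw [h1 c (hnot c hcn), (hMAC.1 fr c B B' (hagr c hcn)).2.1]
    exact hInv c hcn
  · have hcC : c ∈ C := (hCm c).mpr ⟨by omega, by omega⟩
    obtain ⟨-, C₁, C₂, G, v, hC, hG, hne⟩ := h4 c hcC
    refine hK1 c _ G v _ ?_ hne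
    refine hG.trans (le_trans ?_ (hCNT hS (lev S c)))
    have hF : (F c).card ≤ ∑ c' ∈ low, q c' :=
      Finset.card_biUnion_le.trans (Finset.sum_le_sum fun c' _ => hq c' B c)
    have hnd := hCn
    rw [hC, List.nodup_append] at hnd
    obtain ⟨hn1, hn2, hn3⟩ := hnd
    have hs1 : (C₁.map q).sum = ∑ c' ∈ C₁.toFinset, q c' :=
      (List.sum_toFinset q hn1).symm
    rw [hs1]
    have hcC1 : c ∉ C₁ := fun hmem => hn3 c hmem c (by simp) rfl
    have hd1 : Disjoint low C₁.toFinset := by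
      rw [Finset.disjoint_left]
      intro a ha ha'
      have h6 : a ∈ C := by
        rw [hC]
        exact List.mem_append_left _ (List.mem_toFinset.mp ha')
      exact hnot a ((hlow a).mp ha) h6
    have hd2 : Disjoint (low ∪ C₁.toFinset) {c} := by
      rw [Finset.disjoint_singleton_right, Finset.mem_union]
      rintro (ha | ha)
      · exact hcn ((hlow c).mp ha)
      · exact hcC1 (List.mem_toFinset.mp ha)
    have hsub : (low ∪ C₁.toFinset) ∪ {c} ⊆ Pool.Agent.H9x.RT.UU S 0 (lev S c) := by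
      intro a ha
      rw [Pool.Agent.H9x.RT.mem_UU hS]
      refine ⟨Nat.zero_le _, ?_⟩
      rw [Finset.mem_union, Finset.mem_union, Finset.mem_singleton] at ha
      rcases ha with (ha | ha) | rfl
      · have := (hlow a).mp ha
        omega
      · rw [hC, List.pairwise_append] at hCp
        exact hCp.2.2 a (List.mem_toFinset.mp ha) c (by simp)
      · exact le_rfl
    calc (F c).card + ∑ c' ∈ C₁.toFinset, q c' + q c
        ≤ ∑ c' ∈ low, q c' + ∑ c' ∈ C₁.toFinset, q c' + q c := by gcongr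
      _ = ∑ c' ∈ (low ∪ C₁.toFinset) ∪ {c}, q c' := by
          rw [Finset.sum_union hd2, Finset.sum_union hd1, Finset.sum_singleton]
      _ ≤ ∑ c' ∈ Pool.Agent.H9x.RT.UU S 0 (lev S c), q c' :=
          Finset.sum_le_sum_of_subset hsub
      _ = _ := rfl

end Pool.Agent.K7x.XE
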