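import Pool.Agent.K7x.XE.Stg

/-!
# Project H7X: the world
-/

set_option autoImplicit false
set_option linter.unusedSectionVars false
set_option linter.unusedVariables false

namespace Pool.Agent.K7x.XE

open Finset H568R2 Pool.Agent.H676 Pool.Agent.H620R2.Gauge Pool.Agent.NPC Pool.Agent.H591R3.PHG
  Pool.Agent.H622R2 Pool.Agent.H622R2.Exp

open Pool.Agent.H9x.RU (fo lang_sig')

open Pool.Agent.K7x.EQ (IsEQP)

theorem world_of (hQ : S_QST) (hLEV : S_LEV) (hMC : ∀ S g h, S_MAC S g h) (hC : S_COR)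
    (hR : S_RCH) (hH : S_HYB) (hK : ∀ S, S_KER S) (hCL : ∀ S g, S_CLO S g) (hCN : ∀ S, S_CNT S)
    (hN : S_NUM) (hRT : S_RTC) (hF : ∀ S g h, S_FIL S g h) (hW : ∀ S g h, S_WLD S g h)
    (hU : ∀ S g h, S_UPB S g h) (hP : S_PAD) :
    ∃ A : Oracle, (∀ L, IsEXP A L → IsEQP A L) ∧
      ∀ k : ℕ, ∃ L, IsSig A (k + 1) L ∧ ¬ IsSig A k L := by
  obtain ⟨g, hg⟩ := CC.exists_enum
  have hne : Nonempty (Alg × Polynomial ℕ) := ⟨⟨⟨fun _ => [], CC.const_polyTime _, 0⟩, 0⟩⟩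
  have hct : Countable (Polynomial ℕ) := CC.poly_countable
  obtain ⟨h, hh⟩ := exists_surjective_nat (Alg × Polynomial ℕ)
  obtain ⟨S, hke⟩ := hLEV h
  obtain ⟨B, fr, h1, h2⟩ := hW S g h hke (t_STG S g h hQ (hMC S g h) hC hR hH (hK S) (hCL S g)
    (hCN S) hN hRT (hF S g h))
  refine ⟨oE S g B fr, fun L hL => hU S g h hh hke.big B fr h1 L hL, fun k =>
    ⟨lang k (fo (oE S g B fr)), lang_sig' _ k, ?_⟩⟩
  rintro ⟨V, p, hV, hx⟩
  obtain ⟨V', ⟨M, hM⟩, hV'⟩ := hP _ k _ V p hV hx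
  obtain ⟨d, _, hd⟩ := YAux.poly_bound p
  obtain ⟨m₀, h3, h4⟩ := h2 (M, k, d)
  obtain ⟨x, h5, h6⟩ := h4 (p.eval m₀) (hd m₀)
  apply h6
  rw [hx x, h5, ← hV' x (p.eval m₀)]
  have h7 : (fun y => (M.out (oE S g B fr) y).getD []) = V' := by
    funext y
    rw [hM y]
    rfl
  show _ ↔ Quant (p.eval m₀) (fun y => (M.out (oE S g B fr) y).getD []) k true _
  rw [h7]

end Pool.Agent.K7x.XE
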