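import Pool.Agent.K7x.XE.Stm

/-!
# Project H7X, piece HYA (helper52): the last filling
-/

set_option autoImplicit false

namespace Pool.Agent.K7x.XE

open Finset

namespace HyaAux

/-- averages over the leaves -/
theorem avg_bound (hS : S_SWP) {J : Type} [Fintype J] [DecidableEq J] (R : (J → Bool) → Finset J)
    (hR : ∀ u u' : J → Bool, (∀ i ∈ R u, u' i = u i) → R u' = R u) (G : (J → Bool) → ℝ) (ε : ℝ)
    (h : ∀ u, |(∑ u', G (mixF (R u) u u')) / 2 ^ Fintype.card J| ≤ ε) :
    |(∑ u, G u) / 2 ^ Fintype.card J| ≤ ε := by
  have hp : (0 : ℝ) < 2 ^ Fintype.card J := by positivity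
  have e1 : ∑ u, G u = ∑ u, (∑ u', G (mixF (R u) u u')) / 2 ^ Fintype.card J := by
    rw [hS J R hR G, sum_div]
  rw [e1, abs_div, abs_of_pos hp, div_le_iff₀ hp]
  calc |∑ u, (∑ u', G (mixF (R u) u u')) / 2 ^ Fintype.card J|
      ≤ ∑ u, |(∑ u', G (mixF (R u) u u')) / 2 ^ Fintype.card J| := abs_sum_le_sum_abs _ _
    _ ≤ ∑ _u : J → Bool, ε := sum_le_sum fun u _ => h u
    _ = ε * 2 ^ Fintype.card J := by
        rw [sum_const, nsmul_eq_mul, card_univ, Fintype.card_fun, Fintype.card_bool]
        push_cast
        ring

theorem mix_mix {J : Type} [DecidableEq J] {F G : Finset J} (hFG : F ⊆ G) (v u u' : J → Bool) :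
    mixF F v (mixF G u u') = mixF G (mixF F v u) u' := by
  funext i
  unfold mixF
  by_cases h1 : i ∈ F
  · have h2 := hFG h1
    simp [h1, h2]
  · by_cases h2 : i ∈ G
    · simp [h1, h2]
    · simp [h1, h2]

theorem mix_mem {J : Type} [DecidableEq J] {G : Finset J} (u u' : J → Bool) {i : J} (hi : i ∈ G) :
    mixF G u u' i = u i := by
  unfold mixF
  rw [if_pos hi]

/-- contents which agree on the positions that are read -/
theorem agree {ι : Type} [DecidableEq ι] {I : ι → Type} [∀ c, Fintype (I c)]
    [∀ c, DecidableEq (I c)] (m : Mac I) (c c₁ : ι) (B : Cont I) (F : Frc I) (v : I c → Bool)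
    (u u' : I c → Bool)
    (h : ∀ i ∈ nF m (Function.update B c (mixF (F c) v u)) F c₁ c, u' i = u i) :
    m.t c₁ (Function.update B c (mixF (F c) v u')) = m.t c₁ (Function.update B c (mixF (F c) v u)) ∧
    m.R c₁ (Function.update B c (mixF (F c) v u')) = m.R c₁ (Function.update B c (mixF (F c) v u)) := by
  refine m.loc c₁ _ _ ?_
  intro c' i hi
  by_cases hcc : c' = c
  · subst hcc
    rw [Function.update_self, Function.update_self]
    have := h i (mem_union_right _ hi)
    unfold mixF
    rw [this]
  · rw [Function.update_of_ne hcc, Function.update_of_ne hcc]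

end HyaAux

open HyaAux

theorem t_HYA (hS : S_SWP) : S_HYA := by
  intro ι _ I _ _ m K q hq φ c D ε hcl C
  induction C with
  | nil =>
    intro _ B F v hD
    simp only [EV]
    refine avg_bound hS (fun u => nF m (Function.update B c (mixF (F c) v u)) F c c) ?_ _ ε ?_
    · intro u u' h
      have := agree m c c B F v u u' h
      unfold nF
      rw [this.2]
    · intro u
      obtain ⟨G, hG⟩ : ∃ G, G = nF m (Function.update B c (mixF (F c) v u)) F c c := ⟨_, rfl⟩
      rw [← hG]
      have hFG : F c ⊆ G := by rw [hG]; exact subset_union_left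
      have hGc : G.card ≤ D := by
        have h1 : G.card ≤ (F c).card + q c := by
          rw [hG]
          exact (card_union_le _ _).trans (Nat.add_le_add_left (hq c _ c) _)
        simp only [List.map_nil, List.sum_nil, add_zero] at hD
        omega
      have hkey := hcl B (m.t c (Function.update B c (mixF (F c) v u))) G (mixF (F c) v u) hGc
      have e1 : ∀ u' : I c → Bool, Dl m K c φ (Function.update B c (mixF (F c) v (mixF G u u'))) F =
          ∑ z, K.K c (m.t c (Function.update B c (mixF (F c) v u))) G (mixF (F c) v u) z *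
            φ (Function.update B c z) - φ (Function.update B c (mixF G (mixF (F c) v u) u')) := by
        intro u'
        have hag := agree m c c B F v u (mixF G u u') (by
          intro i hi
          rw [← hG] at hi
          exact mix_mem u u' hi)
        unfold Dl
        have hnF : nF m (Function.update B c (mixF (F c) v (mixF G u u'))) F c c = G := by
          have h1 : nF m (Function.update B c (mixF (F c) v (mixF G u u'))) F c c =
            F c ∪ m.R c (Function.update B c (mixF (F c) v (mixF G u u'))) c := rfl
          have h2 : G = F c ∪ m.R c (Function.update B c (mixF (F c) v u)) c := hG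
          rw [h1, hag.2, ← h2]
        rw [hag.1, hnF, Function.update_self]
        have hdep := K.dep c (m.t c (Function.update B c (mixF (F c) v u))) G
          (mixF (F c) v (mixF G u u')) (mixF (F c) v u) (by
            intro i hi
            rw [mix_mix hFG, mix_mem _ _ hi])
        rw [hdep]
        congr 1
        · refine sum_congr rfl fun z _ => ?_
          rw [Function.update_idem]
        · rw [mix_mix hFG]
      have e2 : (∑ u', Dl m K c φ (Function.update B c (mixF (F c) v (mixF G u u'))) F) /
          2 ^ Fintype.card (I c) =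
          ∑ z, K.K c (m.t c (Function.update B c (mixF (F c) v u))) G (mixF (F c) v u) z *
            φ (Function.update B c z) -
          (∑ u', φ (Function.update B c (mixF G (mixF (F c) v u) u'))) / 2 ^ Fintype.card (I c) := by
        rw [sum_congr rfl fun u' _ => e1 u', sum_sub_distrib, sum_const, nsmul_eq_mul, card_univ,
          Fintype.card_fun, Fintype.card_bool]
        have hp : (2 : ℝ) ^ Fintype.card (I c) ≠ 0 := by positivity
        push_cast
        field_simp
      rw [e2]
      exact hkey
  | cons c₁ C ih =>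
    intro hc B F v hD
    rw [List.mem_cons, not_or] at hc
    obtain ⟨hcc, hcC⟩ := hc
    rw [List.map_cons, List.sum_cons] at hD
    refine avg_bound hS (fun u => nF m (Function.update B c (mixF (F c) v u)) F c₁ c) ?_ _ ε ?_
    · intro u u' h
      have := agree m c c₁ B F v u u' h
      unfold nF
      rw [this.2]
    · intro u
      obtain ⟨F₁, hF₁⟩ : ∃ F₁, F₁ = nF m (Function.update B c (mixF (F c) v u)) F c₁ := ⟨_, rfl⟩
      rw [← hF₁]
      have hFG : F c ⊆ F₁ c := by rw [hF₁]; exact subset_union_left
      have hGc : (F₁ c).card ≤ (F c).card + q c₁ := by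
        rw [hF₁]
        exact (card_union_le _ _).trans (Nat.add_le_add_left (hq c₁ _ c) _)
      obtain ⟨b, hb⟩ : ∃ b, b = m.t c₁ (Function.update B c (mixF (F c) v u)) := ⟨_, rfl⟩
      have e1 : ∀ u' : I c → Bool, EV m K (c₁ :: C)
          (Function.update B c (mixF (F c) v (mixF (F₁ c) u u'))) F (Dl m K c φ) =
          ∑ z, K.K c₁ b (F₁ c₁) (B c₁) z *
            EV m K C (Function.update (Function.update B c₁ z) c (mixF (F₁ c) (mixF (F c) v u) u')) F₁
              (Dl m K c φ) := by
        intro u'
        have hag := agree m c c₁ B F v u (mixF (F₁ c) u u') (by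
          intro i hi
          rw [← hF₁] at hi
          exact mix_mem u u' hi)
        have hnF : nF m (Function.update B c (mixF (F c) v (mixF (F₁ c) u u'))) F c₁ = F₁ := by
          have h1 : nF m (Function.update B c (mixF (F c) v (mixF (F₁ c) u u'))) F c₁ =
            fun c' => F c' ∪ m.R c₁ (Function.update B c (mixF (F c) v (mixF (F₁ c) u u'))) c' := rfl
          have h2 : F₁ = fun c' => F c' ∪ m.R c₁ (Function.update B c (mixF (F c) v u)) c' := hF₁
          rw [h1, hag.2, ← h2]
        rw [EV, hag.1, hnF, ← hb, Function.update_of_ne (Ne.symm hcc)]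
        refine sum_congr rfl fun z _ => ?_
        rw [mix_mix hFG, Function.update_comm (Ne.symm hcc)]
      rw [sum_congr rfl fun u' _ => e1 u', sum_comm, sum_div]
      have e2 : ∀ z : I c₁ → Bool, (∑ u' : I c → Bool, K.K c₁ b (F₁ c₁) (B c₁) z *
            EV m K C (Function.update (Function.update B c₁ z) c (mixF (F₁ c) (mixF (F c) v u) u')) F₁
              (Dl m K c φ)) / 2 ^ Fintype.card (I c) = K.K c₁ b (F₁ c₁) (B c₁) z *
            ((∑ u' : I c → Bool, EV m K C (Function.update (Function.update B c₁ z) c
              (mixF (F₁ c) (mixF (F c) v u) u')) F₁ (Dl m K c φ)) / 2 ^ Fintype.card (I c)) := by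
        intro z
        rw [← mul_sum, mul_div_assoc]
      rw [sum_congr rfl fun z _ => e2 z]
      calc |∑ z : I c₁ → Bool, K.K c₁ b (F₁ c₁) (B c₁) z *
            ((∑ u' : I c → Bool, EV m K C (Function.update (Function.update B c₁ z) c
              (mixF (F₁ c) (mixF (F c) v u) u')) F₁ (Dl m K c φ)) / 2 ^ Fintype.card (I c))|
          ≤ ∑ z : I c₁ → Bool, |K.K c₁ b (F₁ c₁) (B c₁) z *
            ((∑ u' : I c → Bool, EV m K C (Function.update (Function.update B c₁ z) c
              (mixF (F₁ c) (mixF (F c) v u) u')) F₁ (Dl m K c φ)) / 2 ^ Fintype.card (I c))| :=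
            abs_sum_le_sum_abs _ _
        _ ≤ ∑ z : I c₁ → Bool, K.K c₁ b (F₁ c₁) (B c₁) z * ε := by
            refine sum_le_sum fun z _ => ?_
            rw [abs_mul, abs_of_nonneg (K.nn _ _ _ _ _)]
            refine mul_le_mul_of_nonneg_left ?_ (K.nn _ _ _ _ _)
            exact ih hcC (Function.update B c₁ z) F₁ (mixF (F c) v u) (by omega)
        _ = ε := by rw [← sum_mul, K.one, one_mul]

end Pool.Agent.K7x.XE
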