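import Pool.Agent.K7x.XE.Stm

/-!
# Project H7X, piece HYB (helper52): the hybrid argument
-/

set_option autoImplicit false

namespace Pool.Agent.K7x.XE

open Finset

namespace HybAux

section

variable {ι : Type} [DecidableEq ι] {I : ι → Type} [∀ c, Fintype (I c)] [∀ c, DecidableEq (I c)]

theorem EV_snoc (m : Mac I) (K : Ker I) (c : ι) (Ψ : Cont I → Frc I → ℝ) (C : List ι) :
    ∀ (B : Cont I) (F : Frc I), EV m K (C ++ [c]) B F Ψ = EV m K C B F (fun B' F' =>
      ∑ z : I c → Bool, K.K c (m.t c B') (nF m B' F' c c) (B' c) z *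
        Ψ (Function.update B' c z) (nF m B' F' c)) := by
  induction C with
  | nil =>
    intro B F
    simp only [List.nil_append, EV]
  | cons c₁ C ih =>
    intro B F
    rw [List.cons_append, EV, EV]
    refine sum_congr rfl fun z _ => ?_
    rw [ih]

theorem EV_sub (m : Mac I) (K : Ker I) (Ψ₁ Ψ₂ : Cont I → Frc I → ℝ) (C : List ι) :
    ∀ (B : Cont I) (F : Frc I), EV m K C B F (fun B' F' => Ψ₁ B' F' - Ψ₂ B' F') =
      EV m K C B F Ψ₁ - EV m K C B F Ψ₂ := by
  induction C with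
  | nil => intro B F; simp only [EV]
  | cons c₁ C ih =>
    intro B F
    rw [EV, EV, EV, ← sum_sub_distrib]
    refine sum_congr rfl fun z _ => ?_
    rw [ih]
    ring

theorem EV_diff (m : Mac I) (K : Ker I) (c : ι) (φ : Cont I → ℝ) (C : List ι) (B : Cont I)
    (F : Frc I) : EV m K (C ++ [c]) B F (fun B _ => φ B) = EV m K C B F (Dl m K c φ) +
      EV m K C B F (fun B _ => φ B) := by
  have h : EV m K C B F (Dl m K c φ) = EV m K (C ++ [c]) B F (fun B _ => φ B) -
      EV m K C B F (fun B _ => φ B) := by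
    rw [EV_snoc, ← EV_sub]
    rfl
  rw [h]
  ring

theorem AvL_snoc (F₀ : Frc I) (c : ι) (Ψ : Cont I → ℝ) (C : List ι) : ∀ B : Cont I,
    AvL F₀ (C ++ [c]) Ψ B = AvL F₀ C (fun B => AvL F₀ [c] Ψ B) B := by
  induction C with
  | nil => intro B; simp only [List.nil_append, AvL]
  | cons c₁ C ih =>
    intro B
    rw [List.cons_append, AvL, AvL]
    congr 1
    refine sum_congr rfl fun u _ => ?_
    rw [ih]

theorem AvL_comm (F₀ : Frc I) (c : ι) (Ψ : Cont I → ℝ) (C : List ι) (hc : c ∉ C) : ∀ B : Cont I,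
    AvL F₀ C (fun B => AvL F₀ [c] Ψ B) B = AvL F₀ [c] (fun B => AvL F₀ C Ψ B) B := by
  induction C with
  | nil => intro B; simp only [AvL]
  | cons c₁ C ih =>
    intro B
    rw [List.mem_cons, not_or] at hc
    have hne : c ≠ c₁ := hc.1
    have e1 : AvL F₀ (c₁ :: C) (fun B => AvL F₀ [c] Ψ B) B =
        (∑ u₁ : I c₁ → Bool, (∑ u : I c → Bool, AvL F₀ C Ψ (Function.update
          (Function.update B c₁ (mixF (F₀ c₁) (B c₁) u₁)) c (mixF (F₀ c) (B c) u))) /
          2 ^ Fintype.card (I c)) / 2 ^ Fintype.card (I c₁) := by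
      rw [AvL]
      congr 1
      refine sum_congr rfl fun u₁ _ => ?_
      rw [ih hc.2]
      simp only [AvL]
      rw [Function.update_of_ne hne]
    have e2 : AvL F₀ [c] (fun B => AvL F₀ (c₁ :: C) Ψ B) B =
        (∑ u : I c → Bool, (∑ u₁ : I c₁ → Bool, AvL F₀ C Ψ (Function.update
          (Function.update B c₁ (mixF (F₀ c₁) (B c₁) u₁)) c (mixF (F₀ c) (B c) u))) /
          2 ^ Fintype.card (I c₁)) / 2 ^ Fintype.card (I c) := by
      simp only [AvL]
      congr 1
      refine sum_congr rfl fun u _ => ?_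
      congr 1
      refine sum_congr rfl fun u₁ _ => ?_
      rw [Function.update_of_ne (Ne.symm hne), Function.update_comm hne]
    rw [e1, e2, ← sum_div, ← sum_div, sum_comm, div_div, div_div, mul_comm]

theorem AvL_sub (F₀ : Frc I) (Ψ₁ Ψ₂ : Cont I → ℝ) (C : List ι) : ∀ B : Cont I,
    AvL F₀ C (fun B => Ψ₁ B - Ψ₂ B) B = AvL F₀ C Ψ₁ B - AvL F₀ C Ψ₂ B := by
  induction C with
  | nil => intro B; simp only [AvL]
  | cons c₁ C ih =>
    intro B
    rw [AvL, AvL, AvL, ← sub_div, ← sum_sub_distrib]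
    congr 1
    exact sum_congr rfl fun u _ => ih _

theorem AvL_add (F₀ : Frc I) (Ψ₁ Ψ₂ : Cont I → ℝ) (C : List ι) : ∀ B : Cont I,
    AvL F₀ C (fun B => Ψ₁ B + Ψ₂ B) B = AvL F₀ C Ψ₁ B + AvL F₀ C Ψ₂ B := by
  induction C with
  | nil => intro B; simp only [AvL]
  | cons c₁ C ih =>
    intro B
    rw [AvL, AvL, AvL, ← add_div, ← sum_add_distrib]
    congr 1
    exact sum_congr rfl fun u _ => ih _

theorem AvL_abs (F₀ : Frc I) (Ψ : Cont I → ℝ) (ε : ℝ) (h : ∀ B, |Ψ B| ≤ ε) (C : List ι) :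
    ∀ B : Cont I, |AvL F₀ C Ψ B| ≤ ε := by
  induction C with
  | nil => intro B; simp only [AvL]; exact h B
  | cons c₁ C ih =>
    intro B
    have hp : (0 : ℝ) < 2 ^ Fintype.card (I c₁) := by positivity
    rw [AvL, abs_div, abs_of_pos hp, div_le_iff₀ hp]
    calc |∑ u : I c₁ → Bool, AvL F₀ C Ψ (Function.update B c₁ (mixF (F₀ c₁) (B c₁) u))|
        ≤ ∑ u : I c₁ → Bool, |AvL F₀ C Ψ (Function.update B c₁ (mixF (F₀ c₁) (B c₁) u))| :=
          abs_sum_le_sum_abs _ _
      _ ≤ ∑ _u : I c₁ → Bool, ε := sum_le_sum fun u _ => ih _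
      _ = ε * 2 ^ Fintype.card (I c₁) := by
          rw [sum_const, nsmul_eq_mul, card_univ, Fintype.card_fun, Fintype.card_bool]
          push_cast
          ring

end

end HybAux

open HybAux

theorem t_HYB (hA : S_HYA) : S_HYB := by
  intro ι _ I _ _ m K q D ε hq φ C
  induction C using List.reverseRecOn with
  | nil =>
    intro _ F₀ B₀ _ _
    simp [AvL, EV]
  | append_singleton C c ih =>
    intro hC F₀ B₀ hD hcl
    have hCn : C.Nodup := (List.nodup_append.1 hC).1
    have hcC : c ∉ C := by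
      intro h
      have := (List.nodup_append.1 hC).2.2
      exact this c h c (List.mem_singleton_self c) rfl
    -- the two parts
    have e1 : AvL F₀ (C ++ [c]) (fun B => EV m K (C ++ [c]) B F₀ fun B _ => φ B) B₀ =
        AvL F₀ (C ++ [c]) (fun B => EV m K C B F₀ (Dl m K c φ)) B₀ +
        AvL F₀ (C ++ [c]) (fun B => EV m K C B F₀ fun B _ => φ B) B₀ := by
      rw [← AvL_add]
      congr 1
      funext B
      exact EV_diff m K c φ C B F₀
    have b1 : |AvL F₀ (C ++ [c]) (fun B => EV m K C B F₀ (Dl m K c φ)) B₀| ≤ ε c := by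
      rw [AvL_snoc]
      refine AvL_abs F₀ _ _ (fun B => ?_) C B₀
      have h := hA ι I m K q hq φ c (D c) (ε c)
        (hcl c (List.mem_append_right _ (List.mem_singleton_self c))) C hcC B F₀ (B c)
        (hD C c [] rfl)
      exact h
    have b2 : |AvL F₀ (C ++ [c]) (fun B => EV m K C B F₀ fun B _ => φ B) B₀ -
        AvL F₀ (C ++ [c]) φ B₀| ≤ (C.map ε).sum := by
      rw [AvL_snoc, AvL_snoc, AvL_comm F₀ c _ C hcC, AvL_comm F₀ c _ C hcC, ← AvL_sub]
      refine AvL_abs F₀ _ _ (fun B => ?_) [c] B₀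
      refine ih hCn F₀ B ?_ ?_
      · intro C₁ c' C₂ h
        refine hD C₁ c' (C₂ ++ [c]) ?_
        rw [h]
        simp
      · intro c' hc'
        exact hcl c' (List.mem_append_left _ hc')
    rw [e1, List.map_append, List.sum_append, List.map_singleton, List.sum_singleton]
    have e2 : AvL F₀ (C ++ [c]) (fun B => EV m K C B F₀ (Dl m K c φ)) B₀ +
        AvL F₀ (C ++ [c]) (fun B => EV m K C B F₀ fun B _ => φ B) B₀ - AvL F₀ (C ++ [c]) φ B₀ =
        (AvL F₀ (C ++ [c]) (fun B => EV m K C B F₀ fun B _ => φ B) B₀ - AvL F₀ (C ++ [c]) φ B₀) +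
        AvL F₀ (C ++ [c]) (fun B => EV m K C B F₀ (Dl m K c φ)) B₀ := by ring
    rw [e2]
    exact (abs_add_le _ _).trans (add_le_add b2 b1)

end Pool.Agent.K7x.XE
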