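import Pool.Agent.K7x.XE.Stm

/-!
# Project H7X, piece KER (helper33): the kernels
-/

set_option autoImplicit false
set_option linter.unusedSectionVars false
set_option linter.unusedVariables false

namespace Pool.Agent.K7x.XE

open Finset H568R2 Pool.Agent.H676 Pool.Agent.H620R2.Gauge Pool.Agent.NPC Pool.Agent.H591R3.PHG
  Pool.Agent.H622R2 Pool.Agent.H622R2.Exp Filter

open Pool.Agent.H9x.RT (lev lv ml Fo Hm)

open Pool.Agent.K7x.EQ (us us_eq Iu m2e Yes No enc va LA IsEQP dl ssum)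

namespace KerP

/-- the restriction -/
def sg (J : Type) [DecidableEq J] (F : Finset J) (w : J → Bool) : Restr J :=
  fun i => if i ∈ F then some (w i) else none

theorem ov_sg {J : Type} [DecidableEq J] (F : Finset J) (w u : J → Bool) :
    ov (sg J F w) u = mixF F w u := by
  ext1 i
  unfold ov sg mixF
  by_cases h : i ∈ F <;> simp [h]

theorem card_sg {J : Type} [Fintype J] [DecidableEq J] (F : Finset J) (w : J → Bool) :
    (univ.filter fun i => sg J F w i ≠ none).card = F.card := by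
  congr 1
  ext i
  simp [sg]

theorem mix_mix {J : Type} [DecidableEq J] (F : Finset J) (v u u' : J → Bool) :
    mixF F (mixF F v u') u = mixF F v u := by
  ext1 i
  unfold mixF
  by_cases h : i ∈ F <;> simp [h]

theorem ex (h : S_DST) {t : ℕ} {p L : ℝ} (hp0 : 0 < p) (hp1 : p ≤ 1) (hL : 1 ≤ L)
    (hLp : (1 + (t : ℝ)) ^ 2 ≤ 2 * L * p) (s : ℕ) (b : Bool) (F : Finset (Iu (us s)))
    (w : Iu (us s) → Bool) :
    ∃ P : (Iu (us s) → Bool) → ℝ, (∀ z, 0 ≤ P z) ∧ ∑ z, P z = 1 ∧
      (∀ z, P z ≠ 0 → ∀ i ∈ F, z i = w i) ∧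
      (F.card ≤ Db s → ∀ z, P z ≠ 0 → va (us s) z = if b then 1 else 0) ∧
      (F.card ≤ Db s → 32 * L ≤ 2 ^ (4 * us s) →
        ∀ (f : (Iu (us s) → Bool) → Bool) (β : ℝ), β ≤ 1 / 2 ^ (4 * us s) → Cl t p L β s f →
          |∑ z, P z * br f z - (∑ u, br f (mixF F w u)) / 2 ^ Fintype.card (Iu (us s))| ≤ dl s L) := by
  have hml : ∀ f : (Iu (us s) → Bool) → Bool, ml (br (rs f (sg _ F w))) 0 =
      (∑ u, br f (mixF F w u)) / 2 ^ Fintype.card (Iu (us s)) := by
    intro f
    rw [Pool.Agent.H9x.RT.ml_zero]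
    congr 1
    refine sum_congr rfl fun u _ => ?_
    unfold br rs
    rw [ov_sg]
  by_cases hF : F.card ≤ Db s
  · by_cases hb : 32 * L ≤ 2 ^ (4 * us s)
    · obtain ⟨P, h1, h2, h3, h4⟩ := h hp0 hp1 hL hLp s hb b (sg _ F w) (by rw [card_sg]; exact hF)
      refine ⟨P, h1, h2, fun z hz i hi => (h3 z hz).2 i (w i) (by simp [sg, hi]),
        fun _ z hz => (h3 z hz).1, fun _ _ f β hβ hc => ?_⟩
      rw [← hml]
      exact h4 f β hβ hc
    · have hbig : (32 : ℝ) * 1 ≤ 2 ^ (4 * us s) := by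
        have h5 : 5 ≤ 4 * us s := by rw [us_eq]; omega
        calc (32 : ℝ) * 1 = 2 ^ 5 := by norm_num
          _ ≤ 2 ^ (4 * us s) := pow_le_pow_right₀ (by norm_num) h5
      obtain ⟨P, h1, h2, h3, h4⟩ := h (t := 0) (p := 1) (L := 1) one_pos le_rfl le_rfl
        (by norm_num) s hbig b (sg _ F w) (by rw [card_sg]; exact hF)
      exact ⟨P, h1, h2, fun z hz i hi => (h3 z hz).2 i (w i) (by simp [sg, hi]),
        fun _ z hz => (h3 z hz).1, fun _ hb' => absurd hb' hb⟩
  · refine ⟨fun z => if z = w then 1 else 0, fun z => by simp only []; split_ifs <;> norm_num, by simp,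
      fun z hz i _ => ?_, fun h' => absurd h' hF, fun h' => absurd h' hF⟩
    have : z = w := by
      by_contra hne
      exact hz (if_neg hne)
    rw [this]

end KerP

theorem t_KER (S : ℕ → Polynomial ℕ) (h : S_DST) : S_KER S := by
  intro t p L hp0 hp1 hL hLp
  choose P h1 h2 h3 h4 h5 using fun (s : ℕ) => KerP.ex h hp0 hp1 hL hLp s
  refine ⟨⟨fun c b F v => P (lev S c) b F (mixF F v fun _ => false),
    fun c b F v z => h1 _ _ _ _ z, fun c b F v => h2 _ _ _ _, fun c b F v z hz i hi => ?_,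
    fun c b F v v' hv => ?_⟩, fun c b F v z hF hz => h4 _ _ _ _ hF z hz,
    fun c b F v hF hb f β hβ hc => ?_⟩
  · rw [h3 _ _ _ _ z hz i hi]
    simp [mixF, hi]
  · have : mixF F v (fun _ => false) = mixF F v' (fun _ => false) := by
      ext1 i
      unfold mixF
      by_cases hi : i ∈ F
      · simp [hi, hv i hi]
      · simp [hi]
    simp only [this]
  · have := h5 _ b F (mixF F v fun _ => false) hF hb f β hβ hc
    simpa only [KerP.mix_mix] using this

end Pool.Agent.K7x.XE
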