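import Pool.Agent.K7x.XE.Stm

/-!
# Project H7X, piece LEV: the levels exist
-/

set_option autoImplicit false

namespace Pool.Agent.K7x.XE

open Finset H568R2 Pool.Agent.H676 Pool.Agent.H620R2.Gauge Pool.Agent.NPC Pool.Agent.H591R3.PHG
  Pool.Agent.H622R2 Pool.Agent.H622R2.Exp Filter

open Pool.Agent.H9x.RT (lev lv ml Fo Hm)

theorem t_LEV (hQ : S_QST) : S_LEV := by
  intro h
  obtain ⟨-, h2, h3⟩ := hQ
  have h4 : ∀ e : ℕ, ∃ d : ℕ, ∀ (x : List Bool),
      (h e).1.p.eval x.length ≤ (x.length + 2) ^ d ∧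
      ∀ (A : Oracle), ∀ q ∈ qsR (h e).1 A x ((h e).1.p.eval x.length) [],
        q.length ≤ (x.length + 2) ^ d := by
    intro e
    obtain ⟨b, hb⟩ := h3 (h e).1
    obtain ⟨d, _, hd⟩ := YAux.poly_bound (b + (h e).1.p)
    refine ⟨d, fun x => ?_⟩
    have h5 := hd x.length
    rw [Polynomial.eval_add] at h5
    exact ⟨by omega, fun A q hq => (hb A x q hq).trans (by omega)⟩
  choose d hd using h4
  refine ⟨fun e => (Polynomial.C (d e) * ((h e).2 + Polynomial.X + Polynomial.C 3)) ^ 2 +
    Polynomial.X + Polynomial.C (e + 1), ?_⟩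
  have hev : ∀ (e n : ℕ), ((Polynomial.C (d e) * ((h e).2 + Polynomial.X + Polynomial.C 3)) ^ 2 +
      Polynomial.X + Polynomial.C (e + 1)).eval n =
      (d e * ((h e).2.eval n + n + 3)) ^ 2 + n + (e + 1) := by
    intro e n
    simp only [Polynomial.eval_add, Polynomial.eval_mul, Polynomial.eval_pow, Polynomial.eval_C,
      Polynomial.eval_X]
  have hkey : ∀ c : Cd, ((yE h c).length + 2) ^ d c.1 ≤
      2 ^ Nat.sqrt (lev (fun e => (Polynomial.C (d e) * ((h e).2 + Polynomial.X +
        Polynomial.C 3)) ^ 2 + Polynomial.X + Polynomial.C (e + 1)) c) := by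
    intro c
    have h5 : (yE h c).length + 2 ≤ 2 ^ ((h c.1).2.eval c.2.length + c.2.length + 3) := by
      unfold yE
      rw [length_pairBits, List.length_replicate]
      have h6 : c.2.length < 2 ^ c.2.length := Nat.lt_two_pow_self
      have h7 : 1 ≤ 2 ^ ((h c.1).2.eval c.2.length) := Nat.one_le_two_pow
      have h8 : 2 ^ ((h c.1).2.eval c.2.length + c.2.length + 3) =
        8 * (2 ^ ((h c.1).2.eval c.2.length) * 2 ^ c.2.length) := by
        rw [pow_add, pow_add]
        ring
      rw [h8]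
      have h9 : 2 ^ ((h c.1).2.eval c.2.length) ≤
          2 ^ ((h c.1).2.eval c.2.length) * 2 ^ c.2.length :=
        Nat.le_mul_of_pos_right _ (by omega)
      have h10 : 2 ^ c.2.length ≤ 2 ^ ((h c.1).2.eval c.2.length) * 2 ^ c.2.length :=
        Nat.le_mul_of_pos_left _ h7
      omega
    have h11 : d c.1 * ((h c.1).2.eval c.2.length + c.2.length + 3) ≤
        Nat.sqrt (lev (fun e => (Polynomial.C (d e) * ((h e).2 + Polynomial.X +
        Polynomial.C 3)) ^ 2 + Polynomial.X + Polynomial.C (e + 1)) c) := by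
      rw [Nat.le_sqrt]
      unfold lev
      rw [hev, pow_two]
      omega
    calc ((yE h c).length + 2) ^ d c.1 ≤
        (2 ^ ((h c.1).2.eval c.2.length + c.2.length + 3)) ^ d c.1 := Nat.pow_le_pow_left h5 _
      _ = 2 ^ (d c.1 * ((h c.1).2.eval c.2.length + c.2.length + 3)) := by
        rw [← pow_mul, mul_comm]
      _ ≤ _ := Nat.pow_le_pow_right (by norm_num) h11
  refine ⟨?_, ?_, ?_⟩
  · intro e n
    rw [hev]
    omega
  · intro c A
    exact (h2 h c A).trans (((hd c.1 (yE h c)).1).trans (hkey c))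
  · intro c A q hq
    unfold QS at hq
    exact ((hd c.1 (yE h c)).2 A q (List.mem_toFinset.1 hq)).trans (hkey c)

end Pool.Agent.K7x.XE
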