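import Pool.Agent.K7x.XE.Stm

/-!
# Project H7X, piece LIP: the forrelation does not change much
-/

set_option autoImplicit false
set_option linter.unusedSectionVars false

namespace Pool.Agent.K7x.XE

open Finset H568R2 Pool.Agent.H676 Pool.Agent.H9x.RT

namespace Lip

variable {X : Type} [Fintype X] [DecidableEq X] {H : X → X → ℝ} {γ : ℝ}

/-- two assignments which agree on the right half -/
theorem left [Nonempty X] (hH : Orth H γ) (a a' : X ⊕ X → Bool) (hr : ∀ y, a (.inr y) = a' (.inr y))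
    (D : ℕ) (hD : (univ.filter fun x => a (.inl x) ≠ a' (.inl x)).card ≤ D) :
    |Fo H a - Fo H a'| ≤ 2 * Real.sqrt (D / Fintype.card X) := by
  have hN : (0 : ℝ) < Fintype.card X := by
    have := Fintype.card_pos (α := X)
    positivity
  set N : ℝ := (Fintype.card X : ℝ) with hNdef
  set h : X → ℝ := fun x => ∑ y, H x y * sg (a (.inr y)) with hh
  have e1 : Fo H a - Fo H a' = (∑ x, (sg (a (.inl x)) - sg (a' (.inl x))) * h x) / N := by
    rw [Fo_eq, Fo_eq, ← sub_div, ← Finset.sum_sub_distrib]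
    congr 1
    refine Finset.sum_congr rfl fun x _ => ?_
    simp only [← hr, hh]
    ring
  have e2 : (∑ x, (sg (a (.inl x)) - sg (a' (.inl x))) * h x) ^ 2 ≤
      (∑ x, (sg (a (.inl x)) - sg (a' (.inl x))) ^ 2) * ∑ x, h x ^ 2 :=
    sum_mul_sq_le_sq_mul_sq univ _ _
  have e3 : ∑ x, h x ^ 2 = N := sum_Hw hH (fun y => a (.inr y))
  have e4 : ∑ x, (sg (a (.inl x)) - sg (a' (.inl x))) ^ 2 ≤ 4 * D := by
    have e5 : ∀ x, (sg (a (.inl x)) - sg (a' (.inl x))) ^ 2 =
        if a (.inl x) ≠ a' (.inl x) then (4 : ℝ) else 0 := by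
      intro x
      cases a (.inl x) <;> cases a' (.inl x) <;> norm_num [sg]
    rw [Finset.sum_congr rfl fun x _ => e5 x, ← Finset.sum_filter, Finset.sum_const, nsmul_eq_mul]
    have : (((univ.filter fun x => a (.inl x) ≠ a' (.inl x)).card : ℕ) : ℝ) ≤ D := by
      exact_mod_cast hD
    linarith
  rw [e3] at e2
  have e6 : (∑ x, (sg (a (.inl x)) - sg (a' (.inl x))) * h x) ^ 2 ≤ 4 * D * N :=
    e2.trans (mul_le_mul_of_nonneg_right e4 hN.le)
  rw [e1, abs_div, abs_of_pos hN, div_le_iff₀ hN]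
  refine Real.abs_le_sqrt e6 |>.trans ?_
  apply le_of_eq
  have e7 : (4 * D * N : ℝ) = (2 * N) ^ 2 * (D / N) := by
    field_simp
    ring
  rw [e7, Real.sqrt_mul (by positivity), Real.sqrt_sq (by positivity)]
  ring

theorem Fo_swap (hH : Orth H γ) (a : X ⊕ X → Bool) : Fo H a = Fo H (fun z => a z.swap) := by
  unfold Fo
  congr 1
  rw [Finset.sum_comm]
  refine Finset.sum_congr rfl fun x _ => Finset.sum_congr rfl fun y _ => ?_
  simp only [Sum.swap_inl, Sum.swap_inr]
  rw [hH.sym]
  ring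

/-- two assignments which agree on the left half -/
theorem right [Nonempty X] (hH : Orth H γ) (a a' : X ⊕ X → Bool)
    (hl : ∀ y, a (.inl y) = a' (.inl y))
    (D : ℕ) (hD : (univ.filter fun x => a (.inr x) ≠ a' (.inr x)).card ≤ D) :
    |Fo H a - Fo H a'| ≤ 2 * Real.sqrt (D / Fintype.card X) := by
  rw [Fo_swap hH a, Fo_swap hH a']
  exact left hH _ _ hl D hD

end Lip

open Lip in
theorem t_LIP : S_LIP := by
  intro l D σ a hD
  set b := ov σ a with hb
  set c : (Fin l → Bool) ⊕ (Fin l → Bool) → Bool := fun z => match z with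
    | .inl x => b (.inl x)
    | .inr y => a (.inr y) with hc
  have hne : ∀ i, b i ≠ a i → σ i ≠ none := by
    intro i hi h0
    apply hi
    rw [hb]
    simp [ov, h0]
  have h1 := right (orth_Hm l) b c (fun y => rfl) D (by
    refine le_trans ?_ hD
    refine Finset.card_le_card_of_injOn (fun x => Sum.inr x) ?_ ?_
    · intro x hx
      simp only [Finset.coe_filter, Finset.mem_univ, true_and, Set.mem_setOf_eq] at hx ⊢
      exact hne _ hx
    · intro x _ y _ h
      exact Sum.inr_injective h)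
  have h2 := left (orth_Hm l) c a (fun y => rfl) D (by
    refine le_trans ?_ hD
    refine Finset.card_le_card_of_injOn (fun x => Sum.inl x) ?_ ?_
    · intro x hx
      simp only [Finset.coe_filter, Finset.mem_univ, true_and, Set.mem_setOf_eq] at hx ⊢
      exact hne _ hx
    · intro x _ y _ h
      exact Sum.inl_injective h)
  have h3 : (Fintype.card (Fin l → Bool) : ℝ) = 2 ^ l := by
    simp
  rw [h3] at h1 h2
  calc |Fo (Hm l) b - Fo (Hm l) a| = |(Fo (Hm l) b - Fo (Hm l) c) + (Fo (Hm l) c - Fo (Hm l) a)| := by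
        congr 1; ring
    _ ≤ |Fo (Hm l) b - Fo (Hm l) c| + |Fo (Hm l) c - Fo (Hm l) a| := abs_add_le _ _
    _ ≤ 4 * Real.sqrt (D / 2 ^ l) := by linarith

end Pool.Agent.K7x.XE
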