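import Pool.Agent.K7x.XE.Stm

/-!
# Project H7X, piece MAC (helper61): the machines as abstract machines
-/

set_option autoImplicit false
set_option linter.unusedSectionVars false

namespace Pool.Agent.K7x.XE

open Finset H568R2 Pool.Agent.H676 Pool.Agent.H620R2.Gauge Pool.Agent.NPC Pool.Agent.H591R3.PHG
  Pool.Agent.H622R2 Pool.Agent.H622R2.Exp Filter

open Pool.Agent.H9x.RT (lev lv ml Fo Hm)

open Pool.Agent.H9x.RU (Dt Kr Smp fo la Rt SZ LQ lf)

open Pool.Agent.K7x.EQ (us us_eq Iu m2e Yes No enc va LA IsEQP dl ssum enc_cls)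

open Pool.Agent.K7x.ER (orc Fam cJ Jx cJ_inj orc_on orc_off base)

namespace MAC

variable {S : ℕ → Polynomial ℕ} {g : ℕ → SAlg × Polynomial ℕ} {h : ℕ → Alg × Polynomial ℕ}

theorem ans (fr : List Bool → Bool) (B B' : Cont (Ib S)) (q : List Bool)
    (hB : ∀ (c' : Cd) (i : Ib S c') (w : List Bool)
      (hw : w.length = LA ((S c'.1).eval c'.2.length)), q = cJ (⟨c'.1, c'.2, w, hw⟩ : Jx S) →
      (∀ z : Ib S c' → Bool, enc (us (lev S c')) z w = z i) → B' c' i = B c' i) :
    oE S g B' fr q = oE S g B fr q := by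
  unfold oE
  by_cases hp : ∃ p : Jx S, q = cJ p
  · obtain ⟨⟨e, x, w, hw⟩, rfl⟩ := hp
    rw [orc_on, orc_on]
    show enc (us (lev S (e, x))) (B' (e, x)) w = enc (us (lev S (e, x))) (B (e, x)) w
    rcases enc_cls (us (lev S (e, x))) w with ⟨i, hi⟩ | ⟨v, hv⟩
    · rw [hi, hi]
      exact hB (e, x) i w hw rfl hi
    · rw [hv, hv]
  · push Not at hp
    rw [orc_off _ hp, orc_off _ hp]
    rcases q with _ | ⟨c₁, _ | ⟨c₂, u⟩⟩
    · rfl
    · cases c₁ <;> rfl
    · cases c₁ <;> cases c₂ <;> rfl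

theorem ans_fr (fr fr' : List Bool → Bool) (n : ℕ) (B : Cont (Ib S)) (q : List Bool)
    (hf : ∀ u : List Bool, u.length < n → fr' u = fr u) (hq : q.length < n) :
    oE S g B fr' q = oE S g B fr q := by
  unfold oE
  by_cases hp : ∃ p : Jx S, q = cJ p
  · obtain ⟨⟨e, x, w, hw⟩, rfl⟩ := hp
    rw [orc_on, orc_on]
    rfl
  · push Not at hp
    rw [orc_off _ hp, orc_off _ hp]
    rcases q with _ | ⟨c₁, u⟩
    · rfl
    · cases c₁
      · rcases u with _ | ⟨c₂, u⟩
        · rfl
        · cases c₂ <;> rfl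
      · show fr' u = fr u
        rw [List.length_cons] at hq
        exact hf u (by omega)

theorem congr (h1 : S_QST) (fr fr' : List Bool → Bool) (c : Cd) (B B' : Cont (Ib S))
    (hA : ∀ q ∈ QS h c (oE S g B fr), oE S g B' fr' q = oE S g B fr q) :
    (∀ q ∈ QS h c (oE S g B fr), oE S g B' fr' q = oE S g B fr q) ∧
    tE S g h fr' c B' = tE S g h fr c B ∧ RE S g h fr' c B' = RE S g h fr c B := by
  obtain ⟨e1, e2⟩ := h1.1 h c _ _ hA
  refine ⟨hA, ?_, ?_⟩
  · unfold tE
    rw [decide_eq_decide]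
    exact e2
  · unfold RE
    rw [e1]

end MAC

open MAC in
theorem t_MAC (S : ℕ → Polynomial ℕ) (g : ℕ → SAlg × Polynomial ℕ)
    (h : ℕ → Alg × Polynomial ℕ) (h1 : S_QST) : S_MAC S g h := by
  classical
  refine ⟨?_, ?_, ?_⟩
  · intro fr c B B' hB
    refine congr h1 fr fr c B B' fun q hq => ans fr B B' q fun c' i w hw hqc hz => ?_
    refine hB c' i ?_
    unfold RE
    rw [Finset.mem_filter]
    exact ⟨Finset.mem_univ _, q, hq, w, hw, hqc, hz⟩
  · intro fr c B c'
    refine Finset.card_le_card_of_forall_subsingleton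
      (fun (i : Ib S c') (q : List Bool) => ∃ (w : List Bool)
        (hw : w.length = LA ((S c'.1).eval c'.2.length)),
        q = cJ (⟨c'.1, c'.2, w, hw⟩ : Jx S) ∧ ∀ z : Ib S c' → Bool, enc (us (lev S c')) z w = z i)
      (fun i hi => ?_) (fun q hq => ?_)
    · unfold RE at hi
      rw [Finset.mem_filter] at hi
      exact hi.2
    · rintro i ⟨-, w, hw, hqw, hz⟩ i' ⟨-, w', hw', hqw', hz'⟩
      have e1 := cJ_inj (hqw.symm.trans hqw')
      have e2 : w = w' := congrArg Jx.w e1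
      subst e2
      have e3 := (hz fun j => decide (j = i)).symm.trans (hz' fun j => decide (j = i))
      simp only [decide_true] at e3
      exact (of_decide_eq_true e3.symm).symm
  · intro hK fr fr' n hf c B hn
    exact congr h1 fr fr' c B B fun q hq => ans_fr fr fr' n B q hf
      (lt_of_le_of_lt (hK.len c _ q hq) hn)

end Pool.Agent.K7x.XE
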