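import Pool.Agent.K7x.XE.Stm

/-!
# Piece MSK: a mask with forced bits
-/

set_option autoImplicit false
set_option linter.unusedSectionVars false
set_option linter.unusedVariables false

namespace Pool.Agent.K7x.XE

open Finset H568R2 Pool.Agent.H676 Pool.Agent.H620R2.Gauge Pool.Agent.NPC Pool.Agent.H591R3.PHG
  Pool.Agent.H622R2 Pool.Agent.H622R2.Exp Filter

open Pool.Agent.H9x.RT (lev lv ml Fo Hm ml_zero)

open Pool.Agent.K7x.EQ (us us_eq Iu m2e va dl ssum sgi fsum ssum_ov card_stars mask_dist)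

namespace MSK

variable {I : Type} [Fintype I] [DecidableEq I] (σ : Restr I)

/-- the free coordinates -/
abbrev Fr : Type := {i : I // σ i = none}

/-- extension by the fixed values -/
def ext (b : Fr σ → Bool) : I → Bool := fun i =>
  if h : σ i = none then b ⟨i, h⟩ else (σ i).getD false

/-- restriction to the free coordinates -/
def res (a : I → Bool) : Fr σ → Bool := fun j => a j.1

theorem res_ext (b : Fr σ → Bool) : res σ (ext σ b) = b := by
  funext j
  unfold res ext
  rw [dif_pos j.2]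

theorem ext_agree (b : Fr σ → Bool) (i : I) (c : Bool) (h : σ i = some c) : ext σ b i = c := by
  unfold ext
  rw [dif_neg (by rw [h]; simp), h]
  rfl

theorem ext_res {a : I → Bool} (ha : ∀ i c, σ i = some c → a i = c) : ext σ (res σ a) = a := by
  funext i
  cases h : σ i with
  | none =>
    unfold ext res
    rw [dif_pos h]
  | some c => rw [ext_agree σ _ i c h, ha i c h]

theorem ov_agree (a : I → Bool) (i : I) (c : Bool) (h : σ i = some c) : ov σ a i = c := by
  unfold ov
  rw [h]
  rfl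

theorem ov_eq (a : I → Bool) : ov σ a = ext σ (res σ a) := by
  funext i
  cases h : σ i with
  | none =>
    unfold ext res ov
    rw [dif_pos h, h]
    rfl
  | some c => rw [ext_agree σ _ i c h, ov_agree σ _ i c h]

theorem sb_ext : Sb (ext σ) := by
  intro i
  cases h : σ i with
  | none =>
    refine Or.inr ⟨⟨i, h⟩, fun z => ?_⟩
    unfold ext
    rw [dif_pos h]
  | some c => exact Or.inl ⟨c, fun z => ext_agree σ z i c h⟩

theorem ssum_ext (b : Fr σ → Bool) : ssum univ (ext σ b) = fsum σ + ssum univ b := by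
  have h1 : ov σ (ext σ b) = ext σ b := by rw [ov_eq, res_ext]
  rw [← h1, ssum_ov]
  congr 1
  unfold ssum EQ.stars
  rw [sum_subtype (univ.filter fun i => σ i = none) (p := fun i => σ i = none) (by simp)]
  refine sum_congr rfl fun j _ => ?_
  have h2 := congrFun (res_ext σ b) j
  unfold res at h2
  rw [h2]

theorem card_eq : Fintype.card (Fr σ) = (EQ.stars σ).card := by
  unfold EQ.stars
  rw [Fintype.card_subtype]

open Classical in
theorem sum_P (P : (Fr σ → Bool) → ℝ) (g : (I → Bool) → ℝ) :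
    ∑ a, (if ∀ i c, σ i = some c → a i = c then P (res σ a) else 0) * g a =
      ∑ b, P b * g (ext σ b) := by
  simp only [ite_mul, zero_mul]
  rw [← sum_filter]
  refine sum_bij' (fun a _ => res σ a) (fun b _ => ext σ b) (fun a _ => mem_univ _)
    (fun b _ => mem_filter.2 ⟨mem_univ _, ext_agree σ b⟩) (fun a ha => ext_res σ (mem_filter.1 ha).2)
    (fun b _ => res_ext σ b) (fun a ha => ?_)
  rw [ext_res σ (mem_filter.1 ha).2]

theorem avg (F : (I → Bool) → ℝ) :
    (∑ a, F (ov σ a)) / 2 ^ Fintype.card I = (∑ b, F (ext σ b)) / 2 ^ Fintype.card (Fr σ) := by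
  have e := Equiv.piEquivPiSubtypeProd (fun i => σ i = none) (fun _ : I => Bool)
  have h1 : ∑ a : I → Bool, F (ov σ a) =
      ∑ p : (Fr σ → Bool) × ({i : I // ¬ σ i = none} → Bool), F (ext σ p.1) :=
    Fintype.sum_equiv (Equiv.piEquivPiSubtypeProd (fun i => σ i = none) (fun _ : I => Bool)) _ _
      fun a => by rw [ov_eq]; rfl
  have h2 : (2 : ℝ) ^ Fintype.card I =
      2 ^ Fintype.card (Fr σ) * 2 ^ Fintype.card {i : I // ¬ σ i = none} := by
    have h3 := Fintype.card_congr
      (Equiv.piEquivPiSubtypeProd (fun i => σ i = none) (fun _ : I => Bool))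
    rw [Fintype.card_prod, Fintype.card_fun, Fintype.card_fun, Fintype.card_fun,
      Fintype.card_bool] at h3
    exact_mod_cast h3
  have h4 : ∑ p : (Fr σ → Bool) × ({i : I // ¬ σ i = none} → Bool), F (ext σ p.1) =
      2 ^ Fintype.card {i : I // ¬ σ i = none} * ∑ b, F (ext σ b) := by
    rw [Fintype.sum_prod_type, mul_sum]
    refine sum_congr rfl fun b _ => ?_
    show ∑ _y : ({i : I // ¬ σ i = none} → Bool), F (ext σ b) = _
    rw [sum_const, card_univ, Fintype.card_fun, Fintype.card_bool, nsmul_eq_mul]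
    push_cast
    rfl
  rw [h1, h4, h2]
  field_simp

theorem card_fixed : (Fintype.card I : ℤ) - (EQ.stars σ).card =
    (univ.filter fun i => σ i ≠ none).card := by
  have h1 := card_filter_add_card_filter_not (s := (univ : Finset I)) (fun i => σ i = none)
  unfold EQ.stars
  rw [card_univ] at h1
  have h2 : (univ.filter fun i => ¬ σ i = none) = univ.filter fun i => σ i ≠ none := rfl
  rw [h2] at h1
  omega

theorem abs_fsum : |fsum σ| ≤ (univ.filter fun i => σ i ≠ none).card := by
  unfold fsum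
  refine (abs_sum_le_sum_abs _ _).trans ?_
  rw [card_filter]
  push_cast
  refine sum_le_sum fun i _ => ?_
  cases h : σ i with
  | none => simp
  | some b => cases b <;> simp [sgi]

end MSK

open MSK in
open Classical in
theorem t_MSK : S_MSK := by
  intro I _ _ q u t hcard huq hu p Λ hp0 hp1 hΛp hΛ s hpar hs σ hσ
  set U : ℝ := 2 ^ (4 * u) with hU
  set M : ℝ := 2 ^ (4 * q) with hM
  have hcR : (Fintype.card I : ℝ) = M := by rw [hcard, hM]; push_cast; rfl
  have hU0 : 0 < U := by positivity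
  have hM0 : 0 < M := by positivity
  have hU20 : (1048576 : ℝ) ≤ U := by
    have h1 : (2 : ℝ) ^ 20 ≤ U := pow_le_pow_right₀ (by norm_num) (by omega)
    norm_num at h1
    exact h1
  have ht0 : (0 : ℝ) ≤ t := by positivity
  have hΛ1 : 1 ≤ Λ := by
    have h1 : (1 : ℝ) ≤ (1 + (t : ℝ)) ^ 2 := by nlinarith
    have h2 : Λ * p ≤ |Λ| * 1 :=
      (le_abs_self _).trans (by rw [abs_mul, abs_of_pos hp0]; exact mul_le_mul_of_nonneg_left hp1 (abs_nonneg _))
    have h3 : 1 ≤ |Λ| := by linarith
    rcases le_abs'.1 h3 with h4 | h4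
    · nlinarith
    · exact h4
  have hq2 : (U : ℝ) ≤ 2 ^ q := pow_le_pow_right₀ (by norm_num) huq
  have hqpos : (0 : ℝ) < 2 ^ q := by positivity
  have hq1 : (1 : ℝ) ≤ 2 ^ q := one_le_pow₀ (by norm_num)
  have hMq : M = 2 ^ (3 * q) * 2 ^ q := by rw [hM, ← pow_add]; congr 1; ring
  have hM2 : M = (2 ^ q) ^ 4 := by rw [hM, ← pow_mul]; congr 1; ring
  have ht1 : (t : ℝ) ≤ Λ * p := by nlinarith
  have htΛ : (t : ℝ) ≤ Λ := ht1.trans (mul_le_of_le_one_right (by linarith) hp1)
  have hpΛ : 1 ≤ Λ * p := by nlinarith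
  have hpU : 0 < p * U := by positivity
  -- `U` is small compared with `M / U`
  have hMU4 : U ^ 4 ≤ M := by
    rw [hM2]
    exact pow_le_pow_left₀ hU0.le hq2 4
  have hbig : 1048576 * U ≤ M / U := by
    rw [le_div_iff₀ hU0]
    refine le_trans ?_ hMU4
    have h1 : (1 : ℝ) ≤ U := by linarith
    have h2 : U * U ≤ U ^ 3 := by
      have : U ^ 3 = U * U * U := by ring
      rw [this]
      exact le_mul_of_one_le_right (by positivity) h1
    calc 1048576 * U * U = 1048576 * (U * U) := by ring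
      _ ≤ U * U ^ 3 := mul_le_mul hU20 h2 (by positivity) hU0.le
      _ = U ^ 4 := by ring
  set A : ℝ := M / U with hA
  have hA0 : 0 < A := by positivity
  have hMA : M = A * U := by rw [hA]; field_simp
  have hAM : A ≤ M := by
    rw [hMA]
    exact le_mul_of_one_le_right hA0.le (by linarith)
  have h3q : (2 : ℝ) ^ (3 * q) ≤ A := by
    rw [hA, le_div_iff₀ hU0, hMq]
    exact mul_le_mul_of_nonneg_left hq2 (by positivity)
  -- the number of the fixed coordinates
  set D : ℕ := (univ.filter fun i => σ i ≠ none).card with hD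
  have hDU : (D : ℝ) ≤ U := by
    have h1 : (D : ℝ) ≤ 2 ^ (3 * u) := by exact_mod_cast hσ
    refine h1.trans ?_
    exact pow_le_pow_right₀ (by norm_num) (by omega)
  have hJ : (Fintype.card (Fr σ) : ℝ) = M - D := by
    have h1 := card_fixed σ
    rw [card_eq, ← hcR]
    have h2 : ((Fintype.card I : ℤ) : ℝ) - (((EQ.stars σ).card : ℤ) : ℝ) = ((D : ℤ) : ℝ) := by
      rw [← Int.cast_sub, h1]
    push_cast at h2
    linarith
  set N : ℝ := (Fintype.card (Fr σ) : ℝ) with hN
  have hNM : N ≤ M := by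
    rw [hJ]
    have : (0 : ℝ) ≤ D := Nat.cast_nonneg D
    linarith
  have hN2 : M / 2 ≤ N := by rw [hJ]; linarith
  have hN0 : 0 < N := by linarith
  have hpN : 0 < p * N := by positivity
  set κ : ℝ := 16 / (p * U) with hκ
  have hκ1 : κ ≤ 1 := by
    rw [hκ, div_le_one hpU]
    calc (16 : ℝ) ≤ 16 * (Λ * p) := by linarith
      _ = p * (16 * Λ) := by ring
      _ ≤ p * U := mul_le_mul_of_nonneg_left hΛ hp0.le
  have hκ0 : 0 ≤ κ := by positivity
  have htκ : (t : ℝ) * κ ≤ 16 * Λ / U := by
    rw [hκ, mul_div_assoc', div_le_div_iff₀ hpU hU0]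
    calc (t : ℝ) * 16 * U ≤ (Λ * p) * 16 * U := by
          refine mul_le_mul_of_nonneg_right (mul_le_mul_of_nonneg_right ht1 (by norm_num)) hU0.le
      _ = 16 * Λ * (p * U) := by ring
  have hfs : |(fsum σ : ℝ)| ≤ D := by
    have h1 := abs_fsum σ
    rw [← Int.cast_abs]
    exact_mod_cast h1
  refine (fun h0 => ?_) (mask_dist (I := Fr σ) hp0 hp1 (t := t) (κ := κ) (K := 2 ^ (3 * q))
    (s := s - fsum σ) ?_ (by positivity) hκ0 hκ1 ?_ (e := 9 * Λ / U) ?_ ?_)
  · obtain ⟨P', h1, h2, h3, h4⟩ := h0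
    refine ⟨fun a => if ∀ i c, σ i = some c → a i = c then P' (res σ a) else 0, fun a => ?_, ?_,
      fun a ha => ?_, fun f β hf => ?_⟩
    · show (0 : ℝ) ≤ (if ∀ i c, σ i = some c → a i = c then P' (res σ a) else 0)
      split_ifs
      · exact h1 _
      · exact le_rfl
    · have h5 := sum_P σ P' fun _ => 1
      simp only [mul_one] at h5
      rw [h5, h2]
    · have h5 : ∀ i c, σ i = some c → a i = c := by
        by_contra hno
        exact ha (if_neg hno)
      have ha : P' (res σ a) ≠ 0 := fun h => ha ((if_pos h5).trans h)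
      refine ⟨?_, h5⟩
      have h6 := h3 _ ha
      rw [← ext_res σ h5, ssum_ext, h6]
      ring
    · rw [sum_P σ P' (br f)]
      have h5 := h4 (fun b => f (ext σ b)) β (hf (Fr σ) (ext σ) (sb_ext σ))
      have h6 : ml (br fun b => f (ext σ b)) 0 = ml (br (rs f σ)) 0 := by
        rw [ml_zero, ml_zero]
        exact (avg σ (br f)).symm
      rw [h6] at h5
      refine le_trans h5 ?_
      have h7 : (0 : ℝ) ≤ Λ / U := by positivity
      have h8 : 2 * (9 * Λ / U) + 16 * Λ / U ≤ 40 * Λ / U := by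
        have e1 : 2 * (9 * Λ / U) + 16 * Λ / U = 34 * (Λ / U) := by ring
        have e2 : 40 * Λ / U = 40 * (Λ / U) := by ring
        rw [e1, e2]
        linarith
      linarith
  · obtain ⟨r, hr⟩ := hpar
    obtain ⟨r', hr'⟩ := card_stars σ
    rw [card_eq, hr', hr]
    obtain ⟨q', rfl⟩ : ∃ q', q = q' + 1 := ⟨q - 1, by omega⟩
    have h1 : (2 : ℤ) ^ (4 * (q' + 1)) = 2 * 2 ^ (4 * (q' + 1) - 1) := by
      rw [← pow_succ']
      congr 1
    refine ⟨r - 2 ^ (4 * (q' + 1) - 1) - r', ?_⟩
    rw [hcard]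
    push_cast
    rw [h1]
    ring
  · have h1 : |((s - fsum σ : ℤ) : ℝ)| ≤ (9 / 4) * A + U := by
      push_cast
      refine (abs_sub _ _).trans ?_
      have h2 : (9 / 4) * 2 ^ (4 * q) / U = (9 / 4) * A := by rw [hA, hM]; ring
      rw [h2] at hs
      linarith
    have h2 : κ * (p * N / 2) = 8 * N / U := by
      rw [hκ]
      field_simp
      norm_num
    have h3 : 8 * N / U ≥ 8 * A - 8 := by
      have e1 : 8 * A - 8 = 8 * (M - U) / U := by
        rw [hA]
        field_simp
      rw [e1, ge_iff_le, div_le_div_iff_of_pos_right hU0]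
      rw [hJ]
      linarith
    have h4 : κ * (p * N / 2 - t) = 8 * N / U - t * κ := by
      rw [mul_sub, h2]
      ring
    have h5 : 16 * Λ / U ≤ 1 := by rw [div_le_one hU0]; exact hΛ
    rw [h4]
    linarith
  · have h1 : 4 / (p * N) ≤ 8 * Λ / U := by
      rw [div_le_div_iff₀ hpN hU0]
      have h2 : U ≤ M := by linarith
      have h3 : M ≤ 2 * N := by linarith
      calc 4 * U ≤ 4 * (2 * N) := by linarith
        _ = 8 * (1 * N) := by ring
        _ ≤ 8 * (Λ * p * N) := by
          have := mul_le_mul_of_nonneg_right hpΛ hN0.le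
          linarith
        _ = 8 * Λ * (p * N) := by ring
    have h2 : N / (2 ^ (3 * q)) ^ 2 ≤ Λ / U := by
      have h3 : ((2 : ℝ) ^ (3 * q)) ^ 2 = M * (2 ^ q * 2 ^ q) := by
        rw [hM2, ← pow_mul, ← pow_mul, ← pow_add, ← pow_add]
        congr 1
        ring
      rw [h3, div_le_div_iff₀ (by positivity) hU0]
      have h4 : U ≤ 2 ^ q * 2 ^ q := by
        have := le_mul_of_one_le_left hqpos.le hq1
        linarith
      calc N * U ≤ M * (2 ^ q * 2 ^ q) := mul_le_mul hNM h4 hU0.le hM0.le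
        _ ≤ Λ * (M * (2 ^ q * 2 ^ q)) := le_mul_of_one_le_left (by positivity) hΛ1
    have h3 : 9 * Λ / U = 8 * Λ / U + Λ / U := by ring
    rw [h3]
    linarith
  · rw [div_lt_one hU0]
    linarith

end Pool.Agent.K7x.XE
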