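import Pool.Agent.K7x.XE.Stm

/-!
# Piece NUM: the choice of the numbers
-/

set_option autoImplicit false

namespace Pool.Agent.K7x.XE

open Finset H568R2 Pool.Agent.H676 Pool.Agent.H620R2.Gauge Pool.Agent.NPC Pool.Agent.H591R3.PHG
  Pool.Agent.H622R2 Pool.Agent.H622R2.Exp

open Pool.Agent.H9x.RU (LQ LQ_le SZ exists_SZ)

lemma num_sq_le (m : ℕ) (h : 4 ≤ m) : m ^ 2 ≤ 2 ^ m := by
  induction m, h using Nat.le_induction with
  | base => norm_num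
  | succ m hm ih =>
    rw [pow_succ 2 m]
    nlinarith

theorem t_NUM : S_NUM := by
  intro M k i N₀
  obtain ⟨qb, hqb⟩ := M.out_local
  set τ : Polynomial ℕ := qb + M.p + Polynomial.X with hτ
  have hτe : ∀ n, τ.eval n = qb.eval n + M.p.eval n + n := fun n => by rw [hτ]; simp
  obtain ⟨d, _, hd⟩ := YAux.poly_bound τ
  obtain ⟨κ, hκ⟩ : ∃ κ : ℕ, κ = 200 * (k + 1) := ⟨_, rfl⟩
  obtain ⟨A, hA⟩ : ∃ A : ℕ, A = (i + 1) * (d + 1) := ⟨_, rfl⟩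
  obtain ⟨B, hB⟩ : ∃ B : ℕ, B = κ + (κ * (i + 1) + κ + 1) * (d + 1) + 2 := ⟨_, rfl⟩
  obtain ⟨C1, hC1⟩ : ∃ C1 : ℕ, C1 = A + B := ⟨_, rfl⟩
  obtain ⟨C2, hC2⟩ : ∃ C2 : ℕ, C2 = (8 + 4 * k) * C1 + 26 + 10 * k + N₀ := ⟨_, rfl⟩
  obtain ⟨ν, hν⟩ : ∃ ν : ℕ, ν = C2 + 4 := ⟨_, rfl⟩
  obtain ⟨E1, hE1⟩ : ∃ E1 : ℕ, E1 = (κ + ν) * (i + 1) + κ + 1 := ⟨_, rfl⟩
  obtain ⟨E2, hE2⟩ : ∃ E2 : ℕ, E2 = E1 * (d + 1) + 2 := ⟨_, rfl⟩
  obtain ⟨u, hu⟩ : ∃ u : ℕ, u = κ + E2 := ⟨_, rfl⟩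
  obtain ⟨n, hn⟩ : ∃ n : ℕ, n = 2 ^ ν := ⟨_, rfl⟩
  obtain ⟨nB, hnB⟩ : ∃ nB : ℕ, nB = 8 * u + 4 * u * k + 26 + 10 * k + N₀ := ⟨_, rfl⟩
  have huAB : u = A * ν + B := by
    rw [hu, hE2, hE1, hA, hB]; ring
  have hν1 : 1 ≤ ν := by omega
  have huC : u ≤ C1 * ν := by
    rw [huAB, hC1, add_mul]
    exact Nat.add_le_add_left (Nat.le_mul_of_pos_right B hν1) _
  have hnBC : nB ≤ C2 * ν := by
    have h1 : (8 + 4 * k) * u ≤ (8 + 4 * k) * (C1 * ν) := Nat.mul_le_mul_left _ huC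
    have h2 : 26 + 10 * k + N₀ ≤ (26 + 10 * k + N₀) * ν := Nat.le_mul_of_pos_right _ hν1
    calc nB = (8 + 4 * k) * u + (26 + 10 * k + N₀) := by rw [hnB]; ring
      _ ≤ (8 + 4 * k) * (C1 * ν) + (26 + 10 * k + N₀) * ν := Nat.add_le_add h1 h2
      _ = C2 * ν := by rw [hC2]; ring
  have hnBν : nB < ν ^ 2 := by
    refine lt_of_le_of_lt hnBC ?_
    rw [pow_two]
    exact Nat.mul_lt_mul_of_pos_right (by omega) (by omega)
  have hsqrt : 2 ^ Nat.sqrt nB < n := by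
    rw [hn]
    exact Nat.pow_lt_pow_right (by norm_num) (Nat.sqrt_lt'.2 hnBν)
  have hnBn : nB ≤ n := by
    rw [hn]; exact (le_of_lt hnBν).trans (num_sq_le ν (by omega))
  have h8u : 8 * u ≤ n := by omega
  have hn5 : 5 ≤ n := by omega
  obtain ⟨as, hsz⟩ := exists_SZ hn5 h8u k
  obtain ⟨m₀, hm₀⟩ : ∃ m₀ : ℕ, m₀ = 2 * as.sum + as.length + 2 * (8 * n) + 1 + (u + 11) := ⟨_, rfl⟩
  have hsum : as.sum ≤ (k + 1) * (64 * n) := by
    have h1 := List.sum_le_card_nsmul as (64 * n) hsz.2.1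
    rw [hsz.1, smul_eq_mul] at h1
    exact h1
  have hkn : k ≤ k * n := Nat.le_mul_of_pos_right k (by omega)
  have hm1 : m₀ + 2 ≤ κ * n := by
    have h1 : as.length = k + 1 := hsz.1
    have h2 : (k + 1) * (64 * n) = 64 * (k * n) + 64 * n := by ring
    have h3 : 200 * (k + 1) * n = 200 * (k * n) + 200 * n := by ring
    rw [hκ]
    omega
  have hm2 : m₀ + 2 ≤ 2 ^ (κ + ν) := by
    refine hm1.trans ?_
    rw [pow_add, hn]
    exact Nat.mul_le_mul_right _ Nat.lt_two_pow_self.le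
  obtain ⟨Pm, hPm⟩ : ∃ Pm : ℕ, Pm = 2 ^ ((κ + ν) * i) := ⟨_, rfl⟩
  have hPm1 : 1 ≤ Pm := by rw [hPm]; exact Nat.one_le_two_pow
  obtain ⟨Λ, hΛ⟩ : ∃ Λ : ℕ, Λ = (k + 1) * (2 * Pm + 1) + m₀ := ⟨_, rfl⟩
  have hκ2 : κ < 2 ^ κ := Nat.lt_two_pow_self
  have hΛ2 : Λ + 2 ≤ 2 ^ E1 := by
    have h1 : (k + 1) * (2 * Pm + 1) ≤ 2 ^ (E1 - 1) := by
      calc (k + 1) * (2 * Pm + 1) ≤ (k + 1) * (3 * Pm) := Nat.mul_le_mul_left _ (by omega)
        _ = 3 * (k + 1) * Pm := by ring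
        _ ≤ 2 ^ κ * Pm := Nat.mul_le_mul_right _ (by omega)
        _ = 2 ^ (κ + (κ + ν) * i) := by rw [hPm, ← pow_add]
        _ ≤ 2 ^ (E1 - 1) := by
          refine Nat.pow_le_pow_right (by norm_num) ?_
          have : (κ + ν) * (i + 1) = (κ + ν) * i + (κ + ν) := by ring
          omega
    have h2 : m₀ + 2 ≤ 2 ^ (E1 - 1) := by
      refine hm2.trans (Nat.pow_le_pow_right (by norm_num) ?_)
      have : (κ + ν) * (i + 1) = (κ + ν) * i + (κ + ν) := by ring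
      omega
    have h3 : 2 ^ E1 = 2 ^ (E1 - 1) * 2 := by
      rw [← pow_succ]; congr 1; omega
    omega
  obtain ⟨T, hT⟩ : ∃ T : ℕ, T = τ.eval Λ + (m₀ + as.sum + 8 * n + 2) := ⟨_, rfl⟩
  have hsm : as.sum ≤ m₀ := by omega
  have hT2 : T ≤ 2 ^ E2 := by
    have h1 : τ.eval Λ ≤ 2 ^ (E2 - 1) := by
      refine (hd Λ).trans ((Nat.pow_le_pow_left hΛ2 d).trans ?_)
      rw [← pow_mul]
      refine Nat.pow_le_pow_right (by norm_num) ?_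
      have : E1 * (d + 1) = E1 * d + E1 := by ring
      omega
    have h2 : m₀ + as.sum + 8 * n + 2 ≤ 2 ^ (E2 - 1) := by
      calc m₀ + as.sum + 8 * n + 2 ≤ (m₀ + 2) * 2 ^ 2 := by omega
        _ ≤ 2 ^ (κ + ν) * 2 ^ 2 := Nat.mul_le_mul_right _ hm2
        _ = 2 ^ (κ + ν + 2) := by rw [← pow_add]
        _ ≤ 2 ^ (E2 - 1) := by
          refine Nat.pow_le_pow_right (by norm_num) ?_
          have e1 : (κ + ν) * (i + 1) = (κ + ν) * i + (κ + ν) := by ring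
          have e2 : E1 * (d + 1) = E1 * d + E1 := by ring
          omega
    have h3 : 2 ^ E2 = 2 ^ (E2 - 1) * 2 := by
      rw [← pow_succ]; congr 1; omega
    omega
  have hΛT : Λ ≤ T := by rw [hT, hτe]; omega
  have h17 : 33 * T + 164 + k ≤ 2 ^ (2 * u) := by
    have h1 : 1 ≤ 2 ^ E2 := Nat.one_le_two_pow
    have h3 : k ≤ k * 2 ^ E2 := Nat.le_mul_of_pos_right k h1
    calc 33 * T + 164 + k ≤ 197 * 2 ^ E2 + k * 2 ^ E2 := by omega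
      _ = (197 + k) * 2 ^ E2 := by ring
      _ ≤ 2 ^ κ * 2 ^ E2 := Nat.mul_le_mul_right _ (by omega)
      _ = 2 ^ (κ + E2) := by rw [← pow_add]
      _ ≤ 2 ^ (2 * u) := Nat.pow_le_pow_right (by norm_num) (by omega)
  have hPe : (κ + ν) * i + 1 ≤ u := by
    have e1 : (κ + ν) * (i + 1) = (κ + ν) * i + (κ + ν) := by ring
    have e2 : E1 * (d + 1) = E1 * d + E1 := by ring
    omega
  refine ⟨nB, n, u, T, Pm, Λ, m₀, as, by omega, hnBn, hsqrt, hn5, h8u, hsz, fun j => ?_, by omega,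
    hΛ.ge, fun y hy => ?_, fun A y hy => ?_, hΛT, by omega, h17, ?_, ?_⟩
  · rw [enc_len, length_bitsOf, hm₀]
  · refine (eval_mono M.p hy).trans ?_
    rw [hT, hτe]
    omega
  · obtain ⟨Q, _, h6, h7⟩ := hqb A y
    refine h7 _ fun q hq => ?_
    unfold CC.cut
    rw [if_pos]
    have h8 := h6 q hq
    have h9 := eval_mono qb hy
    rw [hT, hτe]
    omega
  · have hP1 : Pm + 1 ≤ 2 ^ ((κ + ν) * i + 1) := by
      rw [hPm, pow_succ]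
      have : 1 ≤ 2 ^ ((κ + ν) * i) := Nat.one_le_two_pow
      omega
    have hPu : Pm + 1 ≤ 2 ^ u := hP1.trans (Nat.pow_le_pow_right (by norm_num) hPe)
    have hPlt : (κ + ν) * i < Pm := by rw [hPm]; exact Nat.lt_two_pow_self
    have hPΛ : Pm ≤ Λ := by
      have : 2 * Pm + 1 ≤ (k + 1) * (2 * Pm + 1) := Nat.le_mul_of_pos_left _ (by omega)
      omega
    have hA : (Pm + 1) * (k * 2 ^ (Λ + 2)) * 4 ≤ 2 ^ (2 ^ (2 * u) + 1) := by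
      have h1 : k ≤ 2 ^ k := Nat.lt_two_pow_self.le
      calc (Pm + 1) * (k * 2 ^ (Λ + 2)) * 4 ≤ 2 ^ ((κ + ν) * i + 1) * (2 ^ k * 2 ^ (Λ + 2)) * 2 ^ 2 :=
            Nat.mul_le_mul (Nat.mul_le_mul hP1 (Nat.mul_le_mul_right _ h1)) (by norm_num)
        _ = 2 ^ ((κ + ν) * i + 1 + (k + (Λ + 2)) + 2) := by rw [← pow_add, ← pow_add, ← pow_add]
        _ ≤ 2 ^ (2 ^ (2 * u) + 1) := by
          refine Nat.pow_le_pow_right (by norm_num) ?_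
          omega
    have hB : (Pm + 1) * 3 * 4 ≤ 2 ^ 2 ^ u := by
      have h1 : u < 2 ^ u := Nat.lt_two_pow_self
      have hPe' : (κ + ν) * i + 1 + 2 + 2 ≤ u := by
        have e1 : (κ + ν) * (i + 1) = (κ + ν) * i + (κ + ν) := by ring
        have e2 : E1 * (d + 1) = E1 * d + E1 := by ring
        omega
      calc (Pm + 1) * 3 * 4 ≤ 2 ^ ((κ + ν) * i + 1) * 2 ^ 2 * 2 ^ 2 :=
            Nat.mul_le_mul (Nat.mul_le_mul hP1 (by norm_num)) (by norm_num)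
        _ = 2 ^ ((κ + ν) * i + 1 + 2 + 2) := by rw [← pow_add, ← pow_add]
        _ ≤ 2 ^ 2 ^ u := Nat.pow_le_pow_right (by norm_num) (by omega)
    have hC : (Pm + 1) * ((T + 1) * (2 * LQ u k)) * 4 ≤ 2 ^ nB := by
      have h1 : T + 1 ≤ 2 ^ (E2 + 1) := by
        rw [pow_succ]
        have : 1 ≤ 2 ^ E2 := Nat.one_le_two_pow
        omega
      calc (Pm + 1) * ((T + 1) * (2 * LQ u k)) * 4 ≤ 2 ^ u * (2 ^ (E2 + 1) *
            (2 ^ 1 * 2 ^ (6 * u + 23 + 10 * k + 4 * u * k))) * 2 ^ 2 :=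
            Nat.mul_le_mul (Nat.mul_le_mul hPu (Nat.mul_le_mul h1
              (Nat.mul_le_mul (by norm_num) (LQ_le u k)))) (by norm_num)
        _ = 2 ^ (u + (E2 + 1 + (1 + (6 * u + 23 + 10 * k + 4 * u * k))) + 2) := by
            rw [← pow_add, ← pow_add, ← pow_add, ← pow_add]
        _ ≤ 2 ^ nB := by
          refine Nat.pow_le_pow_right (by norm_num) ?_
          omega
    have hAR : ((Pm : ℝ) + 1) * (k * (2 ^ (Λ + 2) * (1 / 2) ^ (2 ^ (2 * u) + 1))) ≤ 1 / 4 := by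
      have h1 : ((Pm : ℝ) + 1) * (k * 2 ^ (Λ + 2)) * 4 ≤ 2 ^ (2 ^ (2 * u) + 1) := by
        exact_mod_cast hA
      have h2 : (0 : ℝ) < 2 ^ (2 ^ (2 * u) + 1) := by positivity
      rw [one_div_pow]
      have h3 : ((Pm : ℝ) + 1) * (k * (2 ^ (Λ + 2) * (1 / 2 ^ (2 ^ (2 * u) + 1)))) =
          ((Pm : ℝ) + 1) * (k * 2 ^ (Λ + 2)) / 2 ^ (2 ^ (2 * u) + 1) := by ring
      rw [h3, div_le_iff₀ h2]
      linarith
    have hBR : ((Pm : ℝ) + 1) * (3 * (1 / 2) ^ (2 ^ u)) ≤ 1 / 4 := by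
      have h1 : ((Pm : ℝ) + 1) * 3 * 4 ≤ 2 ^ (2 ^ u) := by exact_mod_cast hB
      have h2 : (0 : ℝ) < 2 ^ (2 ^ u) := by positivity
      rw [one_div_pow]
      have h3 : ((Pm : ℝ) + 1) * (3 * (1 / 2 ^ (2 ^ u))) = ((Pm : ℝ) + 1) * 3 / 2 ^ (2 ^ u) := by
        ring
      rw [h3, div_le_iff₀ h2]
      linarith
    have hCR : ((Pm : ℝ) + 1) * ((T + 1) * (2 * (LQ u k : ℝ) / 2 ^ nB)) ≤ 1 / 4 := by
      have h1 : ((Pm : ℝ) + 1) * ((T + 1) * (2 * (LQ u k : ℝ))) * 4 ≤ 2 ^ nB := by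
        exact_mod_cast hC
      have h2 : (0 : ℝ) < 2 ^ nB := by positivity
      have h3 : ((Pm : ℝ) + 1) * ((T + 1) * (2 * (LQ u k : ℝ) / 2 ^ nB)) =
          ((Pm : ℝ) + 1) * ((T + 1) * (2 * (LQ u k : ℝ))) / 2 ^ nB := by ring
      rw [h3, div_le_iff₀ h2]
      linarith
    rw [mul_add]
    linarith
  · calc (m₀ + 2) ^ i ≤ (2 ^ (κ + ν)) ^ i := Nat.pow_le_pow_left hm2 i
      _ = Pm := by rw [hPm, ← pow_mul]

end Pool.Agent.K7x.XE
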