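import Pool.Agent.K7x.XE.Stm

/-!
# Piece PAD: from the padded form to the usual one
-/

set_option autoImplicit false

namespace Pool.Agent.K7x.XE

open Finset H568R2 Pool.Agent.H676 Pool.Agent.H620R2.Gauge Pool.Agent.NPC Pool.Agent.H591R3.PHG
  Pool.Agent.H622R2 Pool.Agent.H622R2.Exp

/-- remove the padding below `k` strings -/
def stp : ℕ → List Bool → List Bool
  | 0, y => (unpair y).2
  | k + 1, y => pairBits (unpair y).1 (stp k (unpair y).2)

theorem poly_stp (k : ℕ) : Poly (stp k) := by
  induction k with
  | zero => exact Poly.snd poly_unpair
  | succ k ih =>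
    exact poly_pairBits (Poly.fst poly_unpair) (ih.comp (Poly.snd poly_unpair))

theorem quant_stp (m : ℕ) (V : List Bool → List Bool) : ∀ (k : ℕ) (n : ℕ) (b : Bool)
    (y : List Bool), (Quant m (fun y => V (stp (n + k) y)) k b y ↔
      Quant m V k b (stp n y)) := by
  intro k
  induction k with
  | zero =>
    intro n b y
    cases b <;> simp [Quant]
  | succ k ih =>
    intro n b y
    have key : ∀ (w : List Bool) (b : Bool),
        (Quant m (fun y => V (stp (n + (k + 1)) y)) k b (pairBits w y) ↔
          Quant m V k b (pairBits w (stp n y))) := by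
      intro w b
      have h1 := ih (n + 1) b (pairBits w y)
      have h2 : stp (n + 1) (pairBits w y) = pairBits w (stp n y) := by
        show pairBits (unpair (pairBits w y)).1 (stp n (unpair (pairBits w y)).2) = _
        rw [unpair_pairBits]
      rw [h2] at h1
      rw [← h1, show n + (k + 1) = n + 1 + k by omega]
    cases b with
    | true => simp only [Quant, key]
    | false => simp only [Quant, key]

theorem t_PAD : S_PAD := by
  intro A k L V p hV _
  refine ⟨fun y => V (stp k y), hV.precomp (poly_stp k), fun x P => ?_⟩
  have h := quant_stp P V k 0 true (pairBits (List.replicate P true) x)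
  rw [Nat.zero_add] at h
  rw [h]
  have h2 : stp 0 (pairBits (List.replicate P true) x) = x := by
    show (unpair (pairBits (List.replicate P true) x)).2 = x
    rw [unpair_pairBits]
  rw [h2]

end Pool.Agent.K7x.XE
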