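import Pool.Agent.K7x.XE.Stm

/-!
# Project H7X, piece QST: the questions of an oracle algorithm
-/

set_option autoImplicit false

namespace Pool.Agent.K7x.XE

open Finset H568R2 Pool.Agent.H676 Pool.Agent.H620R2.Gauge Pool.Agent.NPC Pool.Agent.H591R3.PHG
  Pool.Agent.H622R2 Pool.Agent.H622R2.Exp Filter

namespace QST

theorem loc (M : Alg) (A A' : Oracle) (x : List Bool) : ∀ (n : ℕ) (a : List Bool),
    (∀ q ∈ qsR M A x n a, A' q = A q) →
    qsR M A' x n a = qsR M A x n a ∧ M.run A' x n a = M.run A x n a := by
  intro n
  induction n with
  | zero => intro a _; exact ⟨rfl, rfl⟩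
  | succ n ih =>
    intro a h
    rcases hq : M.D (pairBits x a) with _ | ⟨c, q⟩
    · simp only [qsR, Alg.run, hq, and_self]
    · cases c with
      | true => simp only [qsR, Alg.run, hq, and_self]
      | false =>
        simp only [qsR, hq] at h
        simp only [qsR, Alg.run, hq]
        have h1 : A' q = A q := h q List.mem_cons_self
        rw [h1]
        have h2 := ih (a ++ [A q]) fun r hr => h r (List.mem_cons_of_mem _ hr)
        exact ⟨by rw [h2.1], h2.2⟩

theorem len (M : Alg) (A : Oracle) (x : List Bool) : ∀ (n : ℕ) (a : List Bool),
    (qsR M A x n a).length ≤ n := by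
  intro n
  induction n with
  | zero => intro a; exact le_rfl
  | succ n ih =>
    intro a
    rcases hq : M.D (pairBits x a) with _ | ⟨c, q⟩
    · simp only [qsR, hq, List.length_nil, Nat.zero_le]
    · cases c with
      | true => simp only [qsR, hq, List.length_nil, Nat.zero_le]
      | false =>
        simp only [qsR, hq, List.length_cons]
        exact Nat.succ_le_succ (ih _)

end QST

open QST in
theorem t_QST : S_QST := by
  refine ⟨?_, ?_, ?_⟩
  · intro h c A A' hA
    have h1 := loc (h c.1).1 A A' (yE h c) ((h c.1).1.p.eval (yE h c).length) [] (by
      intro q hq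
      apply hA
      unfold QS
      exact List.mem_toFinset.2 hq)
    refine ⟨?_, ?_⟩
    · unfold QS
      rw [h1.1]
    · unfold AcE Alg.out
      rw [h1.2]
  · intro h c A
    unfold QS
    exact (List.toFinset_card_le _).trans (len _ _ _ _ _)
  · intro M
    obtain ⟨b, hb⟩ := M.next_length
    refine ⟨b, fun A x => ?_⟩
    have key : ∀ (n : ℕ) (a : List Bool), a.length + n ≤ M.p.eval x.length →
        ∀ q ∈ qsR M A x n a, q.length ≤ b.eval x.length := by
      intro n
      induction n with
      | zero =>
        intro a _ q hq
        simp only [qsR, List.not_mem_nil] at hq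
      | succ n ih =>
        intro a ha q hq
        have hD := hb x a (by omega)
        rcases hq' : M.D (pairBits x a) with _ | ⟨c, r⟩
        · simp only [qsR, hq', List.not_mem_nil] at hq
        · cases c with
          | true => simp only [qsR, hq', List.not_mem_nil] at hq
          | false =>
            simp only [qsR, hq'] at hq
            rcases List.mem_cons.1 hq with rfl | hq
            · rw [hq', List.length_cons] at hD
              omega
            · exact ih (a ++ [A r]) (by
                rw [List.length_append, List.length_singleton]; omega) q hq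
    exact key _ [] (by simp)

end Pool.Agent.K7x.XE
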