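import Pool.Agent.K7x.XE.Stm

/-!
# Project H7X, piece RCH: reachable contents exist
-/

set_option autoImplicit false

namespace Pool.Agent.K7x.XE

open Finset

theorem t_RCH : S_RCH := by
  intro ι _ I _ _ m K C
  induction C with
  | nil =>
    intro B F
    refine ⟨⟨B, F, Rch.nil B F⟩, fun Ψ h => ?_⟩
    exact h B F (Rch.nil B F)
  | cons c C ih =>
    intro B F
    refine ⟨?_, fun Ψ h => ?_⟩
    · have h1 : ∃ z, K.K c (m.t c B) (nF m B F c c) (B c) z ≠ 0 := by
        by_contra hcon
        push Not at hcon
        have h2 := K.one c (m.t c B) (nF m B F c c) (B c)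
        rw [Finset.sum_eq_zero (fun z _ => hcon z)] at h2
        exact zero_ne_one h2
      obtain ⟨z, hz⟩ := h1
      obtain ⟨⟨B', F', hBF⟩, _⟩ := ih (Function.update B c z) (nF m B F c)
      exact ⟨B', F', Rch.cons c C B F z B' F' hz hBF⟩
    · unfold EV
      rw [← K.one c (m.t c B) (nF m B F c c) (B c)]
      refine Finset.sum_le_sum fun z _ => ?_
      by_cases hz : K.K c (m.t c B) (nF m B F c c) (B c) z = 0
      · rw [hz, zero_mul]
      · have h3 := (ih (Function.update B c z) (nF m B F c)).2 Ψ
          (fun B' F' hBF => h B' F' (Rch.cons c C B F z B' F' hz hBF))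
        have h4 := K.nn c (m.t c B) (nF m B F c c) (B c) z
        calc K.K c (m.t c B) (nF m B F c c) (B c) z
            = K.K c (m.t c B) (nF m B F c c) (B c) z * 1 := (mul_one _).symm
          _ ≤ _ := mul_le_mul_of_nonneg_left h3 h4

end Pool.Agent.K7x.XE
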