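import Pool.Agent.K7x.XE.Stm

/-!
# Project H7X, piece RTC: the requirement depends on few strings
-/

set_option autoImplicit false
set_option linter.unusedVariables false

namespace Pool.Agent.K7x.XE

open Finset H568R2 Pool.Agent.H676 Pool.Agent.H620R2.Gauge Pool.Agent.NPC Pool.Agent.H591R3.PHG
  Pool.Agent.H622R2 Pool.Agent.H622R2.Exp Filter

open Pool.Agent.H9x.RT (lev lv ml Fo Hm)

open Pool.Agent.H9x.RU (Dt Kr Smp fo la Rt SZ LQ lf rt_iff)

theorem t_RTC : S_RTC := by
  intro k P T Λ m₀ w M as X _ _ zz hk hΛ hcut A A' hA hf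
  have h1 := rt_iff (I := Fin 0) (T := T) (Λ := Λ) (M := M) hk zz hΛ hcut (fun _ => A)
    (fun _ => false)
  have h2 := rt_iff (I := Fin 0) (T := T) (Λ := Λ) (M := M) hk zz hΛ hcut (fun _ => A')
    (fun _ => false)
  have h3 : lf M T (fun _ : Fin 0 → Bool => A) = lf M T (fun _ : Fin 0 → Bool => A') := by
    funext y z
    unfold lf
    simp only
    rw [Pool.Agent.H9x.RT.cut_congr (m := T) (A := A) (A' := A') fun z hz => hA z (by omega)]
  rw [h1, h2, h3, hf]

end Pool.Agent.K7x.XE
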