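import Pool.Agent.K7x.XE.StgB

/-!
# Project H7X: one stage
-/

set_option autoImplicit false
set_option linter.unusedSectionVars false
set_option linter.unusedVariables false

namespace Pool.Agent.K7x.XE

open Finset H568R2 Pool.Agent.H676 Pool.Agent.H620R2.Gauge Pool.Agent.NPC Pool.Agent.H591R3.PHG
  Pool.Agent.H622R2 Pool.Agent.H622R2.Exp

open Pool.Agent.H9x.RT (lev)

open Pool.Agent.H9x.RU (Dt Kr Smp fo la le_la Rt rt_iff SZ LQ rt_congr)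

open Pool.Agent.K7x.EQ (us us_eq Iu m2e Yes No va LA IsEQP dl)

open Pool.Agent.K7x.ER (orc Fam cJ Jx)

theorem t_STG (S : ℕ → Polynomial ℕ) (g : ℕ → SAlg × Polynomial ℕ) (h : ℕ → Alg × Polynomial ℕ)
    (hQ : S_QST) (hMC : S_MAC S g h) (hC : S_COR) (hR : S_RCH) (hH : S_HYB)
    (hK : S_KER S) (hCL : S_CLO S g) (hCN : S_CNT S) (hN : S_NUM) (hRT : S_RTC)
    (hF : S_FIL S g h) : S_STG S g h := by
  rintro hke ⟨M, k, i⟩ fr n₀ B hI
  obtain ⟨nB, n, u, T, Pm, Λ, m₀, as, a1, hnB, hsq, hn, hu, hsz, hm, hnm, hΛ, hp, hcut, hΛT, hT2,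
    h33, hnum, hPm⟩ := hN M k i (n₀ + i)
  obtain ⟨B₁, hA1, hI1⟩ := hF hke fr n₀ nB B hI (by omega)
  obtain ⟨B₂, fr₂, hA2, hI2, hne⟩ := stage_core hQ hMC hC hR hH hK hCL hCN hke M hnB hsq hn hu hsz
    hm hnm hΛ hp hcut hΛT h33 hnum B₁ fr hI1
  set n' : ℕ := T + m₀ + as.sum + 8 * n + 2 with hn'
  obtain ⟨B₃, hA3, hI3⟩ := hF hke fr₂ (T + 1) n' B₂ hI2 (by omega)
  have hnT : nB ≤ T + 1 := by omega
  refine ⟨B₃, fr₂, n', by omega, (hA1.trans hQ hA2 (by omega)).trans hQ hA3 (by omega), hI3,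
    fun B'' fr'' hA => ⟨m₀, by show i ≤ m₀; omega, fun P hP => ?_⟩⟩
  have hP2 : P ≤ Pm := le_trans hP hPm
  have hΛP : ∀ j : Fin (2 ^ (u + 11)), (pairBits (List.replicate P true) (enc as (8 * n)
      (bitsOf (u + 11) j))).length + k * (2 * P + 1) ≤ Λ := by
    intro j
    rw [length_pairBits, List.length_replicate, hm j]
    have h1 : (k + 1) * (2 * P + 1) ≤ (k + 1) * (2 * Pm + 1) :=
      Nat.mul_le_mul_left _ (by omega)
    have h2 : (k + 1) * (2 * P + 1) = k * (2 * P + 1) + (2 * P + 1) := by ring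
    omega
  have h1 : ∀ q : List Bool, q.length ≤ T → oE S g B₂ fr₂ q = oE S g B₃ fr₂ q := fun q hq =>
    (oE_loc (n := T + 1) hA3.bl hA3.fr q (by omega)).symm
  have h2 := hRT k P T Λ m₀ (8 * n) M as (Fin (2 ^ (u + 11)))
    (fun j : Fin (2 ^ (u + 11)) => bitsOf (u + 11) j) hsz.1 hΛP hcut (oE S g B₂ fr₂)
    (oE S g B₃ fr₂) h1 (by rw [fo_oE, fo_oE])
  have h3 : ∀ q : List Bool, q.length ≤ T + m₀ + as.sum + 8 * n + 1 →
      oE S g B₃ fr₂ q = oE S g B'' fr'' q := fun q hq =>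
    (oE_loc (n := n') hA.bl hA.fr q (by omega)).symm
  have h4 := rt_congr (T := T) (Λ := Λ) (M := M) (w := 8 * n) hsz.1
      (fun j : Fin (2 ^ (u + 11)) => bitsOf (u + 11) j) hΛP hcut hm h3
  have h5 := hne P hP2
  rw [h2, h4] at h5
  unfold Rt at h5
  rw [not_forall] at h5
  obtain ⟨j, hj⟩ := h5
  exact ⟨_, hm j, hj⟩

end Pool.Agent.K7x.XE
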