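import Pool.Agent.K7x.XE.Stm

/-!
# Project H7X: preparations for one stage
-/

set_option autoImplicit false
set_option linter.unusedSectionVars false
set_option linter.unusedVariables false

namespace Pool.Agent.K7x.XE

open Finset H568R2 Pool.Agent.H676 Pool.Agent.H620R2.Gauge Pool.Agent.NPC Pool.Agent.H591R3.PHG
  Pool.Agent.H622R2 Pool.Agent.H622R2.Exp Filter

open Pool.Agent.H9x.RT (lev lv ml Fo Hm)

open Pool.Agent.H9x.RU (Dt Kr Smp fo la Rt SZ LQ lf)

open Pool.Agent.K7x.EQ (us us_eq Iu m2e Yes No enc va LA IsEQP dl ssum)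

open Pool.Agent.K7x.ER (orc Fam cJ Jx)

section Abstract

variable {ι : Type} [DecidableEq ι] {I : ι → Type} [∀ c, Fintype (I c)] [∀ c, DecidableEq (I c)]

/-- contents in the range of the average -/
def InR (F₀ : Frc I) (C : List ι) (B B' : Cont I) : Prop :=
  (∀ c, c ∉ C → B' c = B c) ∧ ∀ c, ∀ i ∈ F₀ c, B' c i = B c i

theorem card_pow_pos (c : ι) : (0 : ℝ) < 2 ^ Fintype.card (I c) := by positivity

theorem avg_const (c : ι) (x : ℝ) :
    (∑ _u : I c → Bool, x) / 2 ^ Fintype.card (I c) = x := by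
  rw [sum_const, card_univ, nsmul_eq_mul]
  simp

theorem inR_cons {F₀ : Frc I} {c : ι} {C : List ι} {B B' : Cont I} {u : I c → Bool}
    (h : InR F₀ C (Function.update B c (mixF (F₀ c) (B c) u)) B') : InR F₀ (c :: C) B B' := by
  obtain ⟨h1, h2⟩ := h
  refine ⟨fun c' hc' => ?_, fun c' i hi => ?_⟩
  · rw [List.mem_cons, not_or] at hc'
    rw [h1 c' hc'.2, Function.update_of_ne hc'.1]
  · rw [h2 c' i hi]
    by_cases hcc : c' = c
    · subst hcc
      rw [Function.update_self]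
      exact if_pos hi
    · rw [Function.update_of_ne hcc]

theorem AvL_ge (F₀ : Frc I) {x : ℝ} {Ψ : Cont I → ℝ} : ∀ (C : List ι) (B : Cont I),
    (∀ B', InR F₀ C B B' → x ≤ Ψ B') → x ≤ AvL F₀ C Ψ B := by
  intro C
  induction C with
  | nil =>
    intro B h
    exact h B ⟨fun _ _ => rfl, fun _ _ _ => rfl⟩
  | cons c C ih =>
    intro B h
    show x ≤ (∑ u : I c → Bool, AvL F₀ C Ψ (Function.update B c (mixF (F₀ c) (B c) u))) /
      2 ^ Fintype.card (I c)
    rw [← avg_const (I := I) c x]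
    refine div_le_div_of_nonneg_right (sum_le_sum fun u _ => ?_) (card_pow_pos c).le
    exact ih _ fun B' hB' => h B' (inR_cons hB')

theorem AvL_le (F₀ : Frc I) {x : ℝ} {Ψ : Cont I → ℝ} : ∀ (C : List ι) (B : Cont I),
    (∀ B', InR F₀ C B B' → Ψ B' ≤ x) → AvL F₀ C Ψ B ≤ x := by
  intro C
  induction C with
  | nil =>
    intro B h
    exact h B ⟨fun _ _ => rfl, fun _ _ _ => rfl⟩
  | cons c C ih =>
    intro B h
    show (∑ u : I c → Bool, AvL F₀ C Ψ (Function.update B c (mixF (F₀ c) (B c) u))) /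
      2 ^ Fintype.card (I c) ≤ x
    rw [← avg_const (I := I) c x]
    refine div_le_div_of_nonneg_right (sum_le_sum fun u _ => ?_) (card_pow_pos c).le
    exact ih _ fun B' hB' => h B' (inR_cons hB')

theorem AvL_sum {Y : Type} (s : Finset Y) (w : Y → ℝ) (Ψ : Y → Cont I → ℝ) (F₀ : Frc I) :
    ∀ (C : List ι) (B : Cont I), AvL F₀ C (fun B => ∑ y ∈ s, w y * Ψ y B) B =
      ∑ y ∈ s, w y * AvL F₀ C (Ψ y) B := by
  intro C
  induction C with
  | nil => intro B; rfl
  | cons c C ih =>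
    intro B
    show (∑ u : I c → Bool, AvL F₀ C (fun B => ∑ y ∈ s, w y * Ψ y B)
      (Function.update B c (mixF (F₀ c) (B c) u))) / 2 ^ Fintype.card (I c) =
      ∑ y ∈ s, w y * ((∑ u : I c → Bool, AvL F₀ C (Ψ y)
        (Function.update B c (mixF (F₀ c) (B c) u))) / 2 ^ Fintype.card (I c))
    simp only [ih]
    rw [sum_comm, sum_div]
    refine sum_congr rfl fun y _ => ?_
    rw [← mul_sum]
    ring

end Abstract

variable {S : ℕ → Polynomial ℕ} {g : ℕ → SAlg × Polynomial ℕ} {h : ℕ → Alg × Polynomial ℕ}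

theorem fo_oE (B : Cont (Ib S)) (fr : List Bool → Bool) : fo (oE S g B fr) = fr :=
  Pool.Agent.K7x.ER.fo_orc (toD S B fr)

theorem oE_loc {n : ℕ} {B B' : Cont (Ib S)} {fr fr' : List Bool → Bool}
    (hb : ∀ c, lev S c < n → B' c = B c) (hf : ∀ u : List Bool, u.length < n → fr' u = fr u)
    (q : List Bool) (hq : q.length ≤ n) : oE S g B' fr' q = oE S g B fr q := by
  refine Pool.Agent.K7x.ER.orc_loc (n := n) (fun c hc => ?_) hf q.length q rfl hq
  show (fun _ => enc (us (lev S c)) (B' c)) = fun _ => enc (us (lev S c)) (B c)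
  rw [hb c hc]

theorem Agr.same (hQ : S_QST) {n : ℕ} {B B' : Cont (Ib S)} {fr fr' : List Bool → Bool}
    (ha : Agr S g h n B fr B' fr') {c : Cd} (hc : lev S c < n) :
    QS h c (oE S g B' fr') = QS h c (oE S g B fr) ∧ tE S g h fr' c B' = tE S g h fr c B := by
  have h1 := hQ.1 h c (oE S g B fr) (oE S g B' fr') (ha.qs c hc)
  refine ⟨h1.1, ?_⟩
  unfold tE
  rw [decide_eq_decide]
  exact h1.2

theorem Agr.trans (hQ : S_QST) {n n' : ℕ} {B B' B'' : Cont (Ib S)}
    {fr fr' fr'' : List Bool → Bool} (h1 : Agr S g h n B fr B' fr')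
    (h2 : Agr S g h n' B' fr' B'' fr'') (hn : n ≤ n') : Agr S g h n B fr B'' fr'' := by
  refine ⟨fun c hc => ?_, fun c hc q hq => ?_, fun u hu => ?_⟩
  · rw [h2.bl c (by omega), h1.bl c hc]
  · rw [h2.qs c (by omega) q (by rw [(h1.same hQ hc).1]; exact hq), h1.qs c hc q hq]
  · rw [h2.fr u (by omega), h1.fr u hu]

theorem Agr.inv (hQ : S_QST) {n : ℕ} {B B' : Cont (Ib S)} {fr fr' : List Bool → Bool}
    (ha : Agr S g h n B fr B' fr') (hi : Inv S g h fr n B) : Inv S g h fr' n B' := by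
  intro c hc
  rw [ha.bl c hc, (ha.same hQ hc).2]
  exact hi c hc

end Pool.Agent.K7x.XE
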