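import Pool.Agent.K7x.XE.StgA

/-!
# Project H7X: the random part of one stage
-/

set_option autoImplicit false
set_option linter.unusedSectionVars false
set_option linter.unusedVariables false

namespace Pool.Agent.K7x.XE

open Finset H568R2 Pool.Agent.H676 Pool.Agent.H620R2.Gauge Pool.Agent.NPC Pool.Agent.H591R3.PHG
  Pool.Agent.H622R2 Pool.Agent.H622R2.Exp

open Pool.Agent.H9x.RT (lev lv ml Fo Hm exists_list UU mem_UU)

open Pool.Agent.H9x.RU (Dt Kr Smp fo la le_la Rt rt_iff SZ LQ LQ_le one_le_LQ lf)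

open Pool.Agent.K7x.EQ (us us_eq Iu m2e Yes No enc_cls va LA IsEQP dl sum_dl_le ssum)

open Pool.Agent.K7x.ER (orc Fam cJ Jx free_le)

variable {S : ℕ → Polynomial ℕ} {g : ℕ → SAlg × Polynomial ℕ} {h : ℕ → Alg × Polynomial ℕ}

/-- the codes below the level `n` -/
theorem mem_low (hS : ∀ e n, n + e + 1 ≤ (S e).eval n) {n : ℕ} {c : Cd} :
    c ∈ UU S 0 (n - 1) ↔ lev S c < n := by
  rw [mem_UU hS]
  have := hS c.1 c.2.length
  have h1 : lev S c = (S c.1).eval c.2.length := rfl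
  omega

/-- the bound for the number of forced bits -/
theorem card_bound (hS : ∀ e n, n + e + 1 ≤ (S e).eval n) (hCN : S_CNT S) {n T : ℕ}
    {C : List Cd} (hCn : C.Nodup) (hCm : ∀ c, c ∈ C ↔ n ≤ lev S c ∧ lev S c ≤ T)
    (hCp : C.Pairwise (fun a b => lev S a ≤ lev S b)) {C₁ C₂ : List Cd} {c : Cd}
    (hC : C = C₁ ++ c :: C₂) :
    ∑ c' ∈ UU S 0 (n - 1), 2 ^ Nat.sqrt (lev S c') + (C₁.map fun c => 2 ^ Nat.sqrt (lev S c)).sum +
      2 ^ Nat.sqrt (lev S c) ≤ Db (lev S c) := by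
  classical
  refine le_trans ?_ (hCN hS (lev S c))
  subst hC
  have hnd : (C₁ ++ [c]).Nodup := by
    have h1 : (C₁ ++ [c]).Sublist (C₁ ++ c :: C₂) :=
      List.Sublist.append_left (List.singleton_sublist.2 List.mem_cons_self) _
    exact hCn.sublist h1
  have e1 : (C₁.map fun c => 2 ^ Nat.sqrt (lev S c)).sum + 2 ^ Nat.sqrt (lev S c) =
      ∑ c' ∈ (C₁ ++ [c]).toFinset, 2 ^ Nat.sqrt (lev S c') := by
    rw [List.sum_toFinset _ hnd]
    simp
  rw [add_assoc, e1, ← sum_union]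
  · refine sum_le_sum_of_subset fun c' hc' => ?_
    rw [mem_UU hS]
    refine ⟨Nat.zero_le _, ?_⟩
    rw [mem_union, mem_low hS, List.mem_toFinset, List.mem_append, List.mem_singleton] at hc'
    have hcm := (hCm c).1 (List.mem_append_right _ List.mem_cons_self)
    rcases hc' with h1 | h1 | h1
    · omega
    · rw [List.pairwise_append] at hCp
      exact hCp.2.2 c' h1 c List.mem_cons_self
    · rw [h1]
  · rw [disjoint_left]
    intro c' h1 h2
    rw [mem_low hS] at h1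
    rw [List.mem_toFinset, List.mem_append, List.mem_singleton] at h2
    have h3 : c' ∈ C₁ ++ c :: C₂ := by
      rcases h2 with h2 | h2
      · exact List.mem_append_left _ h2
      · rw [h2]; exact List.mem_append_right _ List.mem_cons_self
    have := (hCm c').1 h3
    omega

theorem stage_core (hQ : S_QST) (hMC : S_MAC S g h) (hC : S_COR) (hR : S_RCH) (hH : S_HYB)
    (hK : S_KER S) (hCL : S_CLO S g) (hCN : S_CNT S) (hke : Ke h S)
    {nB n u k T Pm Λ m₀ : ℕ} (M : Alg) {as : List ℕ} (hnB : nB ≤ n) (hsq : 2 ^ Nat.sqrt nB < n)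
    (hn : 5 ≤ n) (hu : 8 * u ≤ n) (hsz : SZ n u k as)
    (hm : ∀ j : Fin (2 ^ (u + 11)), (enc as (8 * n) (bitsOf (u + 11) j)).length = m₀)
    (hnm : n ≤ m₀) (hΛ : (k + 1) * (2 * Pm + 1) + m₀ ≤ Λ)
    (hp : ∀ y : List Bool, y.length ≤ Λ → M.p.eval y.length ≤ T)
    (hcut : ∀ (A : Oracle) (y : List Bool), y.length ≤ Λ → M.out (CC.cut T A) y = M.out A y)
    (hΛT : Λ ≤ T) (h33 : 33 * T + 164 + k ≤ 2 ^ (2 * u))
    (hnum : ((Pm : ℝ) + 1) * (k * (2 ^ (Λ + 2) * (1 / 2) ^ (2 ^ (2 * u) + 1)) +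
        3 * (1 / 2) ^ (2 ^ u)) + ((Pm : ℝ) + 1) * ((T + 1) * (2 * (LQ u k : ℝ) / 2 ^ nB)) < 1)
    (B₁ : Cont (Ib S)) (fr : List Bool → Bool) (hI : Inv S g h fr nB B₁) :
    ∃ (B₂ : Cont (Ib S)) (fr₂ : List Bool → Bool), Agr S g h nB B₁ fr B₂ fr₂ ∧
      Inv S g h fr₂ (T + 1) B₂ ∧ ∀ P ≤ Pm, ¬ Rt k P M (fun j : Fin (2 ^ (u + 11)) =>
        enc as (8 * n) (bitsOf (u + 11) j)) (oE S g B₂ fr₂) := by
  classical
  by_contra hcon
  push Not at hcon
  have htR : (1 : ℝ) ≤ ((2 ^ (2 * u) : ℕ) : ℝ) := by exact_mod_cast Nat.one_le_two_pow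
  have hLQe : (LQ u k : ℝ) = ((((2 ^ (2 * u) * 2 ^ (u + 11) : ℕ) : ℝ)) ^ 2 + 1) *
      (24 * ((2 ^ (2 * u) : ℕ) : ℝ)) ^ (2 * k) := by
    unfold LQ
    push_cast
    ring
  have hLp : (1 + ((2 ^ (2 * u) * 2 ^ (u + 11) : ℕ) : ℝ)) ^ 2 ≤
      2 * (LQ u k : ℝ) * (1 / (24 * ((2 ^ (2 * u) : ℕ) : ℝ))) ^ k := by
    have h1 : 2 * (LQ u k : ℝ) * (1 / (24 * ((2 ^ (2 * u) : ℕ) : ℝ))) ^ k =
        2 * ((((2 ^ (2 * u) * 2 ^ (u + 11) : ℕ) : ℝ)) ^ 2 + 1) *
          (24 * ((2 ^ (2 * u) : ℕ) : ℝ)) ^ k := by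
      have e1 : (24 * ((2 ^ (2 * u) : ℕ) : ℝ)) ^ (2 * k) =
          (24 * ((2 ^ (2 * u) : ℕ) : ℝ)) ^ k * (24 * ((2 ^ (2 * u) : ℕ) : ℝ)) ^ k := by
        rw [two_mul k, pow_add]
      rw [hLQe, e1, one_div, inv_pow]
      have h0 : (24 * ((2 ^ (2 * u) : ℕ) : ℝ)) ^ k ≠ 0 := by positivity
      rw [← mul_assoc, ← mul_assoc, mul_assoc _ _ ((24 * ((2 ^ (2 * u) : ℕ) : ℝ)) ^ k)⁻¹,
        mul_inv_cancel₀ h0, mul_one]
    rw [h1]
    have h2 : (1 : ℝ) ≤ (24 * ((2 ^ (2 * u) : ℕ) : ℝ)) ^ k := one_le_pow₀ (by linarith)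
    have h3 : (1 + ((2 ^ (2 * u) * 2 ^ (u + 11) : ℕ) : ℝ)) ^ 2 ≤
        2 * ((((2 ^ (2 * u) * 2 ^ (u + 11) : ℕ) : ℝ)) ^ 2 + 1) := by
      nlinarith [sq_nonneg (((2 ^ (2 * u) * 2 ^ (u + 11) : ℕ) : ℝ) - 1)]
    exact h3.trans (le_mul_of_one_le_right (by positivity) h2)
  have hL1 : (1 : ℝ) ≤ (LQ u k : ℝ) := by exact_mod_cast one_le_LQ u k
  obtain ⟨K, hK1, hK2⟩ := hK (t := 2 ^ (2 * u) * 2 ^ (u + 11))
    (p := (1 / (24 * ((2 ^ (2 * u) : ℕ) : ℝ))) ^ k) (L := (LQ u k : ℝ)) (by positivity)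
    (pow_le_one₀ (by positivity) (by
        rw [div_le_one (by positivity)]
        linarith)) hL1 hLp
  obtain ⟨C, hCn, hCm, hCp, hCs⟩ := exists_list hke.big nB T
  set xs : Fin (2 ^ (u + 11)) → List Bool := fun j => enc as (8 * n) (bitsOf (u + 11) j) with hxs
  have hxi : Function.Injective xs := by
    intro j j' h
    have h1 := enc_inj _ _ h
    exact Fin.ext (bitsOf_inj j.isLt j'.isLt h1)
  have hli : Function.Injective (la xs as (8 * n)) := leaf_inj xs hxi m₀ hm as (8 * n)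
  set frn : (Idx (Fin (2 ^ (u + 11))) (8 * n :: pw as) → Bool) → List Bool → Bool :=
    fun y => Function.extend (la xs as (8 * n)) y fr with hfrn
  have hfr1 : ∀ y a, frn y (la xs as (8 * n) a) = y a := fun y a => hli.extend_apply _ _ _
  have hfr2 : ∀ (y : Idx (Fin (2 ^ (u + 11))) (8 * n :: pw as) → Bool) (v : List Bool),
      (¬ ∃ a, la xs as (8 * n) a = v) → frn y v = fr v :=
    fun y v hv => Function.extend_apply' _ _ _ hv
  have hfr3 : ∀ (y : Idx (Fin (2 ^ (u + 11))) (8 * n :: pw as) → Bool) (v : List Bool),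
      v.length < n → frn y v = fr v := by
    intro y v hv
    refine hfr2 y v ?_
    rintro ⟨a, rfl⟩
    have := le_la (xs := xs) hm as (8 * n) a
    omega
  -- the machines
  set m : (Idx (Fin (2 ^ (u + 11))) (8 * n :: pw as) → Bool) → Mac (Ib S) := fun y =>
    ⟨tE S g h (frn y), RE S g h (frn y), fun c B B' hB => (hMC.1 (frn y) c B B' hB).2⟩ with hmdef
  set q : Cd → ℕ := fun c => 2 ^ Nat.sqrt (lev S c) with hqdef
  have hq : ∀ y c B c', ((m y).R c B c').card ≤ q c := fun y c B c' =>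
    (hMC.2.1 (frn y) c B c').trans (hke.card c _)
  set F₀ : Frc (Ib S) := fun c' => (UU S 0 (nB - 1)).biUnion fun c => RE S g h fr c B₁ c' with hF₀
  have hF0sub : ∀ c, lev S c < nB → ∀ c', RE S g h fr c B₁ c' ⊆ F₀ c' := by
    intro c hc c'
    exact subset_biUnion_of_mem (fun c => RE S g h fr c B₁ c') ((mem_low hke.big).2 hc)
  have hD : ∀ (C₁ : List Cd) (c : Cd) (C₂ : List Cd), C = C₁ ++ c :: C₂ →
      (F₀ c).card + (C₁.map q).sum + q c ≤ Db (lev S c) := by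
    intro C₁ c C₂ hCC
    refine le_trans ?_ (card_bound hke.big hCN hCn hCm hCp hCC)
    refine Nat.add_le_add_right (Nat.add_le_add_right ?_ _) _
    exact card_biUnion_le.trans (sum_le_sum fun c' _ =>
      (hMC.2.1 fr c' B₁ c).trans (hke.card c' _))
  -- the functions
  set φ : (Idx (Fin (2 ^ (u + 11))) (8 * n :: pw as) → Bool) → Cont (Ib S) → ℝ := fun y B =>
    ∑ P ∈ range (Pm + 1), if Rt k P M xs (oE S g B (frn y)) then 1 else 0 with hφ
  have hbig : ∀ c, nB ≤ lev S c → 32 * (LQ u k : ℝ) ≤ 2 ^ (4 * us (lev S c)) := by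
    intro c hs
    have h1 : (0 : ℝ) ≤ ((Pm : ℝ) + 1) * (k * (2 ^ (Λ + 2) * (1 / 2) ^ (2 ^ (2 * u) + 1)) +
        3 * (1 / 2) ^ (2 ^ u)) := by positivity
    have h2 : ((Pm : ℝ) + 1) * ((T + 1) * (2 * (LQ u k : ℝ) / 2 ^ nB)) < 1 := by linarith
    have h3 : 2 * (LQ u k : ℝ) / 2 ^ nB ≤
        ((Pm : ℝ) + 1) * ((T + 1) * (2 * (LQ u k : ℝ) / 2 ^ nB)) := by
      have h4 : (0 : ℝ) ≤ 2 * (LQ u k : ℝ) / 2 ^ nB := by positivity
      have h5 : (1 : ℝ) ≤ ((Pm : ℝ) + 1) * (T + 1) := by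
        have h6 : (0 : ℝ) ≤ (Pm : ℝ) := by positivity
        have h7 : (0 : ℝ) ≤ (T : ℝ) := by positivity
        nlinarith
      calc 2 * (LQ u k : ℝ) / 2 ^ nB ≤ (((Pm : ℝ) + 1) * (T + 1)) *
            (2 * (LQ u k : ℝ) / 2 ^ nB) := le_mul_of_one_le_left h4 h5
        _ = _ := by ring
    have h4 : 2 * (LQ u k : ℝ) / 2 ^ nB < 1 := lt_of_le_of_lt h3 h2
    rw [div_lt_one (by positivity)] at h4
    have h5 : (2 : ℝ) ^ (nB + 20) ≤ 2 ^ (4 * us (lev S c)) :=
      pow_le_pow_right₀ (by norm_num) (by rw [us_eq]; omega)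
    rw [pow_add] at h5
    have h6 : (0 : ℝ) < 2 ^ nB := by positivity
    have h7 : (2 : ℝ) ^ nB * 16 ≤ 2 ^ nB * 2 ^ 20 :=
      mul_le_mul_of_nonneg_left (by norm_num) h6.le
    linarith
  have hcl : ∀ y, ∀ c ∈ C, ∀ (B : Cont (Ib S)) (b : Bool) (F : Finset (Ib S c))
      (v : Ib S c → Bool), F.card ≤ Db (lev S c) →
      |∑ z, K.K c b F v z * φ y (Function.update B c z) -
        (∑ u, φ y (Function.update B c (mixF F v u))) / 2 ^ Fintype.card (Ib S c)| ≤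
        ((Pm : ℝ) + 1) * dl (lev S c) (LQ u k : ℝ) := by
    intro y c hc B b F v hF
    obtain ⟨hc1, hc2⟩ := (hCm c).1 hc
    have hone : ∀ P ∈ range (Pm + 1), |∑ z, K.K c b F v z *
        (if Rt k P M xs (oE S g (Function.update B c z) (frn y)) then (1 : ℝ) else 0) -
        (∑ u, (if Rt k P M xs (oE S g (Function.update B c (mixF F v u)) (frn y)) then (1 : ℝ)
          else 0)) / 2 ^ Fintype.card (Ib S c)| ≤ dl (lev S c) (LQ u k : ℝ) := by
      intro P hP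
      obtain ⟨β, hβ, hCl⟩ := hCL k u n T Pm Λ m₀ P M as (Nat.lt_succ_iff.1 (mem_range.1 hP)) hn hu
        hsz hm hΛ hp hcut hΛT h33 c hc2 B (frn y)
        (fun z => decide (Rt k P M xs (oE S g (Function.update B c z) (frn y))))
        (fun z => by rw [decide_eq_true_iff])
      have h1 := hK2 c b F v hF (hbig c hc1) _ β hβ hCl
      have e1 : ∀ z, br (fun z => decide (Rt k P M xs (oE S g (Function.update B c z) (frn y)))) z =
          if Rt k P M xs (oE S g (Function.update B c z) (frn y)) then (1 : ℝ) else 0 := by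
        intro z
        unfold br
        simp only [decide_eq_true_eq]
      simp only [e1] at h1
      exact h1
    have e1 : ∑ z, K.K c b F v z * φ y (Function.update B c z) -
        (∑ u, φ y (Function.update B c (mixF F v u))) / 2 ^ Fintype.card (Ib S c) =
        ∑ P ∈ range (Pm + 1), (∑ z, K.K c b F v z *
        (if Rt k P M xs (oE S g (Function.update B c z) (frn y)) then (1 : ℝ) else 0) -
        (∑ u, (if Rt k P M xs (oE S g (Function.update B c (mixF F v u)) (frn y)) then (1 : ℝ)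
          else 0)) / 2 ^ Fintype.card (Ib S c)) := by
      rw [sum_sub_distrib, ← sum_div]
      congr 1
      · rw [sum_comm]
        refine sum_congr rfl fun z _ => ?_
        rw [hφ]
        simp only
        rw [mul_sum]
      · rw [sum_comm]
    rw [e1]
    refine (abs_sum_le_sum_abs _ _).trans ((sum_le_sum hone).trans (le_of_eq ?_))
    rw [sum_const, card_range, nsmul_eq_mul]
    push_cast
    ring
  have hhyb := fun y => hH Cd (Ib S) (m y) K q (fun c => Db (lev S c))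
    (fun c => ((Pm : ℝ) + 1) * dl (lev S c) (LQ u k : ℝ)) (hq y) (φ y) C hCn F₀ B₁ hD (hcl y)
  -- the weights
  set wt : (Idx (Fin (2 ^ (u + 11))) (8 * n :: pw as) → Bool) → ℝ :=
    fun y => ∏ a, ber (1 / 2) (y a) with hwt
  have hwt0 : ∀ y, 0 ≤ wt y := fun y => prod_nonneg fun a _ =>
    ber_nonneg_m (by norm_num) (by norm_num) _
  have hwt1 : ∑ y, wt y = 1 := by
    have := Ex_const (I := Idx (Fin (2 ^ (u + 11))) (8 * n :: pw as)) (ber_sum_m (1 / 2)) 1
    unfold Ex at this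
    simp only [mul_one] at this
    exact this
  -- the support
  have hge : ∀ y, 1 ≤ AvL F₀ C (fun B => EV (m y) K C B F₀ fun B _ => φ y B) B₁ := by
    intro y
    refine AvL_ge F₀ C B₁ fun B' hB' => ?_
    refine (hR Cd (Ib S) (m y) K C B' F₀).2 (fun B _ => φ y B) fun B₂ F₂ hrch => ?_
    obtain ⟨c1, c2, c3, c4, c5⟩ := hC Cd (Ib S) (m y) K q (hq y) C B' F₀ B₂ F₂ hCn hrch
    have hkeep : ∀ c, ∀ i ∈ F₀ c, B₂ c i = B₁ c i := fun c i hi => by
      rw [c2 c i hi, hB'.2 c i hi]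
    have hlow : ∀ c, lev S c < nB → (∀ q ∈ QS h c (oE S g B₁ fr),
        oE S g B₂ (frn y) q = oE S g B₁ fr q) ∧ tE S g h (frn y) c B₂ = tE S g h fr c B₁ := by
      intro c hc
      have hlt : 2 ^ Nat.sqrt (lev S c) < n :=
        lt_of_le_of_lt (Nat.pow_le_pow_right (by norm_num) (Nat.sqrt_le_sqrt hc.le)) hsq
      obtain ⟨l1, l2, l3⟩ := hMC.2.2 hke fr (frn y) n (hfr3 y) c B₁ hlt
      have hq1 := (hQ.1 h c (oE S g B₁ fr) (oE S g B₁ (frn y)) l1).1
      obtain ⟨k1, k2, k3⟩ := hMC.1 (frn y) c B₁ B₂ (fun c' i hi => by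
        rw [l3] at hi
        exact hkeep c' i (hF0sub c hc c' hi))
      refine ⟨fun q hq => ?_, by rw [k2, l2]⟩
      rw [k1 q (by rw [hq1]; exact hq), l1 q hq]
    have hbl : ∀ c, lev S c < nB → B₂ c = B₁ c := by
      intro c hc
      have hcC : c ∉ C := fun h1 => by have := ((hCm c).1 h1).1; omega
      rw [c1 c hcC, hB'.1 c hcC]
    have hA : Agr S g h nB B₁ fr B₂ (frn y) :=
      ⟨hbl, fun c hc => (hlow c hc).1, fun u hu => hfr3 y u (by omega)⟩
    have hInv : Inv S g h (frn y) (T + 1) B₂ := by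
      intro c hc
      by_cases hcB : lev S c < nB
      · rw [hbl c hcB, (hlow c hcB).2]
        exact hI c hcB
      · obtain ⟨_, C₁, C₂, G, v, d1, d2, d3⟩ := c4 c ((hCm c).2 ⟨by omega, by omega⟩)
        exact hK1 c _ G v (B₂ c) (d2.trans (hD C₁ c C₂ d1)) d3
    obtain ⟨P, hP, hRt⟩ := hcon B₂ (frn y) hA hInv
    show (1 : ℝ) ≤ ∑ P ∈ range (Pm + 1), if Rt k P M xs (oE S g B₂ (frn y)) then (1 : ℝ) else 0
    refine le_trans (le_of_eq ?_) (single_le_sum (f := fun P =>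
      if Rt k P M xs (oE S g B₂ (frn y)) then (1 : ℝ) else 0)
      (fun P' _ => by beta_reduce; split_ifs <;> norm_num) (mem_range.2 (Nat.lt_succ_of_le hP)))
    exact (if_pos hRt).symm
  -- the free strings
  have hΛP : ∀ P' ≤ Pm, 2 * P' + 1 + m₀ + k * (2 * P' + 1) ≤ Λ := by
    intro P' hP'
    have h1 : (k + 1) * (2 * P' + 1) ≤ (k + 1) * (2 * Pm + 1) :=
      Nat.mul_le_mul_left _ (by omega)
    have h2 : (k + 1) * (2 * P' + 1) = k * (2 * P' + 1) + (2 * P' + 1) := by ring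
    omega
  have hlen : ∀ (P' : ℕ) (j : Fin (2 ^ (u + 11))),
      (pairBits (List.replicate P' true) (enc as (8 * n) (bitsOf (u + 11) j))).length ≤
        2 * P' + 1 + m₀ := by
    intro P' j
    rw [length_pairBits, List.length_replicate, hm j]
  have hTt : T ≤ 2 ^ (2 * u) := by omega
  have hfree : AvL F₀ C (fun B => ∑ y, wt y * φ y B) B₁ ≤
      ((Pm : ℝ) + 1) * (k * (2 ^ (Λ + 2) * (1 / 2) ^ (2 ^ (2 * u) + 1)) +
        3 * (1 / 2) ^ (2 ^ u)) := by
    refine AvL_le F₀ C B₁ fun B _ => ?_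
    have e1 : ∑ y, wt y * φ y B = ∑ P ∈ range (Pm + 1), ∑ y, wt y *
        (if Rt k P M xs (oE S g B (frn y)) then (1 : ℝ) else 0) := by
      rw [sum_comm]
      refine sum_congr rfl fun y _ => ?_
      rw [hφ]
      simp only
      rw [mul_sum]
    rw [e1]
    have hterm : ∀ P' ∈ range (Pm + 1), ∑ y, wt y *
        (if Rt k P' M xs (oE S g B (frn y)) then (1 : ℝ) else 0) ≤
        k * (2 ^ (Λ + 2) * (1 / 2) ^ (2 ^ (2 * u) + 1)) + 3 * (1 / 2) ^ (2 ^ u) := by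
      intro P' hP'
      have hP2 : P' ≤ Pm := Nat.lt_succ_iff.1 (mem_range.1 hP')
      have hFam : Fam S n T (fun y => toD S B (frn y)) := by
        refine ⟨fun c' _ z z' => rfl, fun v hv z z' => ?_, fun c' h1 h2 => ?_, fun v => ?_⟩
        · show frn z v = frn z' v
          rw [hfr3 z v hv, hfr3 z' v hv]
        · left
          exact ⟨fun z z' => rfl, Or.inr fun z => rfl⟩
        · by_cases hv : ∃ a, la xs as (8 * n) a = v
          · obtain ⟨a, rfl⟩ := hv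
            exact Or.inr ⟨a, fun y => hfr1 y a⟩
          · exact Or.inl ⟨fr v, fun y => hfr2 y v hv⟩
      have h1 := free_le (g := g) (k := k) (P := P') (Λ := Λ) (ℓ := 2 * P' + 1 + m₀) (M := M) hn hu
        hsz hFam hfr1 (hlen P') (hΛP P' hP2) hcut (fun y hy => (hp y hy).trans hTt)
      refine le_trans (le_of_eq ?_) (h1.trans ?_)
      · rfl
      · have h2 : (2 : ℝ) ^ (2 * P' + 1 + m₀ + k * (2 * P' + 1) + 2) ≤ 2 ^ (Λ + 2) :=
          pow_le_pow_right₀ (by norm_num) (by have := hΛP P' hP2; omega)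
        have h3 : (0 : ℝ) ≤ (1 / 2) ^ (2 ^ (2 * u) + 1) := by positivity
        have h4 := mul_le_mul_of_nonneg_left (mul_le_mul_of_nonneg_right h2 h3)
          (Nat.cast_nonneg (α := ℝ) k)
        linarith
    refine (sum_le_sum hterm).trans (le_of_eq ?_)
    rw [sum_const, card_range, nsmul_eq_mul]
    push_cast
    ring
  -- the contradiction
  set tot : ℝ := (C.map fun c => ((Pm : ℝ) + 1) * dl (lev S c) (LQ u k : ℝ)).sum with htot
  have htot1 : tot ≤ ((Pm : ℝ) + 1) * ((T + 1) * (2 * (LQ u k : ℝ) / 2 ^ nB)) := by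
    rw [htot, hCs, ← mul_sum]
    exact mul_le_mul_of_nonneg_left (sum_dl_le hke.big nB T (by linarith)) (by positivity)
  rw [AvL_sum] at hfree
  have hlast : (1 : ℝ) ≤ ∑ y, wt y * AvL F₀ C (φ y) B₁ + tot := by
    have h1 : ∀ y, wt y * 1 ≤ wt y * (AvL F₀ C (φ y) B₁ + tot) := fun y => by
      refine mul_le_mul_of_nonneg_left ?_ (hwt0 y)
      have h2 := hge y
      have h3 := (abs_le.1 (hhyb y)).2
      linarith
    have h2 := sum_le_sum fun y (_ : y ∈ (univ : Finset (Idx (Fin (2 ^ (u + 11)))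
      (8 * n :: pw as) → Bool))) => h1 y
    simp only [mul_one, mul_add] at h2
    rw [sum_add_distrib, ← sum_mul, hwt1, one_mul] at h2
    exact h2
  linarith

end Pool.Agent.K7x.XE
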