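import Pool.Agent.K7x.ER.World

/-!
# Project H7X: an oracle with `EXP = EQP` and an infinite polynomial hierarchy

Statements of the pieces, with proofs in the docstrings.

IDEA.  The blocks are those of `K7x.EQ` (exact slices of forrelation): the block of the code
`c = (e, x)` has the level `s = lev S c = (S e).eval |x|` and the data `z : Iu (us s) → Bool`; it is a
yes-block if `va (us s) z = 1` and a no-block if `va (us s) z = 0`.  The machine `c` is the
deterministic algorithm number `e` on the input `x` padded with `2 ^ poly |x|` ones.  It has to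
accept iff its block is a yes-block.  It asks at most `2 ^ √s` questions, of length `≤ 2 ^ √s`,
ANYWHERE in the oracle (also in its own block, in later blocks, and among the free strings).

LAZY FILLING: the contents of all the blocks are uniform bits; the machines are run in the order of
the levels; after the run of the machine `c` its block is filled: the bits of the block that have
been read so far (at most `2 ^ (3 s + 2)`) are kept, the others are resampled from a distribution
supported on the right slice.  So all the machines stay right.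

HYBRID: the last filling changes the probability of an event which is invisible to the slices by at
most `ε_c`: condition on the leaf of the decision tree (the set of the bits of the block `c` read by
the machines up to `c` and their values); on a leaf everything else is constant (`SWP`).
-/

set_option autoImplicit false
set_option linter.unusedSectionVars false
set_option linter.unusedVariables false

namespace Pool.Agent.K7x.XE

open Finset H568R2 Pool.Agent.H676 Pool.Agent.H620R2.Gauge Pool.Agent.NPC Pool.Agent.H591R3.PHG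
  Pool.Agent.H622R2 Pool.Agent.H622R2.Exp Filter

open Pool.Agent.H9x.RT (lev lv ml Fo Hm)

open Pool.Agent.H9x.RU (Dt Kr Smp fo la Rt SZ LQ lf)

open Pool.Agent.K7x.EQ (us us_eq Iu m2e Yes No enc va LA IsEQP dl ssum)

open Pool.Agent.K7x.ER (orc Fam cJ Jx)

/-! ## Part 1: abstract filling -/

section Abstract

variable {ι : Type} [DecidableEq ι] {I : ι → Type} [∀ c, Fintype (I c)] [∀ c, DecidableEq (I c)]

/-- the contents of all the blocks -/
abbrev Cont (I : ι → Type) : Type := (c : ι) → I c → Bool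

/-- sets of positions in all the blocks -/
abbrev Frc (I : ι → Type) : Type := (c : ι) → Finset (I c)

/-- the machines: `t c B` is the answer of the machine `c`, and `R c B c'` is the set of the
positions of the block `c'` that it reads -/
structure Mac (I : ι → Type) where
  t : ι → Cont I → Bool
  R : ι → Cont I → Frc I
  loc : ∀ c B B', (∀ c', ∀ i ∈ R c B c', B' c' i = B c' i) → t c B' = t c B ∧ R c B' = R c B

/-- `v` on `F` and `u` elsewhere -/
def mixF {J : Type} [DecidableEq J] (F : Finset J) (v u : J → Bool) : J → Bool :=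
  fun i => if i ∈ F then v i else u i

/-- the distributions of the contents: `K c b F v` is the distribution of the new content of the
block `c`, if the truth value is `b` and the bits in `F` are kept (equal to those of `v`) -/
structure Ker (I : ι → Type) [∀ c, Fintype (I c)] [∀ c, DecidableEq (I c)] where
  K : (c : ι) → Bool → Finset (I c) → (I c → Bool) → (I c → Bool) → ℝ
  nn : ∀ c b F v z, 0 ≤ K c b F v z
  one : ∀ c b F v, ∑ z, K c b F v z = 1
  sup : ∀ c b F v z, K c b F v z ≠ 0 → ∀ i ∈ F, z i = v i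
  dep : ∀ c b F v v', (∀ i ∈ F, v i = v' i) → K c b F v = K c b F v'

/-- the positions read after the run of the machine `c` -/
def nF (m : Mac I) (B : Cont I) (F : Frc I) (c : ι) : Frc I := fun c' => F c' ∪ m.R c B c'

/-- the expected value of `Ψ` after the blocks of the list have been filled -/
noncomputable def EV (m : Mac I) (K : Ker I) : List ι → Cont I → Frc I → (Cont I → Frc I → ℝ) → ℝ
  | [], B, F, Ψ => Ψ B F
  | c :: C, B, F, Ψ => ∑ z : I c → Bool, K.K c (m.t c B) (nF m B F c c) (B c) z *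
      EV m K C (Function.update B c z) (nF m B F c) Ψ

/-- the contents and the sets that can be reached by filling the blocks of the list -/
inductive Rch (m : Mac I) (K : Ker I) : List ι → Cont I → Frc I → Cont I → Frc I → Prop
  | nil (B : Cont I) (F : Frc I) : Rch m K [] B F B F
  | cons (c : ι) (C : List ι) (B : Cont I) (F : Frc I) (z : I c → Bool) (B' : Cont I) (F' : Frc I) :
      K.K c (m.t c B) (nF m B F c c) (B c) z ≠ 0 →
      Rch m K C (Function.update B c z) (nF m B F c) B' F' → Rch m K (c :: C) B F B' F'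

/-- the average over uniform contents of the blocks of the list (the bits in `F₀` are kept) -/
noncomputable def AvL (F₀ : Frc I) : List ι → (Cont I → ℝ) → Cont I → ℝ
  | [], Ψ, B => Ψ B
  | c :: C, Ψ, B => (∑ u : I c → Bool, AvL F₀ C Ψ (Function.update B c (mixF (F₀ c) (B c) u))) /
      2 ^ Fintype.card (I c)

/-- **Piece SWP** (the swap; Mathlib only, 40-60 lines).

PROOF.  On pairs `(u, u')` consider the map `T (u, u') = (mixF (R u) u u', mixF (R u) u' u)`.  By `hR`
we have `R (mixF (R u) u u') = R u` (the two functions agree on `R u`), so `T (T (u, u')) = (u, u')`: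
`T` is an involution, hence a bijection (`Finset.sum_bij'` or `Equiv.sum_comp` with
`Function.Involutive.toPerm`).  So `∑_{u,u'} G (mixF (R u) u u') = ∑_{u,u'} G u = 2 ^ |J| * ∑ G u`. -/
def S_SWP : Prop := ∀ (J : Type) [Fintype J] [DecidableEq J] (R : (J → Bool) → Finset J)
  (_hR : ∀ u u' : J → Bool, (∀ i ∈ R u, u' i = u i) → R u' = R u) (G : (J → Bool) → ℝ),
  ∑ u, G u = (∑ u, ∑ u', G (mixF (R u) u u')) / 2 ^ Fintype.card J

end Abstract

/-- **Piece COR** (abstract correctness of the filling; Mathlib only, 100-140 lines).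

PROOF.  Induction on the derivation of `Rch` (for all the data).  `nil` is trivial.  For `cons c C`
put `B₁ = update B c z`, `F₁ = nF m B F c`.  By `K.sup`, `z i = B c i` for `i ∈ F₁ c`; so `B₁` agrees
with `B` on `F₁` (all blocks), and, by (2) of the induction hypothesis, `B'` agrees with `B₁`, hence
with `B`, on `F₁`, in particular on `R c B` and on `F`.  So `m.t c B' = m.t c B` and
`m.R c B' = m.R c B ⊆ F₁ ⊆ F'` (by `m.loc`).  (1) and `B' c = z` follow from (1) of the induction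
hypothesis (`c ∉ C` by `Nodup`).  (4) for the code `c`: `F₁ c = F c ∪ R c B c` has at most
`|F c| + q c` elements, take `C₁ = []`, `G = F₁ c`, `v = B c`.  (4) for `c' ∈ C`: use the induction
hypothesis and `|F₁ c'| ≤ |F c'| + q c`.  (5): the same estimate. -/
def S_COR : Prop := ∀ (ι : Type) [DecidableEq ι] (I : ι → Type) [∀ c, Fintype (I c)]
  [∀ c, DecidableEq (I c)] (m : Mac I) (K : Ker I) (q : ι → ℕ)
  (_hq : ∀ c B c', (m.R c B c').card ≤ q c) (C : List ι) (B : Cont I) (F : Frc I) (B' : Cont I)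
  (F' : Frc I), C.Nodup → Rch m K C B F B' F' →
  (∀ c, c ∉ C → B' c = B c) ∧ (∀ c, ∀ i ∈ F c, B' c i = B c i) ∧ (∀ c, F c ⊆ F' c) ∧
  (∀ c ∈ C, (∀ c', m.R c B' c' ⊆ F' c') ∧ ∃ (C₁ C₂ : List ι) (G : Finset (I c)) (v : I c → Bool),
    C = C₁ ++ c :: C₂ ∧ G.card ≤ (F c).card + (C₁.map q).sum + q c ∧
    K.K c (m.t c B') G v (B' c) ≠ 0) ∧
  (∀ c, (F' c).card ≤ (F c).card + (C.map q).sum)

/-- **Piece RCH** (reachable contents exist and expected values; Mathlib only, 40-60 lines).

PROOF.  (1) Induction on `C`: the sum of `K.K c b G v` is `1` (`finsum_eq_sum_of_fintype`), so some `z` has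
`K.K c b G v z ≠ 0`.  (2) Induction on `C`: `EV (c :: C) = ∑ z, K z * EV C ..`, where every `z` with
`K z ≠ 0` has `1 ≤ EV C ..` by the induction hypothesis (with `Rch.cons`), and `∑ z, K z = 1`. -/
def S_RCH : Prop := ∀ (ι : Type) [DecidableEq ι] (I : ι → Type) [∀ c, Fintype (I c)]
  [∀ c, DecidableEq (I c)] (m : Mac I) (K : Ker I) (C : List ι) (B : Cont I) (F : Frc I),
  (∃ B' F', Rch m K C B F B' F') ∧
  ∀ Ψ : Cont I → Frc I → ℝ, (∀ B' F', Rch m K C B F B' F' → 1 ≤ Ψ B' F') → 1 ≤ EV m K C B F Ψ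

/-- the change of the expected value of `φ` when the block `c` is filled -/
noncomputable def Dl {ι : Type} [DecidableEq ι] {I : ι → Type} [∀ c, Fintype (I c)]
    [∀ c, DecidableEq (I c)] (m : Mac I) (K : Ker I) (c : ι) (φ : Cont I → ℝ) :
    Cont I → Frc I → ℝ := fun B F =>
  ∑ z, K.K c (m.t c B) (nF m B F c c) (B c) z * φ (Function.update B c z) - φ B

/-- **Piece HYA** (the last filling; Mathlib only, uses `SWP` (first hypothesis), 100-140 lines).

PROOF.  Induction on `C` (for all `B`, `F`, `v`).  Write `B_u = update B c (mixF (F c) v u)`.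
`C = []`: put `R u = nF m B_u F c c = F c ∪ m.R c B_u c`; if `u' = u` on `R u` then `B_{u'}` agrees with
`B_u` on all positions read by the machine `c` on `B_u` (outside the block `c` they are equal), so by
`m.loc` `t c B_{u'} = t c B_u`, `R c B_{u'} = R c B_u` and `R u' = R u`.  By `SWP` the sum over `u` of
`Dl B_u F` is `(∑_u ∑_{u'} Dl B_w F) / 2 ^ |I c|` with `w = mixF (R u) u u'`, and for fixed `u`, with
`b = t c B_u`, `G = R u`, `v' = mixF (F c) v u`, we have `B_w = update B c (mixF G v' u')` (as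
`F c ⊆ G`), `t c B_w = b`, `nF m B_w F c c = G`, `K.K c b G (B_w c) = K.K c b G v'` (`K.dep`), so
`(∑_{u'} Dl B_w F) / 2^|I c| = ∑_z K.K c b G v' z * φ (update B c z) - (∑_{u'} φ (update B c (mixF G v' u'))) / 2^|I c|`,
which is at most `ε` in absolute value by `hcl` (`|G| ≤ |F c| + q c ≤ D`).
`C = c₁ :: C'` (`c₁ ≠ c`): `EV (c₁ :: C') B_u F _ = ∑_z K.K c₁ (t c₁ B_u) (nF m B_u F c₁ c₁) (B c₁) z *
EV C' (update B_u c₁ z) (nF m B_u F c₁) _`.  Put `R u = nF m B_u F c₁ c = F c ∪ m.R c₁ B_u c` and apply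
`SWP` as before: for fixed `u` and `w = mixF (R u) u u'` we have `t c₁ B_w = t c₁ B_u`,
`nF m B_w F c₁ = nF m B_u F c₁ =: F₁`, `F₁ c = R u`, `B_w = update B c (mixF (F₁ c) v' u')`, and
`update B_w c₁ z = update (update B c₁ z) c (mixF (F₁ c) v' u')` (`Function.update_comm`).  So for fixed
`u` the average over `u'` is `∑_z K.K c₁ b₁ (F₁ c₁) (B c₁) z * (average over u' of
EV C' (update (update B c₁ z) c (mixF (F₁ c) v' u')) F₁ _)`, each average is at most `ε` in absolute
value by the induction hypothesis (`|F₁ c| ≤ |F c| + q c₁`), and `∑_z K = 1`. -/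
def S_HYA : Prop := ∀ (ι : Type) [DecidableEq ι] (I : ι → Type) [∀ c, Fintype (I c)]
  [∀ c, DecidableEq (I c)] (m : Mac I) (K : Ker I) (q : ι → ℕ)
  (_hq : ∀ c B c', (m.R c B c').card ≤ q c) (φ : Cont I → ℝ) (c : ι) (D : ℕ) (ε : ℝ)
  (_hcl : ∀ (B : Cont I) (b : Bool) (F : Finset (I c)) (v : I c → Bool), F.card ≤ D →
    |∑ z, K.K c b F v z * φ (Function.update B c z) -
      (∑ u, φ (Function.update B c (mixF F v u))) / 2 ^ Fintype.card (I c)| ≤ ε)
  (C : List ι) (_hc : c ∉ C) (B : Cont I) (F : Frc I) (v : I c → Bool)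
  (_hD : (F c).card + (C.map q).sum + q c ≤ D),
  |(∑ u, EV m K C (Function.update B c (mixF (F c) v u)) F (Dl m K c φ)) /
    2 ^ Fintype.card (I c)| ≤ ε

/-- **Piece HYB** (the hybrid argument; Mathlib only, uses `HYA`, 120-160 lines).

PROOF.  (a) `EV (C ++ [c]) B F Ψ = EV C B F (fun B' F' => ∑ z, K.K c (m.t c B') (nF m B' F' c c) (B' c) z *
Ψ (update B' c z) (nF m B' F' c))`: induction on `C`; so `EV (C ++ [c]) B F φ - EV C B F φ =
EV C B F (Dl m K c φ)` (`EV` is linear in `Ψ`).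
(b) `AvL F₀ (C ++ [c]) Ψ B = AvL F₀ C (fun B => AvL F₀ [c] Ψ B) B` and, for `c ∉ C`, also
`= AvL F₀ [c] (fun B => AvL F₀ C Ψ B) B`: induction on `C` (`update_comm`; the sums commute).
(c) `AvL` is linear and monotone in `Ψ` and preserves constants.
(d) The theorem by induction on `C` from the right (`List.reverseRecOn`), for all `B₀`.  For `C ++ [c]`:
`AvL (C ++ [c]) (EV (C ++ [c]) .. φ) - AvL (C ++ [c]) φ
 = AvL (C ++ [c]) (fun B => EV C B F₀ (Dl m K c φ)) + (AvL (C ++ [c]) (fun B => EV C B F₀ φ) - AvL (C ++ [c]) φ)`.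
First term: by (b) it is `AvL C (AvL [c] (fun B => EV C B F₀ (Dl m K c φ)))`, and the inner average is at
most `ε c` in absolute value by `HYA` with `F = F₀`, `v = B c`.  Second term: by (b) it is `AvL [c]` of
the difference `AvL C (fun B => EV C B F₀ φ) - AvL C φ`, at most the sum of the other `ε` by the
induction hypothesis (at every base `B`). -/
def S_HYB : Prop := ∀ (ι : Type) [DecidableEq ι] (I : ι → Type) [∀ c, Fintype (I c)]
  [∀ c, DecidableEq (I c)] (m : Mac I) (K : Ker I) (q D : ι → ℕ) (ε : ι → ℝ)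
  (_hq : ∀ c B c', (m.R c B c').card ≤ q c) (φ : Cont I → ℝ) (C : List ι)
  (_hC : C.Nodup) (F₀ : Frc I) (B₀ : Cont I)
  (_hD : ∀ (C₁ : List ι) (c : ι) (C₂ : List ι), C = C₁ ++ c :: C₂ →
    (F₀ c).card + (C₁.map q).sum + q c ≤ D c)
  (_hcl : ∀ c ∈ C, ∀ (B : Cont I) (b : Bool) (F : Finset (I c)) (v : I c → Bool), F.card ≤ D c →
    |∑ z, K.K c b F v z * φ (Function.update B c z) -
      (∑ u, φ (Function.update B c (mixF F v u))) / 2 ^ Fintype.card (I c)| ≤ ε c),
  |AvL F₀ C (fun B => EV m K C B F₀ fun B _ => φ B) B₀ - AvL F₀ C φ B₀| ≤ (C.map ε).sum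

/-! ## Part 2: the machines -/

/-- codes of machines with inputs -/
abbrev Cd : Type := ℕ × List Bool

/-- the padded input -/
def yE (h : ℕ → Alg × Polynomial ℕ) (c : Cd) : List Bool :=
  pairBits (List.replicate (2 ^ (h c.1).2.eval c.2.length) true) c.2

/-- the machine accepts -/
def AcE (h : ℕ → Alg × Polynomial ℕ) (c : Cd) (A : Oracle) : Prop :=
  (h c.1).1.out A (yE h c) = some [true]

/-- the questions asked by an algorithm within `n` further rounds, after the answers `a` -/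
def qsR (M : Alg) (A : Oracle) (x : List Bool) : ℕ → List Bool → List (List Bool)
  | 0, _ => []
  | n + 1, a =>
    match M.D (pairBits x a) with
    | [] => []
    | true :: _ => []
    | false :: q => q :: qsR M A x n (a ++ [A q])

/-- the questions asked by the machine of a code -/
def QS (h : ℕ → Alg × Polynomial ℕ) (c : Cd) (A : Oracle) : Finset (List Bool) :=
  (qsR (h c.1).1 A (yE h c) ((h c.1).1.p.eval (yE h c).length) []).toFinset

/-- **Piece QST** (the questions; 60-80 lines).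

PROOF.  (1) Show by induction on `n`, for all `a`: if `A'` agrees with `A` on `qsR M A x n a` then
`qsR M A' x n a = qsR M A x n a` and `M.run A' x n a = M.run A x n a` (`M.out A x = M.run A x
(M.p.eval x.length) []`); and `(qsR M A x n a).length ≤ n`.  (2) The lengths: `Alg.next_length` (used in
`Alg.out_local` in `Pool/Agent/H620R2/Gauge/A1.lean`) bounds the length of `M.D (pairBits x a)` by a
polynomial in `|x|` if `|a| ≤ M.p.eval |x|`; induction on `n` with `a.length + n ≤ M.p.eval x.length`. -/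
def S_QST : Prop :=
  (∀ (h : ℕ → Alg × Polynomial ℕ) (c : Cd) (A A' : Oracle), (∀ q ∈ QS h c A, A' q = A q) →
    QS h c A' = QS h c A ∧ (AcE h c A' ↔ AcE h c A)) ∧
  (∀ (h : ℕ → Alg × Polynomial ℕ) (c : Cd) (A : Oracle),
    (QS h c A).card ≤ (h c.1).1.p.eval (yE h c).length) ∧
  ∀ M : Alg, ∃ b : Polynomial ℕ, ∀ (A : Oracle) (x : List Bool),
    ∀ q ∈ qsR M A x (M.p.eval x.length) [], q.length ≤ b.eval x.length

/-- the levels are large compared with the times -/
structure Ke (h : ℕ → Alg × Polynomial ℕ) (S : ℕ → Polynomial ℕ) : Prop where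
  big : ∀ e n, n + e + 1 ≤ (S e).eval n
  card : ∀ (c : Cd) (A : Oracle), (QS h c A).card ≤ 2 ^ Nat.sqrt (lev S c)
  len : ∀ (c : Cd) (A : Oracle), ∀ q ∈ QS h c A, q.length ≤ 2 ^ Nat.sqrt (lev S c)

/-- **Piece LEV** (the levels exist; uses QST, 80-110 lines).

PROOF.  For the machine `e` with time polynomial `p`, length polynomial `b` (QST) and padding polynomial
`r` take `d` with `p.eval m, b.eval m ≤ (m + 2) ^ d` for all `m` (`YAux.poly_bound`, see
`K7x/ER/Nums.lean`); `|yE h c| = 2 * 2 ^ r.eval n + 1 + n` (`length_pairBits`, `n = |x|`), and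
`m + 2 ≤ 2 ^ (r.eval n + n + 3)`.  So the number and the lengths of the questions are at most
`2 ^ (d * (r.eval n + n + 3))`; take `S e = (d * (r + X + 3)) ^ 2 + X + (e + 1)`: then
`Nat.sqrt (lev S c) ≥ d * (r.eval n + n + 3)` (`Nat.le_sqrt`). -/
def S_LEV : Prop := ∀ h : ℕ → Alg × Polynomial ℕ, ∃ S : ℕ → Polynomial ℕ, Ke h S

variable (S : ℕ → Polynomial ℕ) (g : ℕ → SAlg × Polynomial ℕ) (h : ℕ → Alg × Polynomial ℕ)

/-- the positions of the blocks -/
abbrev Ib (c : Cd) : Type := Iu (us (lev S c))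

/-- the data of the oracle (the contents do not depend on a truth value) -/
def toD (B : Cont (Ib S)) (fr : List Bool → Bool) : Dt := ⟨fun c _ => enc (us (lev S c)) (B c), fr⟩

/-- the oracle -/
noncomputable def oE (B : Cont (Ib S)) (fr : List Bool → Bool) : Oracle := orc S g (toD S B fr)

open Classical in
/-- the positions of the block `c'` read by the machine `c` -/
noncomputable def RE (fr : List Bool → Bool) (c : Cd) (B : Cont (Ib S)) : Frc (Ib S) := fun c' =>
  univ.filter fun i => ∃ q ∈ QS h c (oE S g B fr), ∃ (w : List Bool)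
    (hw : w.length = LA ((S c'.1).eval c'.2.length)),
    q = cJ (⟨c'.1, c'.2, w, hw⟩ : Jx S) ∧ ∀ z : Ib S c' → Bool, enc (us (lev S c')) z w = z i

open Classical in
/-- the answer of the machine `c` -/
noncomputable def tE (fr : List Bool → Bool) (c : Cd) (B : Cont (Ib S)) : Bool :=
  decide (AcE h c (oE S g B fr))

/-- **Piece MAC** (the machines as abstract machines; 80-120 lines; uses QST).

PROOF.  (1) If `B'` agrees with `B` on all `RE .. c B c'`, then `oE B' fr` agrees with `oE B fr` on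
`QS h c (oE B fr)`: a question `q = cJ p` has the answer `enc (us (lev S (p.e, p.x))) (B (p.e, p.x)) p.w`
(`ER.orc_on`), by `enc_cls` it is either constant or the bit `i` of the block, and then `i` is in `RE`;
other questions do not depend on `B` (`ER.orc_off`, `base` looks only at the free bits).  Then
`QST` (1) gives the same questions and the same answer.  (2) Every question `q` gives at most one
position `i` in at most one block (`cJ_inj`; if `z i = z i'` for all `z` then `i = i'`), so the number of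
positions in the block `c'` is at most the number of questions (`Finset.card_le_card_of_injOn` or
`card_le_card_of_surjOn`).  (3) If `fr'` agrees with `fr` on the strings of length `< n` and
`2 ^ Nat.sqrt (lev S c) < n` then `oE B fr'` agrees with `oE B fr` on `QS h c (oE B fr)`
(`ER.orc_free`: the free bit of the string `u` is the oracle at `true :: u`). -/
def S_MAC : Prop :=
  (∀ (fr : List Bool → Bool) (c : Cd) (B B' : Cont (Ib S)),
    (∀ c', ∀ i ∈ RE S g h fr c B c', B' c' i = B c' i) →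
    (∀ q ∈ QS h c (oE S g B fr), oE S g B' fr q = oE S g B fr q) ∧
    tE S g h fr c B' = tE S g h fr c B ∧ RE S g h fr c B' = RE S g h fr c B) ∧
  (∀ (fr : List Bool → Bool) (c : Cd) (B : Cont (Ib S)) (c' : Cd),
    (RE S g h fr c B c').card ≤ (QS h c (oE S g B fr)).card) ∧
  (Ke h S → ∀ (fr fr' : List Bool → Bool) (n : ℕ), (∀ u : List Bool, u.length < n → fr' u = fr u) →
    ∀ (c : Cd) (B : Cont (Ib S)), 2 ^ Nat.sqrt (lev S c) < n →
    (∀ q ∈ QS h c (oE S g B fr), oE S g B fr' q = oE S g B fr q) ∧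
    tE S g h fr' c B = tE S g h fr c B ∧ RE S g h fr' c B = RE S g h fr c B)

/-! ## Part 3: the distributions -/

/-- substitution of constants and coordinates -/
def Sb {J J' : Type} (φ : (J' → Bool) → (J → Bool)) : Prop :=
  ∀ i, (∃ c, ∀ z, φ z i = c) ∨ ∃ i', ∀ z, φ z i = z i'

open Classical in
/-- the functions for which the distributions are close to the uniform one -/
def Cl (t : ℕ) (p L β : ℝ) (s : ℕ) (f : (Iu (us s) → Bool) → Bool) : Prop :=
  (∀ c, ∀ ρ, lv 2 (br (rs (fun a => f (Sum.elim a c)) ρ)) 0 ≤ L) ∧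
  ∀ (J : Type) [Fintype J] [DecidableEq J] (φ : (J → Bool) → (Iu (us s) → Bool)), Sb φ →
    Ex (wq p) (fun ρ : Restr J => if ¬ DTr t (rs (fun a => f (φ a)) ρ) then (1 : ℝ) else 0) ≤ β

/-- the number of bits of a block that can be kept -/
def Db (s : ℕ) : ℕ := 2 ^ (3 * s + 2)

/-- **Piece CNC** (concentrated forrelation, close to uniform; 60-90 lines).

PROOF.  This is `exists_conc` in `K7x/EQ/Conc.lean` with the distances to the uniform distribution
(`ml (br f) 0` is the average, `ml_unif`): its proof constructs `P` from the walk and `Q` from the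
uniform distribution by `cond_exists` and shows `|P - walk| ≤ 7/(2^l η²)`, `|walk - uniform| ≤
ε (4 L / √2^l) + 1 / 2^l` (`wD_close`), `|Q - uniform| ≤ 1/(2^l η²)`.  Copy it, and keep the two
distances separate. -/
def S_CNC : Prop := ∀ {l : ℕ} (_hl : 1 ≤ l) {ε η : ℝ} (_h0 : 0 < ε) (_h1 : ε ≤ 1 / (16 * l))
  (_hη : 0 < η) (_hη1 : η ≤ 1) (_hq : 7 / (2 ^ l * η ^ 2) < 1),
  ∃ P Q : ((Fin l → Bool) ⊕ (Fin l → Bool) → Bool) → ℝ,
    (∀ a, 0 ≤ P a) ∧ ∑ a, P a = 1 ∧ (∀ a, P a ≠ 0 → |Fo (Hm l) a - ε| ≤ η) ∧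
    (∀ a, 0 ≤ Q a) ∧ ∑ a, Q a = 1 ∧ (∀ a, Q a ≠ 0 → |Fo (Hm l) a| ≤ η) ∧
    ∀ (f : ((Fin l → Bool) ⊕ (Fin l → Bool) → Bool) → Bool) (L : ℝ), 1 ≤ L →
      (∀ ρ, lv 2 (br (rs f ρ)) 0 ≤ L) →
      |∑ a, P a * br f a - ml (br f) 0| ≤ L / Real.sqrt 2 ^ l + 9 / (2 ^ l * η ^ 2) ∧
      |∑ a, Q a * br f a - ml (br f) 0| ≤ L / Real.sqrt 2 ^ l + 9 / (2 ^ l * η ^ 2)

/-- **Piece LIP** (the forrelation does not change much; 60-90 lines).

PROOF.  Let `D` be the number of fixed coordinates, `N = 2 ^ l`.  Change first the left half: by `Fo_eq`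
`Fo H a - Fo H a' = (∑_x (sg (a x) - sg (a' x)) * (∑_y H x y sg (a y))) / N`, by Cauchy-Schwarz
(`sum_mul_sq_le_sq_mul_sq`) its square is at most `(4 D) * N / N ^ 2` (`sum_Hw`: the sum of the squares
of the inner sums is `N`).  The right half: the same, as `H` is symmetric (`orth_Hm l : Orth (Hm l) _`).
So `|Fo a - Fo a'| ≤ 2 * √(4 D / N) = 4 √(D / N)`. -/
def S_LIP : Prop := ∀ (l D : ℕ) (σ : Restr ((Fin l → Bool) ⊕ (Fin l → Bool)))
  (a : (Fin l → Bool) ⊕ (Fin l → Bool) → Bool), (univ.filter fun i => σ i ≠ none).card ≤ D →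
  |Fo (Hm l) (ov σ a) - Fo (Hm l) a| ≤ 4 * Real.sqrt (D / 2 ^ l)

open Classical in
/-- **Piece MSK** (a mask with forced bits; 120-160 lines).

PROOF.  Variant of `mask_num` in `K7x/EQ/Dist.lean`.  Let `J = {i : I // σ i = none}` be the free
coordinates, `f = fsum σ` the sum of the signs of the fixed ones, `D` their number; `|J| = M - D`,
`M = 2 ^ (4 q)`.  Apply `mask_dist` (`K7x/EQ/Mask.lean`, general index type) to `J` with the sum
`s' = s - f` (parity: `s` even, `f ≡ D`, `|J| = M - D`), `K = 2 ^ (3 q)`, `κ = 16 / (p U)`, `U = 2 ^ (4 u)`: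
`|s'| + K + t ≤ (9/4) M/U + D + 2 ^ (3 q) + t ≤ 3.6 M/U` and `κ (p |J| / 2 - t) ≥ 3.9 M/U`... (the numbers
of `mask_num` with `|J| ≥ (99/100) M`, as `D ≤ 2 ^ (3 u) ≤ M / U ^ 2`); `e = 6 Λ / U`.  Let `P'` be the
distribution on `J → Bool`.  Put `P a = P' (a restricted to J)` if `a` agrees with `σ`, and `0`
otherwise.  Then `∑ a, P a * br f a = ∑ b, P' b * br f (the point with free part b)` and the uniform
average of `rs f σ` is the uniform average over `J → Bool` of the same function (`ml_unif`).  The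
hypothesis on decision trees holds for the function `fun b => f (point with free part b)` by the
universal hypothesis (substitution `Sb`).  [If the constants do not work out as stated, tell helper7:
there is room.] -/
def S_MSK : Prop := ∀ (I : Type) [Fintype I] [DecidableEq I] {q u t : ℕ}
  (_hcard : Fintype.card I = 2 ^ (4 * q)) (_huq : 4 * u ≤ q) (_hu : 5 ≤ u) {p Λ : ℝ} (_hp0 : 0 < p)
  (_hp1 : p ≤ 1) (_hΛp : (1 + (t : ℝ)) ^ 2 ≤ Λ * p) (_hΛ : 16 * Λ ≤ 2 ^ (4 * u)) {s : ℤ}
  (_hpar : ∃ r : ℤ, s = 2 * r) (_hs : |(s : ℝ)| ≤ (9 / 4) * 2 ^ (4 * q) / 2 ^ (4 * u))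
  (σ : Restr I) (_hσ : (univ.filter fun i => σ i ≠ none).card ≤ 2 ^ (3 * u)),
  ∃ P : (I → Bool) → ℝ, (∀ a, 0 ≤ P a) ∧ ∑ a, P a = 1 ∧
    (∀ a, P a ≠ 0 → ssum univ a = s ∧ ∀ i c, σ i = some c → a i = c) ∧
    ∀ (f : (I → Bool) → Bool) (β : ℝ),
      (∀ (J : Type) [Fintype J] [DecidableEq J] (φ : (J → Bool) → (I → Bool)), Sb φ →
        Ex (wq p) (fun ρ : Restr J => if ¬ DTr t (rs (fun a => f (φ a)) ρ) then (1 : ℝ) else 0) ≤ β) →
      |∑ a, P a * br f a - ml (br (rs f σ)) 0| ≤ 40 * Λ / 2 ^ (4 * u) + β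

/-- **Piece DST** (the distributions with forced bits; uses CNC, LIP, MSK; 200-260 lines).

PROOF.  Variant of `exists_dist2` (`K7x/EQ/Dist2.lean`) and `exists_gen` (`K7x/ER/Lvl.lean`).  `u = us s
= s + 5`, `Db s ≤ 2 ^ (3 u)`.  Split `σ` into `σ1, σ2, σ3` (the three summands of `Iu u`).  Sample `a`
from `P0` (or `Q0`) of CNC (`l = 16 u`, `ε = 2 sin(..)`, `η = 2 ^ (-4u)` as in `exists_dist2`), put
`a' = ov σ1 a`; by LIP `|Fo a' - Fo a| ≤ 4 √(2 ^ (3u - 16u)) ≤ 2 ^ (-4u) / 8`.  Then the first mask from MSK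
with `σ2` and the exact sum `2 (τi - Sf a')` (resp. `-2 Sf a'`), `|..| ≤ 2 + (9/8) 2 ^ (20 u) ≤
(9/4) 2 ^ (20 u)`, and the second mask from MSK with `σ3` and the same sums as in `exists_dist2`.  The
distribution is `P z = ∑_a P0 a [F1 z = ov σ1 a] PW (ov σ1 a) (F2 z) P2 (F3 z)`.  Distances: replace the two
masks (given the rest) by the uniform mask restricted by `σ2`, `σ3` (each `≤ 40 (2 L) / 2^(4u) + β`), then
`P0` by uniform: for fixed masks the function `a ↦ f (Sum.elim (ov σ1 a) ..)` is `rs (..) σ1`, whose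
restrictions are restrictions of `..` (`ov σ1 (ov ρ a) = ov (cmp σ1 ρ) a`), so CNC gives
`(L + 9) / 2 ^ (8 u)`.  Total at most `(160 L + 2 + 10 L) / 2 ^ (4 u) ≤ L / 8 ^ s = dl s L`
(`2 ^ (4 u) = 2 ^ 20 * 16 ^ s`). -/
def S_DST : Prop := ∀ {t : ℕ} {p L : ℝ} (_hp0 : 0 < p) (_hp1 : p ≤ 1) (_hL : 1 ≤ L)
  (_hLp : (1 + (t : ℝ)) ^ 2 ≤ 2 * L * p) (s : ℕ) (_hbig : 32 * L ≤ 2 ^ (4 * us s)) (b : Bool)
  (σ : Restr (Iu (us s))) (_hσ : (univ.filter fun i => σ i ≠ none).card ≤ Db s),
  ∃ P : (Iu (us s) → Bool) → ℝ, (∀ a, 0 ≤ P a) ∧ ∑ a, P a = 1 ∧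
    (∀ a, P a ≠ 0 → va (us s) a = (if b then 1 else 0) ∧ ∀ i c, σ i = some c → a i = c) ∧
    ∀ (f : (Iu (us s) → Bool) → Bool) (β : ℝ), β ≤ 1 / 2 ^ (4 * us s) → Cl t p L β s f →
      |∑ a, P a * br f a - ml (br (rs f σ)) 0| ≤ dl s L

/-- **Piece KER** (the kernels; uses DST, 60-90 lines).

PROOF.  For `c`, `b`, `F`, `v`: if `|F| ≤ Db (lev S c)` and `32 L ≤ 2 ^ (4 us (lev S c))` take `P` from DST with
the restriction `σ i = some (v i)` for `i ∈ F` and `none` otherwise, computed from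
`v' = mixF F v (fun _ => false)` (so that `dep` holds); if `|F| ≤ Db` but `L` is too large take `P` from
DST with `t = 0`, `p = 1`, `L = 1`; if `|F| > Db` take the point mass at `v'`.  The average:
`ml (br (rs f σ)) 0 = (∑ u, br f (mixF F v u)) / 2 ^ |I|` (`ml_zero`, `ov σ u = mixF F v u`). -/
def S_KER : Prop := ∀ {t : ℕ} {p L : ℝ} (_hp0 : 0 < p) (_hp1 : p ≤ 1) (_hL : 1 ≤ L)
  (_hLp : (1 + (t : ℝ)) ^ 2 ≤ 2 * L * p),
  ∃ K : Ker (Ib S),
    (∀ c b F v z, F.card ≤ Db (lev S c) → K.K c b F v z ≠ 0 →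
      va (us (lev S c)) z = if b then 1 else 0) ∧
    ∀ c b F v, F.card ≤ Db (lev S c) → 32 * L ≤ 2 ^ (4 * us (lev S c)) →
      ∀ (f : (Ib S c → Bool) → Bool) (β : ℝ), β ≤ 1 / 2 ^ (4 * us (lev S c)) →
        Cl t p L β (lev S c) f →
        |∑ z, K.K c b F v z * br f z -
          (∑ u, br f (mixF F v u)) / 2 ^ Fintype.card (Ib S c)| ≤ dl (lev S c) L

/-! ## Part 4: the upper bound -/

/-- `EXP` relative to `A`: polynomial time (relative to `A`) on the input padded with `2 ^ p(n)` ones -/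
def IsEXP (A : Oracle) (L : Set (List Bool)) : Prop :=
  ∃ (V : List Bool → List Bool) (p : Polynomial ℕ), IsFP A V ∧ ∀ x : List Bool,
    x ∈ L ↔ V (pairBits (List.replicate (2 ^ p.eval x.length) true) x) = [true]

/-- **Piece UPB** (`EXP ⊆ EQP`; 80-110 lines).

PROOF.  As `eqp_of_cont` and `eqp_of_pspace` in `K7x/ER/World.lean`.  For `L` in EXP take `e` with
`h e = (M, p)`, `M` computing `V`; then `x ∈ L ↔ AcE h (e, x) A` for `A = oE S g B fr`.  Use `isEQP_of` with
`pre x = false :: true :: cS e ((S e).eval |x|) []`, `ppre = [false, false]`, `Pj (S e)`, `Pm (S e)`,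
`Pk (S e)`; the block of `(e, x)` shows `enc (us (lev S (e, x))) (B (e, x))` (`ER.orc_on`), and
`va (us _) (B (e, x))` is `1` or `0` according to the answer of the machine. -/
def S_UPB : Prop := ∀ (_hh : Function.Surjective h) (_hS : ∀ e n, n + e + 1 ≤ (S e).eval n)
  (B : Cont (Ib S)) (fr : List Bool → Bool)
  (_hB : ∀ c, va (us (lev S c)) (B c) = if tE S g h fr c B then 1 else 0) (L : Set (List Bool)),
  IsEXP (oE S g B fr) L → IsEQP (oE S g B fr) L

/-! ## Part 5: the polynomial hierarchy -/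

/-- **Piece NUM** (the numbers; 130-170 lines).

PROOF.  Variant of `sizes` in `K7x/ER/Nums.lean`, with `n = 2 ^ ν` exponentially large compared with `u` and
`nB`.  Let `d` be the exponent of the polynomial `τ = qb + M.p + X` there.  For large `ν` put `n = 2 ^ ν`,
`as` from `exists_SZ` (needs `5 ≤ n`, `8 u ≤ n`), `m₀ = 2 * as.sum + as.length + 2 * (8 n) + 1 + (u + 11) ≤
160 (k + 1) n`, `Pm = (m₀ + 2) ^ i + 1 ≤ 2 ^ ((ν + c) (i + 1))`, `Λ = (k + 1)(2 Pm + 1) + m₀`, `T = τ.eval Λ +
m₀ + as.sum + 8 n + 2` (so `T ≤ 2 ^ (a ν)` with a constant `a` depending on `M, k, i`), `u = a' ν` with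
`33 T + 164 + k ≤ 2 ^ (2 u)`, `nB = 16 (u + 1) (k + 2) + ..` (linear in `ν`), such that `LQ u k ≤
2 ^ (6 u + 23 + 10 k + 4 u k)` (`LQ_le`) and the last inequality hold.  `2 ^ Nat.sqrt nB < n` means
`Nat.sqrt nB < ν`, true if `nB < ν ^ 2` (`Nat.sqrt_lt'`), so for large `ν`.  `u ≤ n / 8` is clear for large
`ν` (`u` is linear in `ν`). -/
def S_NUM : Prop := ∀ (M : Alg) (k i N₀ : ℕ),
  ∃ (nB n u T Pm Λ m₀ : ℕ) (as : List ℕ), N₀ ≤ nB ∧ nB ≤ n ∧ 2 ^ Nat.sqrt nB < n ∧ 5 ≤ n ∧
    8 * u ≤ n ∧ SZ n u k as ∧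
    (∀ j : Fin (2 ^ (u + 11)), (Pool.Agent.H591R3.PHG.enc as (8 * n) (bitsOf (u + 11) j)).length = m₀) ∧ n ≤ m₀ ∧
    (k + 1) * (2 * Pm + 1) + m₀ ≤ Λ ∧
    (∀ y : List Bool, y.length ≤ Λ → M.p.eval y.length ≤ T) ∧
    (∀ (A : Oracle) (y : List Bool), y.length ≤ Λ → M.out (CC.cut T A) y = M.out A y) ∧
    Λ ≤ T ∧ m₀ + as.sum + 8 * n + 2 ≤ T ∧ 33 * T + 164 + k ≤ 2 ^ (2 * u) ∧
    ((Pm : ℝ) + 1) * (k * (2 ^ (Λ + 2) * (1 / 2) ^ (2 ^ (2 * u) + 1)) +
      3 * (1 / 2) ^ (2 ^ u)) + ((Pm : ℝ) + 1) * ((T + 1) * (2 * (LQ u k : ℝ) / 2 ^ nB)) < 1 ∧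
    (m₀ + 2) ^ i ≤ Pm

/-- **Piece CLO** (the functions are suitable; 80-110 lines).

PROOF.  The oracles `z ↦ oE (update B c z) fr` are given by the data `F z = toD S (update B c z) fr`, and
`Fam S (lev S c) T F` holds: only the block `c` changes, the contents do not depend on the truth value, and
the block `c` shows constants and coordinates (`enc_cls`).  So `blk_lv` and `blk_dtr` (`K7x/ER/Stp.lean`)
apply as in `one_step` (`K7x/ER/One.lean`, the same numbers `t = 2 ^ (2 u)`, `X = Fin (2 ^ (u + 11))`):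
`Cl` with `t = 2 ^ (2 u) * 2 ^ (u + 11)`, `p = (1 / (24 * 2 ^ (2 u))) ^ k`, `L = LQ u k`,
`β = k * 2 ^ (2 P + 1 + m₀ + k (2 P + 1) + 2) * (1 / 2) ^ (2 ^ (2 u) + 1)` and `β ≤ 1 / 2 ^ (4 us (lev S c))`. -/
def S_CLO : Prop := ∀ (k u n T Pm Λ m₀ P : ℕ) (M : Alg) (as : List ℕ) (_hP : P ≤ Pm) (_hn : 5 ≤ n)
  (_hu : 8 * u ≤ n) (_hsz : SZ n u k as)
  (_hm : ∀ j : Fin (2 ^ (u + 11)), (Pool.Agent.H591R3.PHG.enc as (8 * n) (bitsOf (u + 11) j)).length = m₀)
  (_hΛ : (k + 1) * (2 * Pm + 1) + m₀ ≤ Λ)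
  (_hp : ∀ y : List Bool, y.length ≤ Λ → M.p.eval y.length ≤ T)
  (_hcut : ∀ (A : Oracle) (y : List Bool), y.length ≤ Λ → M.out (CC.cut T A) y = M.out A y)
  (_hΛT : Λ ≤ T) (_h33 : 33 * T + 164 + k ≤ 2 ^ (2 * u)) (c : Cd) (_hc : lev S c ≤ T)
  (B : Cont (Ib S)) (fr : List Bool → Bool) (f : (Ib S c → Bool) → Bool)
  (_hf : ∀ z, f z = true ↔ Rt k P M (fun j : Fin (2 ^ (u + 11)) => Pool.Agent.H591R3.PHG.enc as (8 * n)
    (bitsOf (u + 11) j)) (oE S g (Function.update B c z) fr)),
  ∃ β : ℝ, β ≤ 1 / 2 ^ (4 * us (lev S c)) ∧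
    Cl (2 ^ (2 * u) * 2 ^ (u + 11)) ((1 / (24 * ((2 ^ (2 * u) : ℕ) : ℝ))) ^ k) (LQ u k : ℝ) β
      (lev S c) f

/-- **Piece RTC** (the requirement depends on few strings; 30-50 lines).

PROOF.  As `rt_congr` (`H9x/RU/World.lean`): by `rt_iff` (with `I = Fin 0`) `Rt` depends only on
`CC.cut T A` and `fo A` (`lf M T G` uses `CC.cut T (G z)`). -/
def S_RTC : Prop := ∀ (k P T Λ m₀ w : ℕ) (M : Alg) (as : List ℕ) (X : Type) [Fintype X]
  [DecidableEq X] (zz : X → List Bool) (_hk : as.length = k + 1)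
  (_hΛ : ∀ j, (pairBits (List.replicate P true) (Pool.Agent.H591R3.PHG.enc as w (zz j))).length +
    k * (2 * P + 1) ≤ Λ)
  (_hcut : ∀ (A : Oracle) (y : List Bool), y.length ≤ Λ → M.out (CC.cut T A) y = M.out A y)
  (A A' : Oracle) (_hA : ∀ q : List Bool, q.length ≤ T → A q = A' q) (_hf : fo A = fo A'),
  Rt k P M (fun j => Pool.Agent.H591R3.PHG.enc as w (zz j)) A ↔ Rt k P M (fun j => Pool.Agent.H591R3.PHG.enc as w (zz j)) A'

/-- **Piece PAD** (from the padded form to the usual one; 80-120 lines).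

PROOF.  Let `L` be in `Σ_k` relative to `A`, by `V` and `p`.  Let `st 0 y = (unpair y).2`,
`st (k+1) y = pairBits (unpair y).1 (st k (unpair y).2)`; it is computable in polynomial time (`Poly`), and
`V' = V ∘ st k` is in `FP` relative to `A` (composition lemmas for `IsFP`, e.g. in the folders `NPC`,
`H620R2/Gauge`, `TH678`).  By induction on `k` (for all `y`):
`Quant m V' .. ` at the string with the padding `pairBits (1^P) x` innermost is `Quant m V ..` at the same
string with `x` innermost.  Put `P = p.eval |x|`. -/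
def S_PAD : Prop := ∀ (A : Oracle) (k : ℕ) (L : Set (List Bool)) (V : List Bool → List Bool)
  (p : Polynomial ℕ), IsFP A V → (∀ x, x ∈ L ↔ Quant (p.eval x.length) V k true x) →
  ∃ V' : List Bool → List Bool, IsFP A V' ∧ ∀ (x : List Bool) (P : ℕ),
    (Quant P V' k true (pairBits (List.replicate P true) x) ↔ Quant P V k true x)

/-! ## Part 6: the construction -/

open Classical in
/-- **Piece CNT** (the number of all questions; 40-60 lines).

PROOF.  As `sum_dl_le` in `K7x/EQ/Stp.lean`: sort by the level `t ≤ s`; there are at most `2 ^ (2 t + 1)`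
codes of the level `t` (`card_lev` in `H9x/RT/Num.lean`), each contributes `2 ^ √t ≤ 2 ^ t`, and
`∑_{t ≤ s} 2 ^ (3 t + 1) ≤ 2 ^ (3 s + 2)`. -/
def S_CNT : Prop := ∀ (_hS : ∀ e n, n + e + 1 ≤ (S e).eval n) (s : ℕ),
  ∑ c ∈ Pool.Agent.H9x.RT.UU S 0 s, 2 ^ Nat.sqrt (lev S c) ≤ Db s

/-- the machines below the level `n` are right -/
def Inv (fr : List Bool → Bool) (n : ℕ) (B : Cont (Ib S)) : Prop :=
  ∀ c, lev S c < n → va (us (lev S c)) (B c) = if tE S g h fr c B then 1 else 0

/-- the data `B'`, `fr'` agree with `B`, `fr` on everything that is fixed at the stage `n` -/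
structure Agr (n : ℕ) (B : Cont (Ib S)) (fr : List Bool → Bool) (B' : Cont (Ib S))
    (fr' : List Bool → Bool) : Prop where
  bl : ∀ c, lev S c < n → B' c = B c
  qs : ∀ c, lev S c < n → ∀ q ∈ QS h c (oE S g B fr), oE S g B' fr' q = oE S g B fr q
  fr : ∀ u : List Bool, u.length < n → fr' u = fr u

/-- **Piece FIL** (deterministic filling; uses KER, COR, RCH, CNT, MAC, QST; 100-130 lines).

PROOF.  Let `K` be the kernels of KER with `t = 0`, `p = 1`, `L = 1`.  The machines `m = ⟨tE fr, RE fr, _⟩`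
(MAC (1)), `q c = 2 ^ Nat.sqrt (lev S c)` (MAC (2), `Ke.card`), `C` the list of `exists_list`
(`H9x/RT/Stp.lean`) of the codes with `n ≤ lev ≤ n' - 1` sorted by the level (for `n' = n` take `B' = B`),
`F c' = (UU S 0 (n-1)).biUnion (fun c => RE fr c B c')` (all the positions read by the machines below
`n`; empty for `n = 0`).  RCH gives `B'`, `F'` with `Rch m K C B F B' F'`; by COR `B'` agrees with `B` on
`F` and on the blocks below `n`, so the machines below `n` are unchanged (MAC (1)), and for `c ∈ C`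
`K.K c (m.t c B') G v (B' c) ≠ 0` with `|G| ≤ |F c| + ∑_{C₁} q + q c ≤ ∑_{c' ∈ UU S 0 (lev S c)} q c' ≤
Db (lev S c)` (CNT; the codes in `C₁` and `c` have levels between `n` and `lev S c`), so `va = 1` or `0`
according to the answer of the machine `c` on `B'`. -/
def S_FIL : Prop := Ke h S → ∀ (fr : List Bool → Bool) (n n' : ℕ) (B : Cont (Ib S)),
  Inv S g h fr n B → n ≤ n' → ∃ B', Agr S g h n B fr B' fr ∧ Inv S g h fr n' B'

/-- the requirement `r = (M, k, i)` -/
def ReqX (A : Oracle) (r : Alg × ℕ × ℕ) : Prop :=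
  ∃ m₀ : ℕ, r.2.2 ≤ m₀ ∧ ∀ P ≤ (m₀ + 2) ^ r.2.2, ∃ x : List Bool, x.length = m₀ ∧
    ¬ (x ∈ lang r.2.1 (fo A) ↔ Quant P (fun y => (r.1.out A y).getD []) r.2.1 true
      (pairBits (List.replicate P true) x))

/-- **Piece STG** (one stage; helper7). -/
def S_STG : Prop := Ke h S → ∀ (r : Alg × ℕ × ℕ) (fr : List Bool → Bool) (n : ℕ)
  (B : Cont (Ib S)), Inv S g h fr n B → ∃ (B' : Cont (Ib S)) (fr' : List Bool → Bool) (n' : ℕ),
    n < n' ∧ Agr S g h n B fr B' fr' ∧ Inv S g h fr' n' B' ∧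
    ∀ (B'' : Cont (Ib S)) (fr'' : List Bool → Bool), Agr S g h n' B' fr' B'' fr'' →
      ReqX (oE S g B'' fr'') r

/-- **Piece WLD** (the limit; uses QST; 80-110 lines).

PROOF.  Enumerate the requirements (`exists_surjective_nat (Alg × ℕ × ℕ)` as in `K7x/ER/World.lean`) and
iterate `STG` from some start `B`, `fr`, `n = 0` (`Inv` is empty): sequences `B_j`, `fr_j`, `n_j` with
`n_j < n_{j+1}`, `Agr n_j (B_j, fr_j) (B_{j+1}, fr_{j+1})`, `Inv n_j B_j`.  `Agr` is transitive in the form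
`Agr n (X, Y)`, `Agr n' (Y, Z)`, `n ≤ n'` imply `Agr n (X, Z)` (by QST (1) the machines below `n` ask the
same questions on `Y` as on `X`).  Limit: `B c = B_j c` and `fr u = fr_j u` for `j` with `lev S c < n_j`,
`|u| < n_j` (e.g. `j = lev S c + 1`, `j = |u| + 1`, as `j ≤ n_j`).  Every oracle string `q` of length
`< n_j` is answered by the limit as by `B_j, fr_j` (`ER.orc_loc` or `orc_on`, `orc_off`: the level of the
block of `q` is `< |q|`).  Hence `Agr n_j (B_j, fr_j) (B, fr)` for all `j` (a question of a machine below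
`n_j` has some length; compare with a large `j'`), so all the machines are right in the limit and all
the requirements hold. -/
def S_WLD : Prop := Ke h S → S_STG S g h → ∃ (B : Cont (Ib S)) (fr : List Bool → Bool),
  (∀ c, va (us (lev S c)) (B c) = if tE S g h fr c B then 1 else 0) ∧
  ∀ r : Alg × ℕ × ℕ, ReqX (oE S g B fr) r

end Pool.Agent.K7x.XE
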