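import Pool.Agent.K7x.XE.Stm

/-!
# Project H7X, piece SWP: the swap
-/

set_option autoImplicit false

namespace Pool.Agent.K7x.XE

open Finset

namespace Swp

theorem mix_agree {J : Type} [DecidableEq J] (R : (J → Bool) → Finset J)
    (hR : ∀ u u' : J → Bool, (∀ i ∈ R u, u' i = u i) → R u' = R u) (u u' : J → Bool) :
    R (mixF (R u) u u') = R u := by
  apply hR
  intro i hi
  simp [mixF, hi]

/-- the involution -/
def T {J : Type} [DecidableEq J] (R : (J → Bool) → Finset J) (z : (J → Bool) × (J → Bool)) :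
    (J → Bool) × (J → Bool) := (mixF (R z.1) z.1 z.2, mixF (R z.1) z.2 z.1)

theorem T_invol {J : Type} [DecidableEq J] (R : (J → Bool) → Finset J)
    (hR : ∀ u u' : J → Bool, (∀ i ∈ R u, u' i = u i) → R u' = R u) :
    Function.Involutive (T R) := by
  rintro ⟨u, u'⟩
  unfold T
  simp only [mix_agree R hR]
  congr 1
  · funext i
    by_cases hi : i ∈ R u <;> simp [mixF, hi]
  · funext i
    by_cases hi : i ∈ R u <;> simp [mixF, hi]

end Swp

open Swp in
theorem t_SWP : S_SWP := by
  intro J _ _ R hR G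
  have h1 : ∑ u, ∑ u', G (mixF (R u) u u') = ∑ z : (J → Bool) × (J → Bool), G (T R z).1 := by
    rw [Fintype.sum_prod_type]
    rfl
  have h2 : ∑ z : (J → Bool) × (J → Bool), G (T R z).1 = ∑ z : (J → Bool) × (J → Bool), G z.1 :=
    Equiv.sum_comp (Function.Involutive.toPerm (T R) (T_invol R hR)) (fun z => G z.1)
  have h3 : ∑ z : (J → Bool) × (J → Bool), G z.1 = (2 : ℝ) ^ Fintype.card J * ∑ u, G u := by
    rw [Fintype.sum_prod_type]
    simp only [Finset.sum_const, Finset.card_univ, Fintype.card_fun, Fintype.card_bool, nsmul_eq_mul]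
    rw [← Finset.mul_sum]
    push_cast
    rfl
  rw [h1, h2, h3]
  field_simp

end Pool.Agent.K7x.XE
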