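import Pool.Agent.K7x.XE.Stm

/-!
# Piece UPB: exponential time in exact quantum polynomial time
-/

set_option autoImplicit false

namespace Pool.Agent.K7x.XE

open Finset H568R2 Pool.Agent.H676 Pool.Agent.H620R2.Gauge Pool.Agent.NPC Pool.Agent.H591R3.PHG
  Pool.Agent.H622R2 Pool.Agent.H622R2.Exp Filter Pool.Agent.TH678.ETH Pool.Agent.TH678.SETH
  Pool.Agent.TH678.RS

open Pool.Agent.H9x.V1 (Ac ac_congr poly_rep poly_cS finite_ext)

open Pool.Agent.H9x.RT (lev lv ml Fo Hm mkp)

open Pool.Agent.H9x.RU (Dt Kr Smp fo la Rt SZ LQ lf)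

open Pool.Agent.K7x.EQ (us us_eq Iu m2e Yes No enc va LA IsEQP dl ssum yes_enc no_enc)

open Pool.Agent.K7x.ER (orc orc_on eqp_of_cont Fam cJ Jx)

variable (S : ℕ → Polynomial ℕ) (g : ℕ → SAlg × Polynomial ℕ) (h : ℕ → Alg × Polynomial ℕ)

theorem t_UPB : S_UPB S g h := by
  intro hh hS B fr hB L hL
  obtain ⟨V, p, ⟨M, hM⟩, hL⟩ := hL
  obtain ⟨e, he⟩ := hh (M, p)
  have hAc : ∀ x, AcE h (e, x) (oE S g B fr) ↔ x ∈ L := by
    intro x
    unfold AcE yE
    simp only [he]
    rw [hM, hL x]
    exact Option.some_inj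
  have hlen : UPoly (fun u : List Bool => u.length) := UPoly.length Poly.id
  have hSe : UPoly (fun u : List Bool => (S e).eval u.length) := hlen.eval (S e)
  refine eqp_of_cont (S := S) (g := g) (D := toD S B fr)
    (fun u => false :: true :: cS e ((S e).eval u.length) []) (S e)
    ?_ (fun u v huv => by simp only [huv])
    (c := fun x w => enc (us (lev S (e, x))) (B (e, x)) w) (fun x w hw => ?_)
    fun x => ?_
  · exact Poly.cons (NPC.Poly.const _) (Poly.cons (NPC.Poly.const _)
      (poly_cS e hSe (NPC.Poly.const [])))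
  · have h1 : (false :: true :: cS e ((S e).eval x.length) []) ++ (x ++ w) =
        cJ (⟨e, x, w, hw⟩ : Jx S) := by
      show _ = false :: true :: cS e ((S e).eval x.length) (x ++ w)
      simp [cS, pr]
    rw [h1, orc_on]
    rfl
  · have hb := hB (e, x)
    constructor
    · intro hx
      have h2 : tE S g h fr (e, x) B = true := by
        unfold tE
        exact (@decide_eq_true_iff _ (Classical.propDecidable _)).2 ((hAc x).2 hx)
      rw [h2, if_pos rfl] at hb
      exact yes_enc (s := (S e).eval x.length) hb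
    · intro hx
      have h2 : ¬ (tE S g h fr (e, x) B = true) := by
        unfold tE
        intro h3
        exact hx ((hAc x).1 ((@decide_eq_true_iff _ (Classical.propDecidable _)).1 h3))
      rw [if_neg h2] at hb
      exact no_enc (s := (S e).eval x.length) hb

end Pool.Agent.K7x.XE
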