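import Pool.Agent.K7x.XE.Stm

/-!
# Project H7X, piece WLD: the limit of the stages
-/

set_option autoImplicit false
set_option linter.all false

namespace Pool.Agent.K7x.XE

open Finset H568R2 Pool.Agent.H676 Pool.Agent.H620R2.Gauge Pool.Agent.NPC Pool.Agent.H591R3.PHG
  Pool.Agent.H622R2 Pool.Agent.H622R2.Exp Filter

open Pool.Agent.H9x.RT (lev lv ml Fo Hm)

open Pool.Agent.H9x.RU (Dt Kr Smp fo la Rt SZ LQ lf)

open Pool.Agent.K7x.EQ (us us_eq Iu m2e Yes No enc va LA IsEQP dl ssum)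

open Pool.Agent.K7x.ER (orc Fam cJ Jx orc_loc)

namespace WLDx

variable {S : ℕ → Polynomial ℕ} {g : ℕ → SAlg × Polynomial ℕ} {h : ℕ → Alg × Polynomial ℕ}

theorem agr_refl (n : ℕ) (B : Cont (Ib S)) (fr : List Bool → Bool) : Agr S g h n B fr B fr :=
  ⟨fun _ _ => rfl, fun _ _ _ _ => rfl, fun _ _ => rfl⟩

theorem agr_trans (h1 : S_QST) {n n' : ℕ} (hn : n ≤ n') {B B' B'' : Cont (Ib S)}
    {fr fr' fr'' : List Bool → Bool} (a : Agr S g h n B fr B' fr') (b : Agr S g h n' B' fr' B'' fr'') :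
    Agr S g h n B fr B'' fr'' := by
  refine ⟨fun c hc => (b.bl c (hc.trans_le hn)).trans (a.bl c hc), fun c hc q hq => ?_,
    fun u hu => (b.fr u (hu.trans_le hn)).trans (a.fr u hu)⟩
  have h2 := (h1.1 h c (oE S g B fr) (oE S g B' fr') (a.qs c hc)).1
  rw [← a.qs c hc q hq]
  exact b.qs c (hc.trans_le hn) q (by rw [h2]; exact hq)

theorem tE_eq (h1 : S_QST) {n : ℕ} {B B' : Cont (Ib S)}
    {fr fr' : List Bool → Bool} (a : Agr S g h n B fr B' fr') (c : Cd) (hc : lev S c < n) :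
    tE S g h fr' c B' = tE S g h fr c B := by
  have h2 := (h1.1 h c (oE S g B fr) (oE S g B' fr') (a.qs c hc)).2
  unfold tE
  exact decide_eq_decide.2 h2

end WLDx

open WLDx

theorem t_WLD (S : ℕ → Polynomial ℕ) (g : ℕ → SAlg × Polynomial ℕ) (h : ℕ → Alg × Polynomial ℕ)
    (h1 : S_QST) : S_WLD S g h := by
  intro hKe hstg
  have hst := hstg hKe
  have hne : Nonempty (Alg × ℕ × ℕ) := ⟨⟨⟨fun _ => [], CC.const_polyTime _, 0⟩, 0, 0⟩⟩
  obtain ⟨en, hen⟩ := exists_surjective_nat (Alg × ℕ × ℕ)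
  -- the sequence of the stages
  let St : Type := {x : Cont (Ib S) × (List Bool → Bool) × ℕ // Inv S g h x.2.1 x.2.2 x.1}
  have hstep : ∀ (j : ℕ) (x : St), ∃ y : St, x.1.2.2 < y.1.2.2 ∧
      Agr S g h x.1.2.2 x.1.1 x.1.2.1 y.1.1 y.1.2.1 ∧
      ∀ (B'' : Cont (Ib S)) (fr'' : List Bool → Bool),
        Agr S g h y.1.2.2 y.1.1 y.1.2.1 B'' fr'' → ReqX (oE S g B'' fr'') (en j) := by
    rintro j ⟨⟨B, fr, n⟩, hx⟩
    obtain ⟨B', fr', n', h2, h3, h4, h5⟩ := hst (en j) fr n B hx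
    exact ⟨⟨⟨B', fr', n'⟩, h4⟩, h2, h3, h5⟩
  choose nx hnx1 hnx2 hnx3 using hstep
  let x0 : St := ⟨⟨fun _ _ => false, fun _ => false, 0⟩, fun c hc => absurd hc (Nat.not_lt_zero _)⟩
  let sq : ℕ → St := fun j => Nat.rec x0 (fun j x => nx j x) j
  have hsq : ∀ j, sq (j + 1) = nx j (sq j) := fun j => rfl
  let Bs : ℕ → Cont (Ib S) := fun j => (sq j).1.1
  let fs : ℕ → List Bool → Bool := fun j => (sq j).1.2.1
  let ns : ℕ → ℕ := fun j => (sq j).1.2.2
  have hlt : ∀ j, ns j < ns (j + 1) := fun j => hnx1 j (sq j)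
  have hag1 : ∀ j, Agr S g h (ns j) (Bs j) (fs j) (Bs (j + 1)) (fs (j + 1)) :=
    fun j => hnx2 j (sq j)
  have hreq : ∀ (j : ℕ) (B'' : Cont (Ib S)) (fr'' : List Bool → Bool),
      Agr S g h (ns (j + 1)) (Bs (j + 1)) (fs (j + 1)) B'' fr'' → ReqX (oE S g B'' fr'') (en j) :=
    fun j => hnx3 j (sq j)
  have hinv : ∀ j, Inv S g h (fs j) (ns j) (Bs j) := fun j => (sq j).2
  have hmono : Monotone ns := monotone_nat_of_le_succ fun j => (hlt j).le
  have hge : ∀ j, j ≤ ns j := by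
    intro j
    induction j with
    | zero => exact Nat.zero_le _
    | succ j ih => exact Nat.succ_le_of_lt (ih.trans_lt (hlt j))
  have hag : ∀ i d, Agr S g h (ns i) (Bs i) (fs i) (Bs (i + d)) (fs (i + d)) := by
    intro i d
    induction d with
    | zero => exact agr_refl _ _ _
    | succ d ih => exact agr_trans h1 (hmono (Nat.le_add_right i d)) ih (hag1 (i + d))
  have hag' : ∀ i j, i ≤ j → Agr S g h (ns i) (Bs i) (fs i) (Bs j) (fs j) := by
    intro i j hij
    obtain ⟨d, rfl⟩ := Nat.exists_eq_add_of_le hij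
    exact hag i d
  -- the limit
  let B : Cont (Ib S) := fun c => Bs (lev S c + 1) c
  let fr : List Bool → Bool := fun u => fs (u.length + 1) u
  have hB : ∀ j c, lev S c < ns j → B c = Bs j c := by
    intro j c hc
    show Bs (lev S c + 1) c = Bs j c
    rcases le_total j (lev S c + 1) with hj | hj
    · exact (hag' _ _ hj).bl c hc
    · exact ((hag' _ _ hj).bl c (by have := hge (lev S c + 1); omega)).symm
  have hfr : ∀ j (u : List Bool), u.length < ns j → fr u = fs j u := by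
    intro j u hu
    show fs (u.length + 1) u = fs j u
    rcases le_total j (u.length + 1) with hj | hj
    · exact (hag' _ _ hj).fr u hu
    · exact ((hag' _ _ hj).fr u (by have := hge (u.length + 1); omega)).symm
  have hloc : ∀ j (q : List Bool), q.length ≤ ns j → oE S g B fr q = oE S g (Bs j) (fs j) q := by
    intro j q hq
    unfold oE
    refine orc_loc (n := ns j) (fun c hc => ?_) (fun u hu => ?_) _ q rfl hq
    · show (fun _ => enc (us (lev S c)) (B c)) = (fun _ => enc (us (lev S c)) (Bs j c))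
      rw [hB j c hc]
    · exact hfr j u hu
  have hlim : ∀ j, Agr S g h (ns j) (Bs j) (fs j) B fr := by
    intro j
    refine ⟨fun c hc => hB j c hc, fun c hc q hq => ?_, fun u hu => hfr j u hu⟩
    have h2 := (hag' j (max j q.length) (le_max_left _ _)).qs c hc q hq
    rw [← h2]
    exact hloc _ q ((le_max_right _ _).trans (hge _))
  refine ⟨B, fr, fun c => ?_, fun r => ?_⟩
  · have hc : lev S c < ns (lev S c + 1) := by have := hge (lev S c + 1); omega
    rw [tE_eq h1 (hlim (lev S c + 1)) c hc, hB (lev S c + 1) c hc]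
    exact hinv (lev S c + 1) c hc
  · obtain ⟨j, rfl⟩ := hen r
    exact hreq j B fr (hlim (j + 1))

end Pool.Agent.K7x.XE
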