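import Pool.Agent.K7x.XE.Fin
import Pool.Agent.K7x.XE.Swp
import Pool.Agent.K7x.XE.Cor
import Pool.Agent.K7x.XE.Rch
import Pool.Agent.K7x.XE.Hya
import Pool.Agent.K7x.XE.Hyb
import Pool.Agent.K7x.XE.QST
import Pool.Agent.K7x.XE.LEV
import Pool.Agent.K7x.XE.Mac
import Pool.Agent.K7x.XE.Cnc
import Pool.Agent.K7x.XE.Lip
import Pool.Agent.K7x.XE.Msk
import Pool.Agent.K7x.XE.Dst
import Pool.Agent.K7x.XE.Ker
import Pool.Agent.K7x.XE.Upb
import Pool.Agent.K7x.XE.Num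
import Pool.Agent.K7x.XE.Clo
import Pool.Agent.K7x.XE.Rtc
import Pool.Agent.K7x.XE.Pad
import Pool.Agent.K7x.XE.Cnt
import Pool.Agent.K7x.XE.Fil
import Pool.Agent.K7x.XE.Wld

/-!
# Project H7X: an oracle with `EXP ⊆ EQP` and an infinite polynomial hierarchy

The assembly of the pieces (by helper7, 11, 13, 22, 24, 33, 52, 61, 71, 78, 88, 94).
-/

set_option autoImplicit false

namespace Pool.Agent.K7x.XE

open Pool.Agent.NPC Pool.Agent.H620R2.Gauge Pool.Agent.H591R3.PHG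

open Pool.Agent.K7x.EQ (IsEQP)

theorem world : ∃ A : Oracle, (∀ L, IsEXP A L → IsEQP A L) ∧
    ∀ k : ℕ, ∃ L, IsSig A (k + 1) L ∧ ¬ IsSig A k L := by
  have hH : S_HYB := t_HYB (t_HYA t_SWP)
  have hD : S_DST := t_DST t_CNC t_LIP t_MSK
  refine world_of t_QST (t_LEV t_QST) (fun S g h => t_MAC S g h t_QST) t_COR t_RCH hH
    (fun S => t_KER S hD) (fun S g => t_CLO S g) t_CNT t_NUM t_RTC ?_ ?_ ?_ t_PAD
  · exact fun S g h => t_FIL S g h (t_KER S hD) t_COR t_RCH (t_CNT S) (t_MAC S g h t_QST) t_QST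
  · exact fun S g h => t_WLD S g h t_QST
  · exact fun S g h => t_UPB S g h

end Pool.Agent.K7x.XE
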